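import Mathlib

set_option autoImplicit false

namespace Pool.Agent.MP_5c28a4_al.H89

/-- the group `G` satisfies the identity `w = 1` -/
def Sat (G : GrpCat.{0}) (w : FreeGroup ℕ) : Prop := ∀ f : FreeGroup ℕ →* G, f w = 1

/-- a class of groups is a variety if it is defined by a set of identities -/
def IsVariety (V : Set GrpCat.{0}) : Prop :=
  ∃ S : Set (FreeGroup ℕ), V = {G | ∀ w ∈ S, Sat G w}

/-- (1) minimum condition on subvarieties -/
def MinCond (V : Set GrpCat.{0}) : Prop :=
  ¬ ∃ c : ℕ → Set GrpCat.{0}, (∀ n, IsVariety (c n) ∧ c n ⊆ V) ∧ StrictAnti c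

/-- (2) at most countably many subvarieties -/
def CountSub (V : Set GrpCat.{0}) : Prop := {U | IsVariety U ∧ U ⊆ V}.Countable

/-- (3) no infinite independent system of identities -/
def NoIndep (V : Set GrpCat.{0}) : Prop :=
  ¬ ∃ S : Set (FreeGroup ℕ), S.Infinite ∧
    ∀ s ∈ S, ¬ ∀ G ∈ V, (∀ t ∈ S \ {s}, Sat G t) → Sat G s

/-- the three properties, numbered 0, 1, 2 -/
def Prp : Fin 3 → Set GrpCat.{0} → Prop := ![MinCond, CountSub, NoIndep]

end Pool.Agent.MP_5c28a4_al.H89
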