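import Pool.Agent.MP_5c28a4_al.H89.Defs

set_option autoImplicit false

namespace Pool.Agent.MP_5c28a4_al.H89

open Pool.Agent.Burnside6

variable {G : Type} [Group G] {X : Nm G} {E : ℕ}

theorem commute_conj_iff {g a b : G} : Commute (g * a * g⁻¹) b ↔ Commute a (g⁻¹ * b * g) := by
  constructor
  · intro h
    change a * (g⁻¹ * b * g) = g⁻¹ * b * g * a
    calc _ = g⁻¹ * (g * a * g⁻¹ * b) * g := by group
      _ = _ := by rw [h.eq]; group
  · intro h
    change g * a * g⁻¹ * b = b * (g * a * g⁻¹)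
    calc _ = g * (a * (g⁻¹ * b * g)) * g⁻¹ := by group
      _ = _ := by rw [h.eq]; group

theorem commute_conj_conj {g a b : G} : Commute (g * a * g⁻¹) (g * b * g⁻¹) ↔ Commute a b := by
  rw [commute_conj_iff]; simp [mul_assoc]

theorem conj_eq_iff {g v : G} : g⁻¹ * v * g = v ↔ Commute g v := by
  rw [mul_assoc, inv_mul_eq_iff_eq_mul, eq_comm]; rfl

theorem conj_zpow' (a b : G) (j : ℤ) : (a⁻¹ * b * a) ^ j = a⁻¹ * b ^ j * a := by
  simpa using conj_zpow (a := a⁻¹) (b := b) (i := j)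

namespace TF

theorem pos (h : TF X E) {g : G} (hg : g ≠ 1) : 0 < X.τ g := by
  have h1 := h.h2 g hg
  rcases (X.tau_nonneg g).eq_or_lt with h2 | h2
  · rw [← h2] at h1; norm_num at h1
  · exact h2

theorem h4p (h : TF X E) (L : ℕ) : X.H4 L (332 + 10 * L) :=
  (h.fp.h4plus h.h4 (by norm_num) h.csaa h.csab L).mono le_rfl (by omega)

theorem zpow_ne (h : TF X E) {g : G} (hg : g ≠ 1) {j : ℤ} (hj : j ≠ 0) : g ^ j ≠ 1 :=
  fun h1 => hj (X.zpow_eq_one_of_tau (h.pos hg) h1)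

theorem pow_ne (h : TF X E) {g : G} (hg : g ≠ 1) {j : ℕ} (hj : j ≠ 0) : g ^ j ≠ 1 := by
  have := h.zpow_ne hg (j := j) (by exact_mod_cast hj)
  simpa using this

/-- if `a` commutes with a nonzero power of `g` then it commutes with `g` -/
theorem comm_of_zpow (h : TF X E) {a g : G} {j : ℤ} (hj : j ≠ 0) (hc : Commute a (g ^ j)) :
    Commute a g := by
  by_cases hg : g = 1
  · simp [hg]
  exact h.csaa _ _ _ (h.zpow_ne hg hj) hc ((Commute.refl g).zpow_right j)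

theorem comm_of_pow (h : TF X E) {a g : G} {j : ℕ} (hj : j ≠ 0) (hc : Commute a (g ^ j)) :
    Commute a g :=
  h.comm_of_zpow (j := j) (by exact_mod_cast hj) (by simpa using hc)

theorem root (h : TF X E) {g : G} (hg : g ≠ 1) :
    ∃ u, Commute u g ∧ ∀ a, Commute a g → a ∈ Subgroup.zpowers u :=
  h.fp.root (n := 1) (E := E) one_pos (fun g => by
    by_cases h1 : g = 1
    · simp [h1]
    · exact Or.inr (h.h2 g h1)) (fun e _ h1 h2 => absurd (by simpa using h2) h1) h.csaa (h.pos hg)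

theorem mono (h : TF X E) {E' : ℕ} (hE : E ≤ E') : TF X E' :=
  ⟨h.fp, fun g hg => by
    have := h.h2 g hg
    have h1 : (E : ℝ) ≤ E' := by exact_mod_cast hE
    nlinarith [X.tau_nonneg g], h.csaa, h.csab, h.h4⟩

theorem scale (h : TF X E) {P : ℕ} (hP0 : 0 < P) (hP : 40 ≤ P) : TF (X.scale P hP0) (E * P) := by
  refine ⟨h.fp.scale hP0 (by omega), fun g hg => ?_, h.csaa, h.csab, ?_⟩
  · have := h.h2 g hg
    rw [← X.tau_scale P hP0] at this
    push_cast; linarith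
  · intro u₁ u₂ p q h1 h2 h3 h4 h5
    rw [Nm.scale_d_le] at h1 h2 h3 h4
    refine h.h4p _ u₁ u₂ p q h1 h2 h3 h4 ?_
    have := (X.scale_d_le P hP0 p q 309).not.1 (by omega)
    omega

end TF

/-! segments and cross ratios -/

theorem On.mono {a b m m' : G} {c c' : ℕ} (h : On X a b m m' c) (hc : c ≤ c') : On X a b m m' c' := by
  unfold On at *; omega

theorem On.symm {a b m m' : G} {c : ℕ} (h : On X a b m m' c) : On X b a m' m c := by
  unfold On at *
  rw [X.comm b m', X.comm m' m, X.comm m a, X.comm b a]; omega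

theorem On.refl (a b : G) : On X a b a b 0 := by unfold On; simp

theorem On.mul {a b m m' : G} {c : ℕ} (h : On X a b m m' c) (g : G) :
    On X (g * a) (g * b) (g * m) (g * m') c := by
  unfold On at *; simpa only [Nm.d_mul] using h

theorem On.trans {a b y y' m m' : G} {c c' : ℕ} (h : On X a b y y' c) (h' : On X y y' m m' c') :
    On X a b m m' (c + c') := by
  unfold On at *
  have := X.tri a y m
  have := X.tri m' y' b
  omega

theorem On.left {a b m m' : G} {c : ℕ} (h : On X a b m m' c) :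
    X.d a m + X.d m b ≤ X.d a b + c := by
  unfold On at h; have := X.tri m m' b; omega

theorem On.right {a b m m' : G} {c : ℕ} (h : On X a b m m' c) :
    X.d a m' + X.d m' b ≤ X.d a b + c := by
  unfold On at h; have := X.tri a m m'; omega

theorem On.move {a b m m' n n' : G} {c k : ℕ} (h : On X a b m m' c) (h1 : X.d m n ≤ k)
    (h2 : X.d m' n' ≤ k) : On X a b n n' (c + 4 * k) := by
  unfold On at *
  have := X.tri a m n
  have := X.tri' n m n'
  have := X.tri m m' n'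
  have := X.tri' n' m' b
  omega

theorem Cr.mono {a b a' b' : G} {β β' : ℕ} (h : Cr X a b a' b' β) (hc : β' ≤ β) :
    Cr X a b a' b' β' := by
  unfold Cr at *; omega

theorem Cr.swap {a b a' b' : G} {β : ℕ} (h : Cr X a b a' b' β) : Cr X a' b' a b β := by
  unfold Cr at *
  rw [X.comm a' a, X.comm b' b]; omega

theorem Cr.rev {a b a' b' : G} {β : ℕ} (h : Cr X a b a' b' β) : Cr X b a b' a' β := by
  unfold Cr at *
  rw [X.comm b a, X.comm b' a']; omega

theorem Cr.mul {a b a' b' : G} {β : ℕ} (h : Cr X a b a' b' β) (g : G) :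
    Cr X (g * a) (g * b) (g * a') (g * b') β := by
  unfold Cr at *; simpa only [Nm.d_mul] using h

theorem Cr.of_on {a b a' b' m m' : G} {c c' β : ℕ} (h : On X a b m m' c) (h' : On X a' b' m m' c')
    (hβ : β + c + c' ≤ 2 * X.d m m') : Cr X a b a' b' β := by
  unfold On Cr at *
  have := X.tri'' a m a'
  have := X.tri' b m' b'
  omega

theorem Cr.ext {a b y y' p p' : G} {k β : ℕ} (h : On X a b y y' k) (h' : Cr X y y' p p' (β + k)) :
    Cr X a b p p' β := by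
  unfold On Cr at *
  have := X.tri a y p
  have := X.tri' b y' p'
  omega

theorem Cr.scale_down {P : ℕ} (hP : 0 < P) {a b a' b' : G} {β : ℕ}
    (h : Cr (X.scale P hP) a b a' b' (β + 2)) : Cr X a b a' b' (P * β) := by
  unfold Cr at *
  have h1 := X.scale_d_bounds P hP a a'
  have h2 := X.scale_d_bounds P hP b b'
  have h3 := X.scale_d_bounds P hP a b
  have h4 := X.scale_d_bounds P hP a' b'
  have := Nat.mul_le_mul_right P h
  simp only [Nat.add_mul] at this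
  rw [mul_comm P]
  omega

theorem core (h : X.FP 2) {a b a' b' : G} {β : ℕ} (hβ : 10 ≤ β) (hc : Cr X a b a' b' β) :
    ∃ m m', On X a b m m' 0 ∧ On X a' b' m m' 12 ∧ β ≤ 2 * X.d m m' + 6 := by
  unfold Cr at hc
  have t1 := X.tri a a' b
  have t2 := X.tri' a' a b
  have t3 := X.tri'' a b a'
  have t4 := X.tri a b b'
  have t5 := X.tri'' a b' b
  have t6 := X.tri' b a b'
  have f1 := h a b a' b'
  have f2 := h a b' b a'
  have := X.comm b a'
  have := X.comm b' a'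
  have := X.comm b' b
  obtain ⟨γ, g0, gl, g⟩ := X.exists_path _ a b le_rfl
  have hl : X.d (γ 0) (γ (X.d a b)) = X.d a b := by rw [g0, gl]
  obtain ⟨s, hs⟩ : ∃ s, s = (X.d a b + X.d a a' - X.d b a') / 2 := ⟨_, rfl⟩
  obtain ⟨s', hs'⟩ : ∃ s, s = (X.d a b + X.d a b' - X.d b b') / 2 := ⟨_, rfl⟩
  have e1 := X.geo_d g hl (Nat.zero_le s) (by omega)
  have e2 := X.geo_d g hl (show s ≤ s' by omega) (by omega)
  have e3 := X.geo_d g hl (show s' ≤ X.d a b by omega) le_rfl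
  have e4 := X.geo_d g hl (show s ≤ X.d a b by omega) le_rfl
  have e5 := X.geo_d g hl (Nat.zero_le s') (by omega)
  rw [g0] at e1 e5
  rw [gl] at e3 e4
  have l1 := h.L1 (x := a) (m := γ s) (y := b) (c := 0) (by omega) a'
  have l2 := h.L1 (x := a) (m := γ s') (y := b) (c := 0) (by omega) b'
  have := X.comm (γ s) a'
  have := X.comm (γ s') b'
  refine ⟨γ s, γ s', ?_, ?_, ?_⟩
  · unfold On; omega
  · unfold On; omega
  · omega

theorem Cr.wit (h : X.FP 2) {a b p p' u : G} {β ω : ℕ} (hc : Cr X a b p p' (β + 4 * ω + 100))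
    (h1 : X.d p (u * p) ≤ ω) (h2 : X.d p' (u * p') ≤ ω) : Cr X a b (u * a) (u * b) β := by
  obtain ⟨m, m', a1, a2, a3⟩ := core h (by omega) hc
  have d1 := h.disp a2.left h1 h2
  have d2 := h.disp a2.right h1 h2
  have := (a1.mul u).move (n := m) (n' := m') (k := ω + 14) (by rw [X.comm]; omega)
    (by rw [X.comm]; omega)
  exact Cr.of_on a1 this (by omega)

theorem Ov.mono {β β' : ℕ} {S S' : Subgroup G} {z t z' : G} (h : Ov X β S z t S' z') (hβ : β' ≤ β) :
    Ov X β' S z t S' z' := by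
  obtain ⟨a, ha, b, hb, a', ha', b', hb', h⟩ := h
  exact ⟨a, ha, b, hb, a', ha', b', hb', h.mono hβ⟩

theorem Ov.symm {β : ℕ} {S S' : Subgroup G} {z t z' : G} (h : Ov X β S z t S' z') :
    Ov X β S' z' t⁻¹ S z := by
  obtain ⟨a, ha, b, hb, a', ha', b', hb', h⟩ := h
  refine ⟨a', ha', b', hb', a, ha, b, hb, ?_⟩
  simpa [mul_assoc] using (h.mul t⁻¹).swap

theorem Mal.mono {β β' : ℕ} {S : Subgroup G} {z : G} (h : Mal X β S z) (hβ : β ≤ β') :
    Mal X β' S z := fun t ht => h t (ht.mono hβ)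

theorem Mal.inf {β : ℕ} {S : Subgroup G} {z u T : G} (h : Mal X β S z) (hu : u ∈ S)
    (hτ : 0 < X.τ u) (hT : T * u * T⁻¹ ∈ S) : T ∈ S := by
  obtain ⟨n, hn⟩ := exists_nat_gt (((β + 2 * X.d z (T * z) : ℕ) : ℝ) / X.τ u)
  rw [div_lt_iff₀ hτ] at hn
  refine h T ⟨1, one_mem _, (T * u * T⁻¹) ^ n, pow_mem hT n, 1, one_mem _, u ^ n, pow_mem hu n, ?_⟩
  unfold Cr
  have h1 := X.tau_le u z n
  have h2 : β + 2 * X.d z (T * z) ≤ X.d z (u ^ n * z) := by exact_mod_cast (hn.trans_le h1).le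
  have e1 : X.d ((T * u * T⁻¹) ^ n * z) (T * u ^ n * z) = X.d z (T * z) := by
    rw [conj_pow, mul_assoc (T * u ^ n), Nm.d_mul, Nm.d_inv_left]
  have e2 : X.d (T * 1 * z) (T * u ^ n * z) = X.d z (u ^ n * z) := by
    rw [mul_one, mul_assoc, Nm.d_mul]
  rw [e1, e2, one_mul, mul_one]
  omega

/-! chains -/

theorem WC.mono {x u : ℕ → G} {M ω ℓ M' ω' ℓ' : ℕ} (h : WC X x u M ω ℓ) (hM : M' ≤ M) (hω : ω ≤ ω')
    (hℓ : ℓ' ≤ ℓ) : WC X x u M' ω' ℓ' :=
  ⟨fun i hi => h.ne i (by omega), fun i hi => (h.w1 i (by omega)).trans hω,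
    fun i hi => (h.w2 i (by omega)).trans hω, fun i hi => hℓ.trans (h.len i (by omega)),
    fun i hi => h.nc i (by omega)⟩

theorem junction (h : TF X E) {x₀ x₁ x₂ u₀ u₁ : G} {ω : ℕ} (a0 : X.d x₀ (u₀ * x₀) ≤ ω)
    (a1 : X.d x₁ (u₀ * x₁) ≤ ω) (b1 : X.d x₁ (u₁ * x₁) ≤ ω) (b2 : X.d x₂ (u₁ * x₂) ≤ ω)
    (hc : ¬ Commute u₀ u₁) : X.d x₀ x₁ + X.d x₁ x₂ ≤ X.d x₀ x₂ + (746 + 20 * ω) := by
  by_contra hcon
  have t := X.tri' x₂ x₀ x₁
  have := X.comm x₂ x₁
  have := X.comm x₁ x₀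
  have := X.comm x₂ x₀
  obtain ⟨m, m1, m2⟩ := X.exists_between x₁ x₀ (372 + 10 * ω) (by omega)
  have d0 := h.fp.disp (c := 0) m2.le a1 a0
  have := X.tri'' x₂ m x₁
  have := X.tri x₁ m x₂
  have := X.comm m x₂
  rcases h.fp.L1 (c := 0) m2.le x₂ with h1 | h1
  · have d1 := h.fp.disp h1 b1 b2
    exact hc (h.h4p (ω + 4) u₀ u₁ x₁ m (by omega) (by omega) (by omega) (by omega) (by omega))
  · omega

theorem WC.corner (h : TF X E) {x u : ℕ → G} {M ω ℓ : ℕ} (w : WC X x u M ω ℓ) {i : ℕ}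
    (hi : i + 2 ≤ M) : X.d (x i) (x (i + 1)) + X.d (x (i + 1)) (x (i + 2)) ≤
      X.d (x i) (x (i + 2)) + (746 + 20 * ω) :=
  junction h (w.w1 i (by omega)) (w.w2 i (by omega)) (w.w1 (i + 1) (by omega))
    (w.w2 (i + 1) (by omega)) (w.nc i (by omega))

theorem WC.fwd (h : TF X E) {x u : ℕ → G} {M ω ℓ : ℕ} (w : WC X x u M ω ℓ)
    (hℓ : 752 + 20 * ω ≤ ℓ) (a j : ℕ) (hj : a + j + 1 ≤ M) :
    X.d (x a) (x (a + j)) + X.d (x (a + j)) (x (a + j + 1)) ≤
      X.d (x a) (x (a + j + 1)) + (748 + 20 * ω) := by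
  induction j with
  | zero => simp
  | succ j ih =>
    have ih := ih (by omega)
    have h1 := h.fp.L1 (w.corner h (i := a + j) (by omega)) (x a)
    have := w.len (a + j) (by omega)
    have := X.comm (x (a + j + 1)) (x a)
    have := X.comm (x (a + j)) (x a)
    rw [← add_assoc]
    change X.d (x a) (x (a + j + 1)) + X.d (x (a + j + 1)) (x (a + j + 2)) ≤
      X.d (x a) (x (a + j + 2)) + (748 + 20 * ω)
    omega

theorem WC.bwd (h : TF X E) {x u : ℕ → G} {M ω ℓ : ℕ} (w : WC X x u M ω ℓ)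
    (hℓ : 752 + 20 * ω ≤ ℓ) (j : ℕ) : ∀ k, k + 1 + j ≤ M →
    X.d (x k) (x (k + 1)) + X.d (x (k + 1)) (x (k + 1 + j)) ≤
      X.d (x k) (x (k + 1 + j)) + (748 + 20 * ω) := by
  induction j with
  | zero => simp
  | succ j ih =>
    intro k hk
    have h1 := h.fp.L1 (w.corner h (i := k) (by omega)) (x (k + 1 + (j + 1)))
    have h2 := ih (k + 1) (by omega)
    rw [show k + 1 + 1 + j = k + 1 + (j + 1) by omega] at h2
    have := w.len (k + 1) (by omega)
    have := X.comm (x (k + 1 + (j + 1))) (x (k + 1))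
    have := X.comm (x (k + 1 + (j + 1))) (x (k + 2))
    change X.d (x (k + 1)) (x (k + 2)) + X.d (x (k + 2)) _ ≤ _ at h2
    change _ ≤ X.d (x (k + 1)) (x (k + 2)) at *
    omega

theorem WC.btw (h : TF X E) {x u : ℕ → G} {M ω ℓ : ℕ} (w : WC X x u M ω ℓ)
    (hℓ : 752 + 20 * ω ≤ ℓ) {a i b : ℕ} (h1 : a ≤ i) (h2 : i ≤ b) (h3 : b ≤ M) :
    X.d (x a) (x i) + X.d (x i) (x b) ≤ X.d (x a) (x b) + (750 + 20 * ω) := by
  rcases Nat.eq_or_lt_of_le h1 with rfl | h1
  · simp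
  obtain ⟨j, rfl⟩ : ∃ j, i = a + j + 1 := ⟨i - a - 1, by omega⟩
  obtain ⟨l, rfl⟩ : ∃ l, b = a + j + 1 + l := ⟨b - (a + j + 1), by omega⟩
  have e1 := w.fwd h hℓ a j (by omega)
  have e2 := w.bwd h hℓ l (a + j) h3
  have e3 := h.fp.L1 e2 (x a)
  have := w.len (a + j) (by omega)
  have := X.comm (x (a + j + 1)) (x a)
  have := X.comm (x (a + j)) (x a)
  omega

theorem WC.long (h : TF X E) {x u : ℕ → G} {M ω ℓ l : ℕ} (w : WC X x u M ω ℓ)
    (hℓ : 752 + 20 * ω ≤ ℓ) (hl : l + (748 + 20 * ω) ≤ ℓ) (a j : ℕ) (hj : a + j ≤ M) :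
    j * l ≤ X.d (x a) (x (a + j)) := by
  induction j with
  | zero => simp
  | succ j ih =>
    have := ih (by omega)
    have := w.fwd h hℓ a j (by omega)
    have := w.len (a + j) (by omega)
    rw [← add_assoc, Nat.succ_mul]
    omega

/-! tame points -/

theorem Tame.mono {u z : G} {k k' : ℕ} (h : Tame X u z k) (hk : k ≤ k') : Tame X u z k' := fun n => by
  have := h n
  have h1 : (k : ℝ) ≤ k' := by exact_mod_cast hk
  linarith

theorem Tame.zpow {u z : G} {k : ℕ} (h : Tame X u z k) (j : ℤ) :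
    (X.d z (u ^ j * z) : ℝ) ≤ |(j : ℝ)| * X.τ u + k := by
  obtain ⟨n, rfl | rfl⟩ := Int.eq_nat_or_neg j
  · simpa using h n
  · rw [zpow_neg, Nm.d_inv_self]; simpa using h n

theorem Tame.conj {u z : G} {k : ℕ} (h : Tame X u z k) (g : G) : Tame X (g * u * g⁻¹) (g * z) k := by
  intro n
  rw [conj_pow, X.tau_conj, Nm.d_conj]
  simpa using h n

theorem tau_le_zpow (X : Nm G) (u z : G) (j : ℤ) : |(j : ℝ)| * X.τ u ≤ X.d z (u ^ j * z) := by
  rw [← X.tau_zpow]; exact X.tau_le_one _ _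

theorem exists_tame (h : X.FP 2) {u : G} (hu : 0 < X.τ u) : ∃ x, Tame X u x 16 := by
  obtain ⟨N, x, -, hd⟩ := h.exists_deep hu
  refine ⟨x, fun i => ?_⟩
  have := h.deep_disp hd ((Commute.refl u).pow_pow i N)
  rw [X.tau_pow] at this
  simpa using this

theorem tame_of_corner (h : X.FP 2) {u z : G} {c : ℕ}
    (hb : 2 * X.d z (u * z) ≤ X.d z (u ^ 2 * z) + c) (hs : c + 4 < X.d z (u * z)) :
    Tame X u z (c + 12) := by
  intro i
  have := h.deep_disp (h.deep_of_chain hb hs) ((Commute.refl u).pow_left i)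
  rw [X.tau_pow] at this
  convert this using 2

theorem Tame.btw {u z : G} {k : ℕ} (h : Tame X u z k) {a b c : ℤ} (h1 : a ≤ b) (h2 : b ≤ c) :
    X.d (u ^ a * z) (u ^ b * z) + X.d (u ^ b * z) (u ^ c * z) ≤ X.d (u ^ a * z) (u ^ c * z) + 2 * k := by
  have e : ∀ a b : ℤ, X.d (u ^ a * z) (u ^ b * z) = X.d z (u ^ (b - a) * z) := by
    intro a b
    rw [← X.d_mul (u ^ a) z]; congr 1; group
  rw [e, e, e]
  have a1 := h.zpow (b - a)
  have a2 := h.zpow (c - b)
  have a3 := tau_le_zpow X u z (c - a)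
  rw [abs_of_nonneg (by exact_mod_cast sub_nonneg.2 h1)] at a1
  rw [abs_of_nonneg (by exact_mod_cast sub_nonneg.2 h2)] at a2
  rw [abs_of_nonneg (by exact_mod_cast sub_nonneg.2 (h1.trans h2))] at a3
  have : (X.d z (u ^ (b - a) * z) : ℝ) + X.d z (u ^ (c - b) * z) ≤ X.d z (u ^ (c - a) * z) + 2 * k := by
    push_cast at a1 a2 a3; linarith
  exact_mod_cast this

/-- every segment of the orbit of a tame point lies along the orbit of any other point -/
theorem Tame.axis (hX : X.FP 2) {u z : G} {k : ℕ} (h : Tame X u z k) (hu : 0 < X.τ u) (z' : G)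
    (a b : ℤ) : ∃ a' b' : ℤ, On X (u ^ a' * z') (u ^ b' * z') (u ^ a * z) (u ^ b * z) (6 * k + 6) := by
  wlog hab : a ≤ b generalizing a b
  · obtain ⟨a', b', h1⟩ := this b a (by omega)
    exact ⟨b', a', h1.symm⟩
  obtain ⟨n, hn⟩ := exists_nat_gt (((2 * X.d z z' + 4 * k + 10 : ℕ) : ℝ) / X.τ u)
  rw [div_lt_iff₀ hu] at hn
  have far : ∀ a b : ℤ, a + n ≤ b → 2 * X.d z z' + 4 * k + 10 ≤ X.d (u ^ a * z) (u ^ b * z) := by
    intro a b hab
    have e : X.d (u ^ a * z) (u ^ b * z) = X.d z (u ^ (b - a) * z) := by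
      rw [← X.d_mul (u ^ a) z]; congr 1; group
    have a3 := tau_le_zpow X u z (b - a)
    have h1 : (n : ℝ) ≤ |((b - a : ℤ) : ℝ)| := by
      rw [abs_of_nonneg (by exact_mod_cast (by omega))]; exact_mod_cast (by omega)
    have : ((2 * X.d z z' + 4 * k + 10 : ℕ) : ℝ) ≤ X.d z (u ^ (b - a) * z) := by nlinarith
    rw [e]; exact_mod_cast this
  refine ⟨a - n, b + n, ?_⟩
  have b1 := h.btw (show a - n ≤ a by omega) hab
  have b2 := h.btw (show a - n ≤ b by omega) (show b ≤ b + n by omega)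
  have f1 := far (a - n) a (by omega)
  have f2 := far (a - n) b (by omega)
  have f3 := far b (b + n) le_rfl
  have m1 := hX.moveL (p' := u ^ (a - n) * z') b1 (by rw [Nm.d_mul]; omega)
  have m2 := hX.moveL (p' := u ^ (a - n) * z') b2 (by rw [Nm.d_mul]; omega)
  have m3 := hX.moveR (q' := u ^ (b + n) * z') m2 (by rw [Nm.d_mul]; omega)
  unfold On; omega

theorem tame_of_pow (hX : X.FP 2) {u : G} (z : G) {n₀ : ℕ} (h : 37 ≤ n₀ * X.τ u) :
    Tame X u z (X.d z (u ^ n₀ * z) + 52) := by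
  have hu : 0 < X.τ u := by
    rcases (X.tau_nonneg u).eq_or_lt with h1 | h1
    · rw [← h1] at h; norm_num at h
    · exact h1
  obtain ⟨x₀, hx₀⟩ := exists_tame hX hu
  obtain ⟨j, hj⟩ : ∃ j : ℤ, ∀ i : ℤ, X.d z (u ^ j * x₀) ≤ X.d z (u ^ i * x₀) :=
    ⟨_, fun i => Function.argmin_le (fun i : ℤ => X.d z (u ^ i * x₀)) i⟩
  have hx : Tame X u (u ^ j * x₀) 16 := by
    have := hx₀.conj (u ^ j)
    rwa [show u ^ j * u * (u ^ j)⁻¹ = u by group] at this
  have hm : ∀ i : ℤ, X.d z (u ^ j * x₀) ≤ X.d z (u ^ i * (u ^ j * x₀)) := fun i => by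
    rw [← mul_assoc, ← zpow_add]; exact hj _
  generalize u ^ j * x₀ = x at *
  have b := hx.btw (show -(n₀ : ℤ) ≤ 0 by omega) (show (0 : ℤ) ≤ n₀ by omega)
  have m1 := hm n₀
  have m2 := hm (-n₀)
  simp only [zpow_neg, zpow_natCast, zpow_zero, one_mul] at b m1 m2
  have l : 37 ≤ X.d x (u ^ n₀ * x) := by exact_mod_cast h.trans (X.tau_le u x n₀)
  generalize u ^ n₀ = w at *
  have l1 := hX.L1 b z
  have f := hX z (w * x) (w * z) x
  have e1 : X.d (w * z) x = X.d z (w⁻¹ * x) := by rw [Nm.d_inv_right]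
  have e2 : X.d (w⁻¹ * x) x = X.d x (w * x) := by rw [Nm.d_inv_left]
  have := X.comm (w * x) x
  have := X.comm x z
  have := X.comm (w⁻¹ * x) z
  simp only [Nm.d_mul] at *
  have key : 2 * X.d z x ≤ X.d z (w * z) + 36 := by omega
  intro n
  have a1 := hx n
  have t1 := X.tri z x (u ^ n * z)
  have t2 := X.tri x (u ^ n * x) (u ^ n * z)
  rw [Nm.d_mul] at t2
  have : (X.d z (u ^ n * z) : ℝ) ≤ X.d x (u ^ n * x) + (X.d z (w * z) + 36) := by
    exact_mod_cast (by omega)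
  push_cast at a1 ⊢; linarith

end Pool.Agent.MP_5c28a4_al.H89
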