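import Pool.Agent.MP_5c28a4_al.H89.Lift

set_option autoImplicit false

namespace Pool.Agent.MP_5c28a4_al.H89

open Pool.Agent.Burnside6

variable {G : Type} [Group G] {E : ℕ}

namespace Kill

variable {c : Fam G E} (κ : Kill c)

theorem tau_le_of_D {g x : G} {B : ℕ} (hB : B ≤ 5200172)
    (hs : ∀ (m : ℕ) v, c.In v → (c.s v x (g ^ m * x)).natAbs + 5032001 * E ≤ c.N v)
    (h : ∀ (m : ℕ) v, c.In v → c.D v x (g ^ m * x) ≤ B) :
    c.X.τ g ≤ 6000000 * κ.Q.τ (g : G ⧸ κ.K) := by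
  have iso : ∀ m : ℕ, c.H.d x (g ^ m * x) ≤ κ.Q.d x ((g : G ⧸ κ.K) ^ m * x) := fun m =>
    κ.iso (hs m)
  have : c.X.τ g / 6000000 ≤ κ.Q.τ (g : G ⧸ κ.K) := by
    apply κ.Q.le_tau x (c := 0)
    intro m
    have h1 := Fam.qi (B := 5200172) (fun v hv => (h m v hv).trans hB)
    have h2 := c.X.tau_le g x m
    have h3 := iso m
    have h4 : (c.X.d x (g ^ m * x) : ℝ) ≤ 6000000 * κ.Q.d x ((g : G ⧸ κ.K) ^ m * x) := by
      exact_mod_cast (by omega)
    linarith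
  linarith

theorem coreB {g x : G} {k : ℕ} (hk : k ≤ 100000) (hg : ∀ v, c.In v → ¬ Commute g v)
    (hτ : 0 < c.X.τ g)
    (hx : ∀ i j : ℕ, c.X.d x (g ^ i * x) + c.X.d x (g ^ j * x) ≤ c.X.d x (g ^ (i + j) * x) + k)
    (hs : ∀ (m : ℕ) v, c.In v → (c.s v x (g ^ m * x)).natAbs + 5032001 * E ≤ c.N v) :
    min (c.X.τ g) 1 ≤ 6000000 * κ.Q.τ (g : G ⧸ κ.K) := by
  have iso : ∀ m : ℕ, c.H.d x (g ^ m * x) ≤ κ.Q.d x ((g : G ⧸ κ.K) ^ m * x) := fun m =>
    κ.iso (hs m)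
  by_cases h : ∀ (m : ℕ) v, c.In v → c.D v x (g ^ m * x) ≤ 5200172
  · exact (min_le_left _ _).trans (κ.tau_le_of_D le_rfl hs h)
  push Not at h
  obtain ⟨m₀, v, hv, hD⟩ := h
  have : (1 : ℝ) ≤ κ.Q.τ (g : G ⧸ κ.K) := by
    apply κ.Q.le_tau x (c := m₀)
    intro m
    have h1 := Fam.count (c := c) (x := x) (y := g ^ m * x) (Finset.range (m - m₀))
      (fun i => g ^ i * v * (g ^ i)⁻¹) (by
        have key : ∀ i l : ℕ, g ^ i * v * (g ^ i)⁻¹ = g ^ (i + l) * v * (g ^ (i + l))⁻¹ → l = 0 := by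
          intro i l h
          have h2 : Commute (g ^ l) v := by
            rw [← conj_eq_iff]
            calc _ = (g ^ (i + l))⁻¹ * (g ^ i * v * (g ^ i)⁻¹) * g ^ (i + l) := by group
              _ = v := by rw [h]; group
          by_contra hl
          refine hg v hv (c.st.csaa (g ^ l) g v (fun h => hl ?_) ((Commute.refl g).pow_right l) h2.symm)
          have := c.X.zpow_eq_one_of_tau (g := g) (by linarith) (m := l) (by simpa using h)
          omega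
        intro i _ j _ hij
        rcases le_total i j with h | h
        · obtain ⟨l, rfl⟩ := Nat.exists_eq_add_of_le h
          rw [key i l hij]; rfl
        · obtain ⟨l, rfl⟩ := Nat.exists_eq_add_of_le h
          rw [key j l hij.symm]; rfl) (by
        intro i hi
        rw [Finset.mem_range] at hi
        obtain ⟨l, rfl⟩ : ∃ l, m = i + (m₀ + l) := ⟨m - i - m₀, by omega⟩
        refine ⟨hv.conj _, ?_⟩
        have e1 : c.D (g ^ i * v * (g ^ i)⁻¹) (g ^ i * x) (g ^ (i + m₀) * x) = c.D v x (g ^ m₀ * x) := by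
          rw [pow_add, mul_assoc (g ^ i) (g ^ m₀), Fam.D_mul]; simp [mul_assoc]
        have := (hv.conj (g ^ i)).mono (a := x) (b := g ^ (i + (m₀ + l)) * x) (x := g ^ i * x)
          (y := g ^ (i + m₀) * x) (k := 2 * k) (by omega) (by
            rw [Nm.orbit_d, ← add_assoc, Nm.orbit_d, add_assoc i m₀ l]
            have := hx i (m₀ + l)
            have := hx m₀ l
            omega)
        omega)
    rw [Finset.card_range] at h1
    have h3 := iso m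
    have h4 : m ≤ κ.Q.d x ((g : G ⧸ κ.K) ^ m * x) + m₀ := by omega
    rw [one_mul]
    exact_mod_cast h4
  exact (min_le_right _ _).trans (by linarith)

theorem coreA {g : G} (hc : ∀ v, c.In v → ¬ Commute g v) (h1 : g ≠ 1)
    (hs : ∀ z v, c.In v → (c.X.d z (g * z) : ℝ) ≤ c.X.τ g + 190 →
      (c.s v z (g * z)).natAbs + 5100000 * E ≤ c.N v) :
    min (c.X.τ g) 1 ≤ 6000000 * κ.Q.τ (g : G ⧸ κ.K) := by
  have hτ := c.st.pos h1
  obtain ⟨N, x, -, hd⟩ := c.fp.exists_deep (u := g) (by linarith)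
  have up : ∀ i : ℕ, (c.X.d x (g ^ i * x) : ℝ) ≤ i * c.X.τ g + 16 := by
    intro i
    have := c.fp.deep_disp hd ((Commute.refl g).pow_pow i N)
    rw [c.X.tau_pow] at this
    simpa using this
  have hx : ∀ i j : ℕ, c.X.d x (g ^ i * x) + c.X.d x (g ^ j * x) ≤ c.X.d x (g ^ (i + j) * x) + 32 := by
    intro i j
    have h1 := up i
    have h2 := up j
    have h3 := c.X.tau_le g x (i + j)
    have : (c.X.d x (g ^ i * x) : ℝ) + c.X.d x (g ^ j * x) ≤ c.X.d x (g ^ (i + j) * x) + 32 := by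
      push_cast at h3; linarith
    exact_mod_cast this
  refine κ.coreB (k := 32) (by norm_num) hc hτ hx (fun m v hv => ?_)
  have hN := c.hN v hv
  by_cases hD : c.D v x (g ^ m * x) ≤ 86
  · have := hv.s_le hD; omega
  obtain ⟨b1, b2⟩ := hv.btw (not_le.1 hD)
  have pb := hv.Pb (not_le.1 hD)
  have e1 : c.X.d (g ^ m * x) (g * (g ^ m * x)) ≤ c.X.d x (g * x) := by
    rw [Nm.d_commute ((Commute.refl g).pow_right m)]
  have d1 := c.fp.disp b1 le_rfl e1
  have d2 := c.fp.disp b2 le_rfl e1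
  have y1 := hv.π_Y x
  have y2 := hv.π_Y (g ^ m * x)
  have s1 := hs (c.π v x) v hv (by
    have := up 1
    have h2 : (c.X.d (c.π v x) (g * c.π v x) : ℝ) ≤ c.X.d x (g * x) + 174 := by exact_mod_cast d1
    simp only [pow_one, Nat.cast_one, one_mul] at this
    linarith)
  have s2 := hv.s_le (hv.diam (Fam.Y_conj'.2 y1) (Fam.Y_conj'.2 y2)
    (fun h => hc v hv (mul_inv_eq_iff_eq_mul.1 h.symm)) (y := g * c.π v x) (y' := g * c.π v (g ^ m * x)))
  have s3 := hv.s_add (c.π v x) (g * c.π v x) (g * c.π v (g ^ m * x))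
  have s4 := hv.cmp (x := x) (y := g ^ m * x) (x' := c.π v x) (y' := g * c.π v (g ^ m * x)) (k := 378) (by
    have h1 := hx m 1
    have h2 := c.X.tri x (g * c.π v (g ^ m * x)) (g ^ (m + 1) * x)
    have h3 : c.X.d (g * c.π v (g ^ m * x)) (g ^ (m + 1) * x) = c.X.d (g ^ m * x) (c.π v (g ^ m * x)) := by
      rw [pow_succ', mul_assoc, Nm.d_mul, c.X.comm]
    have h4 := c.X.tri x (c.π v x) (g * c.π v (g ^ m * x))
    have h5 := y2.π_le (g * c.π v (g ^ m * x))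
    have h6 := c.X.tri'' (c.π v x) (c.π v (g * c.π v (g ^ m * x))) (g * c.π v (g ^ m * x))
    have h7 := c.X.comm (c.π v (g ^ m * x)) (g * c.π v (g ^ m * x))
    rw [pow_one] at h1
    unfold Fam.D at *
    rw [y1.π_eq]
    omega)
  omega

theorem classify (q : G ⧸ κ.K) (hq : q ≠ 1) :
    ∃ g : G, (g : G ⧸ κ.K) = q ∧ g ≠ 1 ∧ min (c.X.τ g) 1 ≤ 6000000 * κ.Q.τ q := by
  obtain ⟨g₀, rfl⟩ := QuotientGroup.mk_surjective q
  let S : Set (G × G) := {t | (t.1 : G ⧸ κ.K) = g₀}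
  have hS : S.Nonempty := ⟨(g₀, 1), rfl⟩
  obtain ⟨g, x, h1, h2⟩ : ∃ g x : G, (g : G ⧸ κ.K) = g₀ ∧ ∀ g' z : G, (g' : G ⧸ κ.K) = g₀ →
      c.X.d x (g * x) ≤ c.X.d z (g' * z) :=
    ⟨_, (Function.argminOn (fun t : G × G => c.X.d t.2 (t.1 * t.2)) S hS).2,
      Function.argminOn_mem (fun t : G × G => c.X.d t.2 (t.1 * t.2)) S hS, fun g' z h =>
      Function.argminOn_le (fun t : G × G => c.X.d t.2 (t.1 * t.2)) S (a := (g', z)) h⟩
  have g1 : g ≠ 1 := by rintro rfl; exact hq h1.symm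
  refine ⟨g, h1, g1, ?_⟩
  rw [← h1]
  refine κ.coreA (fun v hv hc => hq ?_) g1 (fun z v hv hz => ?_)
  · obtain ⟨j, rfl⟩ := hv.cent hc
    rw [← h1, QuotientGroup.eq_one_iff]
    exact zpow_mem (κ.hK v hv) j
  have := c.hN v hv
  by_contra hc
  obtain ⟨r, r1, -, r3⟩ := κ.short (x := z) (y := g * z) hv (k := 191) (by norm_num) (by omega)
  have h3 := h2 (r * g) z (by rw [κ.mk_K r1, h1])
  rw [mul_assoc] at h3
  have h4 := c.X.tau_le_one g x
  have : (c.X.d z (g * z) : ℝ) ≤ c.X.d x (g * x) + 190 := by linarith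
  have : c.X.d z (g * z) ≤ c.X.d x (g * x) + 190 := by exact_mod_cast this
  omega

theorem Q_pos (q : G ⧸ κ.K) : q ^ 1 = 1 ∨ 0 < κ.Q.τ q := by
  by_cases hq : q = 1
  · simp [hq]
  obtain ⟨g, -, g1, h⟩ := κ.classify q hq
  have := lt_min (c.st.pos g1) one_pos
  right; linarith

theorem Q_csaa : CSAa (G ⧸ κ.K) := by
  intro g a b h1 ha hb
  rcases κ.Q_pos g with h | h
  · exact absurd (by simpa using h) h1
  · exact κ.Q_fp.csa_lox_a odd_one κ.Q_pos (fun e _ h1 h => absurd (by simpa using h) h1) κ.Q_h4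
      (by norm_num) h ha hb

theorem Q_csab : CSAb (G ⧸ κ.K) := by
  intro g x hx
  rcases κ.Q_pos g with h | h
  · rw [pow_one] at h; simp [h]
  · exact κ.Q_fp.csa_lox_b odd_one κ.Q_pos (fun e _ h1 h => absurd (by simpa using h) h1) h h
      (Commute.refl g) hx hx

theorem Q_h4p (L : ℕ) : κ.Q.H4 L (1430000 + 10 * L) :=
  (κ.Q_fp.h4plus κ.Q_h4 (by norm_num) κ.Q_csaa κ.Q_csab L).mono le_rfl (by omega)

theorem stage {R : ℕ} (hR0 : 0 < R) (hR : 1000000 ≤ R) (hE : 0 < c.E₀) :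
    TF (κ.Q.scale R hR0) (c.E₀ * (6000000 * R)) := by
  refine ⟨κ.Q_fp.scale hR0 (by omega), fun q hq => ?_, κ.Q_csaa, κ.Q_csab, ?_⟩
  · obtain ⟨g, -, g1, h⟩ := κ.classify q hq
    rw [← κ.Q.tau_scale R hR0] at h
    have h1 := c.st.h2 g g1
    have h2 : (1 : ℝ) ≤ c.E₀ := by exact_mod_cast hE
    have h3 : 1 ≤ c.E₀ * min (c.X.τ g) 1 := by
      rw [mul_min_of_nonneg _ _ (by linarith)]; exact le_min h1 (by linarith)
    have := mul_le_mul_of_nonneg_left h (show (0 : ℝ) ≤ c.E₀ by linarith)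
    push_cast; linarith
  · intro u₁ u₂ p q h1 h2 h3 h4 h5
    rw [Nm.scale_d_le] at h1 h2 h3 h4
    refine κ.Q_h4p _ u₁ u₂ p q h1 h2 h3 h4 ?_
    have := (κ.Q.scale_d_le R hR0 p q 309).not.1 (by omega)
    omega

theorem Q_le_X (x y : G) : κ.Q.d (x : G ⧸ κ.K) y ≤ c.X.d x y := (κ.Q_le x y).trans (c.H_le x y)

theorem Q_tau_le (g : G) : κ.Q.τ (g : G ⧸ κ.K) ≤ c.X.τ g := by
  apply c.X.le_tau 1 (c := 0)
  intro k
  have h1 := κ.Q.tau_le (g : G ⧸ κ.K) ((1 : G) : G ⧸ κ.K) k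
  have h2 := κ.Q_le_X 1 (g ^ k * 1)
  have h3 : (κ.Q.d ((1 : G) : G ⧸ κ.K) ((g : G ⧸ κ.K) ^ k * ((1 : G) : G ⧸ κ.K)) : ℝ) ≤
      c.X.d 1 (g ^ k * 1) := by exact_mod_cast h2
  linarith

/-- elements of moderate displacement keep their stable length -/
theorem gen {g z : G} {L : ℕ} (h1 : g ≠ 1) (hz : c.X.d z (g * z) ≤ L)
    (hL : ∀ v, c.In v → (L + 6000000) * E ≤ c.N v) :
    min (c.X.τ g) 1 ≤ 6000000 * κ.Q.τ (g : G ⧸ κ.K) := by
  refine κ.coreA (fun v hv => hv.not_comm h1 hz ?_) h1 (fun y v hv hy => ?_)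
  · have := hL v hv
    have := hv.E_pos
    rw [Nat.add_mul] at *; omega
  · have h2 := c.X.tau_le_one g z
    have h3 : (c.X.d z (g * z) : ℝ) ≤ L := by exact_mod_cast hz
    have h4 : (c.X.d y (g * y) : ℝ) ≤ (L + 190 : ℕ) := by push_cast; linarith
    have h5 : c.X.d y (g * y) ≤ L + 190 := by exact_mod_cast h4
    have := hv.s_le (k := L + 400) ((hv.lip y (g * y)).trans (by omega))
    have := hL v hv
    rw [Nat.add_mul] at *; omega

theorem mk_conj {k : G} (hk : k ∈ κ.K) (e : G) : ((k * e * k⁻¹ : G) : G ⧸ κ.K) = e := by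
  rw [mul_assoc, κ.mk_K hk, QuotientGroup.mk_mul, (QuotientGroup.eq_one_iff _).2 (inv_mem hk), mul_one]

end Kill

end Pool.Agent.MP_5c28a4_al.H89
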