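import Pool.Agent.Burnside6.Comm

set_option autoImplicit false

namespace Pool.Agent.MP_5c28a4_al.H89

open Pool.Agent.Burnside6

variable {G : Type} [Group G]

/-- torsion free stage -/
structure TF (X : Nm G) (E : ℕ) : Prop where
  fp : X.FP 2
  h2 : ∀ g : G, g ≠ 1 → 1 ≤ E * X.τ g
  csaa : CSAa G
  csab : CSAb G
  h4 : X.H4 30 310

/-- the segment from `m` to `m'` lies along the segment from `a` to `b` -/
def On (X : Nm G) (a b m m' : G) (c : ℕ) : Prop := X.d a m + X.d m m' + X.d m' b ≤ X.d a b + c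

/-- cross ratio at least `β` -/
def Cr (X : Nm G) (a b a' b' : G) (β : ℕ) : Prop :=
  X.d a a' + X.d b b' + β ≤ X.d a b + X.d a' b'

/-- overlap of the orbits `S z` and `t S' z'` -/
def Ov (X : Nm G) (β : ℕ) (S : Subgroup G) (z t : G) (S' : Subgroup G) (z' : G) : Prop :=
  ∃ a ∈ S, ∃ b ∈ S, ∃ a' ∈ S', ∃ b' ∈ S', Cr X (a * z) (b * z) (t * a' * z') (t * b' * z') β

/-- geometric malnormality -/
def Mal (X : Nm G) (β : ℕ) (S : Subgroup G) (z : G) : Prop := ∀ t, Ov X β S z t S z → t ∈ S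

/-- the point `z` is close to the axis of `u` -/
def Tame (X : Nm G) (u z : G) (k : ℕ) : Prop :=
  ∀ n : ℕ, (X.d z (u ^ n * z) : ℝ) ≤ n * X.τ u + k

/-- witnessed chain -/
structure WC (X : Nm G) (x u : ℕ → G) (M ω ℓ : ℕ) : Prop where
  ne : ∀ i, i < M → u i ≠ 1
  w1 : ∀ i, i < M → X.d (x i) (u i * x i) ≤ ω
  w2 : ∀ i, i < M → X.d (x (i + 1)) (u i * x (i + 1)) ≤ ω
  len : ∀ i, i < M → ℓ ≤ X.d (x i) (x (i + 1))
  nc : ∀ i, i + 1 < M → ¬ Commute (u i) (u (i + 1))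

/-- ordered product of the first terms -/
def prd (f : ℕ → G) : ℕ → G
  | 0 => 1
  | i + 1 => prd f i * f i

/-- value of a block -/
def bval (U : G) (b : G × ℤ × G) : G := b.1 * U ^ b.2.1 * b.2.2

/-- inverse block -/
def binv (b : G × ℤ × G) : G × ℤ × G := (b.2.2⁻¹, -b.2.1, b.1⁻¹)

/-- a system of letters, each a product of `p` blocks with period `U` -/
structure Sys (G : Type) where
  Λ : Type
  U : G
  p : ℕ
  blk : Λ → ℕ → G × ℤ × G
  ok : Λ → Λ → Prop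

namespace Sys

variable (T : Sys G)

def val (l : T.Λ) : G := prd (fun s => bval T.U (T.blk l s)) T.p

def Q (l : T.Λ) (s : ℕ) : G := prd (fun s => bval T.U (T.blk l s)) s * (T.blk l s).1

def J (l : T.Λ) (s : ℕ) : G := (T.blk l s).2.2 * (T.blk l (s + 1)).1

def ex (l : T.Λ) (s : ℕ) : ℤ := (T.blk l s).2.1

/-- the subgroup `S` consists of the values of admissible words -/
def Gen (S : Subgroup G) : Prop :=
  (∀ l, T.val l ∈ S) ∧ ∀ η ∈ S, ∃ (n : ℕ) (w : ℕ → T.Λ),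
    (∀ t, t + 1 < n → T.ok (w t) (w (t + 1))) ∧ η = prd (fun t => T.val (w t)) n

/-- the block structure is visible at the base point `z` -/
structure Vis (X : Nm G) (z : G) (ω ℓ : ℕ) : Prop where
  p_ge : 60 ≤ T.p
  ne : T.U ≠ 1
  dU : X.d z (T.U * z) ≤ ω
  dl : ∀ l s, s < T.p → X.d z ((T.blk l s).1 * z) ≤ ω
  dr : ∀ l s, s < T.p → X.d z ((T.blk l s).2.2 * z) ≤ ω
  len : ∀ l s, s < T.p → ((ℓ + 2 * ω : ℕ) : ℝ) ≤ |(T.ex l s : ℝ)| * X.τ T.U
  nc : ∀ l s, s + 1 < T.p → ¬ Commute (T.J l s) T.U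
  nc' : ∀ l l', T.ok l l' → ¬ Commute ((T.blk l (T.p - 1)).2.2 * (T.blk l' 0).1) T.U

/-- upper bound for the blocks -/
def Up (X : Nm G) (z : G) (ℓ' : ℕ) : Prop :=
  ∀ l s, s < T.p → X.d z (bval T.U (T.blk l s) * z) ≤ ℓ'

end Sys

/-- an invariant family of lines, one for every relator -/
structure Fam (G : Type) [Group G] (E : ℕ) where
  X : Nm G
  E₀ : ℕ
  st : TF X E₀
  In : G → Prop
  Y : G → G → Prop
  ι : G → G → ℤ
  N : G → ℕ
  θ : G → ℝ
  Y_In : ∀ v y, Y v y → In v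
  ex : ∀ v, In v → ∃ y, Y v y
  Y_conj : ∀ v g y, Y v y → Y (g * v * g⁻¹) (g * y)
  ι_conj : ∀ v g y y', Y v y → Y v y' →
    ι (g * v * g⁻¹) (g * y') - ι (g * v * g⁻¹) (g * y) = ι v y' - ι v y
  shift : ∀ v y, Y v y → ι v (v * y) = ι v y + N v
  N_conj : ∀ v g, In v → N (g * v * g⁻¹) = N v
  lo : ∀ v y y', Y v y → Y v y' → ((ι v y' - ι v y).natAbs : ℝ) * θ v ≤ X.d y y' + 1
  hi : ∀ v y y', Y v y → Y v y' → (X.d y y' : ℝ) ≤ (ι v y' - ι v y).natAbs * θ v + 16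
  lox : ∀ v, In v → 2 ≤ E * θ v
  mid : ∀ v y y', Y v y → Y v y' → 35 ≤ X.d y y' → ∃ m, Y v m ∧ 35 ≤ X.d y m ∧ X.d y m ≤ 51 ∧
    X.d y m + X.d m y' ≤ X.d y y' + 32
  cent : ∀ v a, In v → Commute a v → a ∈ Subgroup.zpowers v
  small : ∀ v w p p' y y', v ≠ w → Y v p → Y v p' → Y w y → Y w y' → ¬ Cr X y y' p p' 3001
  hN : ∀ v, In v → 100000000000000 * E ≤ N v

/-! constants -/

def cE0 : ℕ := 6000000000000
def cP : ℕ := 60000000000000000000000
def cR : ℕ := 1000000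
def cE : ℕ := 360000000000000000000000000000000000
def cB1 : ℕ := 10000000000000000
def cB2 : ℕ := cE * cB1
def cB3 : ℕ := cE * cB2
def cT : ℕ := 240000000
def cβ1 : ℕ := 1000000000000000
def cβK : ℕ := 2003 * cP
def cL : ℕ := 200000 * cP

/-- a sealed copy of a number -/
noncomputable def sealN (n : ℕ) : ℕ := Classical.choose (⟨n, rfl⟩ : ∃ k, k = n)

theorem sealN_eq (n : ℕ) : sealN n = n := Classical.choose_spec (⟨n, rfl⟩ : ∃ k, k = n)

noncomputable section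

def dA : ℕ := sealN (60000000000 * cE0)
def dB : ℕ := sealN (300000000 * dA)
def dC : ℕ := sealN (1000 * cE0 * dA * dB)

theorem dA_eq : dA = 60000000000 * cE0 := sealN_eq _
theorem dB_eq : dB = 300000000 * dA := sealN_eq _
theorem dC_eq : dC = 1000 * cE0 * dA * dB := sealN_eq _

/-! words -/

abbrev F : Type := FreeGroup ℕ

def x0 : F := FreeGroup.of 0
def x1 : F := FreeGroup.of 1

/-- evaluation at the pair `g, h` -/
def ev (g h : G) : F →* G := FreeGroup.lift fun i => if i = 0 then g else h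

@[irreducible] def eW (g h : G) : G := (g ^ dA * h ^ dA) ^ dB * (h * g⁻¹) ^ dC

def Le : ℕ := sealN (FreeGroup.norm (eW x0 x1))

theorem Le_eq : Le = FreeGroup.norm (eW x0 x1) := sealN_eq _

def aE : ℕ := sealN (cL * (Le + 1))

theorem aE_eq : aE = cL * (Le + 1) := sealN_eq _

def cA : ℕ := sealN (37 * cE ^ (aE + 1) + 52)

theorem cA_eq : cA = 37 * cE ^ (aE + 1) + 52 := sealN_eq _

def cN : ℕ := sealN (1000000000000000000000000000000 * cP * (Le + 1))

theorem cN_eq : cN = 1000000000000000000000000000000 * cP * (Le + 1) := sealN_eq _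

def h0 : ℕ := sealN (cE * cN)

theorem h0_eq : h0 = cE * cN := sealN_eq _

def hh : ℕ := sealN (8 * h0 + 4)

theorem hh_eq : hh = 8 * h0 + 4 := sealN_eq _

def bBlk (m : ℕ) (g : G) (l s : ℕ) : G × ℤ × G :=
  (if s = 0 then g ^ (l + 1) else 1, ((m + (60 * l + s + 1) ^ 3 : ℕ) : ℤ),
    if s = 59 then g ^ (l + 1) else g)

@[irreducible] def bW (m : ℕ) (g h : G) (l : ℕ) : G := prd (fun s => bval (eW g h) (bBlk m g l s)) 60

@[irreducible] def θW (m : ℕ) (g h : G) : F →* G := FreeGroup.lift (bW m g h)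

def Fk (k : ℕ) : Subgroup F := Subgroup.closure (FreeGroup.of '' {l | l < k})

def Hs (k m : ℕ) (g h : G) : Subgroup G := (Fk k).map (θW m g h)

def hSys (k m : ℕ) (g h : G) : Sys G where
  Λ := Fin k × Bool
  U := eW g h
  p := 60
  blk l s := if l.2 then bBlk m g l.1 s else binv (bBlk m g l.1 (59 - s))
  ok l l' := l.1 = l'.1 → l.2 = l'.2

/-- data of one law -/
structure Law where
  code : ℕ
  k : ℕ
  m : ℕ
  n : ℕ
  L : ℕ
  a' : ℕ
  v : F

def Law.a (l : Law) : ℕ := l.a' + (37 * cE ^ (l.a' + 1) + 52)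

@[irreducible] def VW (l : Law) (g h : G) : G := θW l.m g h l.v

def pat (g h : G) (i : ℕ) : G :=
  if i % 8 < 2 then g else if i % 8 < 4 then h else if i % 8 < 6 then h⁻¹ else g⁻¹

def tW (g h : G) (k : ℕ) : G :=
  if k < 8 * h0 then pat g h k else if k = 8 * h0 then g else if k = 8 * h0 + 1 then h
  else if k = 8 * h0 + 2 then g⁻¹ else h⁻¹

def rBlk (l : Law) (g h : G) (k : ℕ) : G × ℤ × G :=
  (1, ((l.n + (l.code * hh + k + 1) ^ 2 : ℕ) : ℤ), tW g h k)

@[irreducible] def rW (l : Law) (g h : G) : G := prd (fun k => bval (VW l g h) (rBlk l g h k)) hh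

def rSys (l : Law) (g h : G) : Sys G where
  Λ := Bool
  U := VW l g h
  p := hh
  blk b s := if b then rBlk l g h s else binv (rBlk l g h (hh - 1 - s))
  ok := Eq

/-- normalised base point for a law and a pair -/
structure NB (X : Nm G) (l : Law) (g h z : G) : Prop where
  dg : X.d z (g * z) ≤ 1
  dh : X.d z (h * z) ≤ 1
  dV : X.d z (VW l g h * z) ≤ 1
  tame : Tame X (VW l g h) z cT
  ng : ¬ Commute g (VW l g h)
  nh : ¬ Commute h (VW l g h)

/-- verbal subgroup of the laws with index in `S` -/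
def Verb {ι : Type} (L : ι → Law) (S : Set ι) : Subgroup F :=
  Subgroup.closure {w | ∃ j ∈ S, ∃ g h : F, w = rW (L j) g h}

/-- numerical conditions on one law -/
structure Law.Ok (l : Law) : Prop where
  hk : 0 < l.k
  hn : (l.code * hh + hh) ^ 2 ≤ l.n
  hm : (60 * l.k + 60) ^ 3 ≤ l.m
  hL : cL * (Le + l.k + 1) + aE + cA ≤ l.L
  hm' : (100000 * cP + 40000 + 3002 * l.L) * cE ^ (l.L + 1) ≤ l.m
  ha : l.L ≤ l.a'
  ha' : cL * FreeGroup.norm (VW l x0 x1) ≤ l.a'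
  hn' : cB3 * cE ^ (l.a + 1) < l.n
  hv : l.v ∈ Fk l.k
  hv' : l.v ∈ commutator F

/-- admissible system of laws -/
structure Adm {ι : Type} (L : ι → Law) : Prop where
  inj : Function.Injective fun j => (L j).code
  ok : ∀ j, (L j).Ok
  new : ∀ j, (L j).v ∉ Verb L {j' | (L j').n < (L j).n}

/-- fully invariant subgroup -/
def FI (V : Subgroup F) : Prop := ∀ (σ : F →* F), ∀ w ∈ V, σ w ∈ V

end

end Pool.Agent.MP_5c28a4_al.H89
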