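import Pool.Agent.MP_5c28a4_al.H89.Proj

set_option autoImplicit false

namespace Pool.Agent.MP_5c28a4_al.H89

open Pool.Agent.Burnside6

variable {G : Type} [Group G] {E : ℕ}

namespace Fam

variable (c : Fam G E)

def gens : Set G := {g | c.X.ν g ≤ 1 ∨ ∃ v, c.Y v 1 ∧ c.Y v g}

theorem one_gens : (1 : G) ∈ c.gens := Or.inl (by rw [c.X.one]; omega)

theorem inv_gens : c.gens⁻¹ = c.gens := by
  have key : ∀ g, g ∈ c.gens → g⁻¹ ∈ c.gens := by
    rintro g (h | ⟨v, h1, h2⟩)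
    · exact Or.inl (by rwa [c.X.inv])
    · exact Or.inr ⟨_, by simpa using c.Y_conj v g⁻¹ _ h2, by simpa using c.Y_conj v g⁻¹ _ h1⟩
  ext g
  exact ⟨fun h => by simpa using key _ h, key g⟩

open Pointwise in
theorem gen_gens (g : G) : ∃ k : ℕ, g ∈ c.gens ^ k := by
  suffices H : ∀ k g, c.X.ν g ≤ k → g ∈ c.gens ^ k from ⟨_, H _ g le_rfl⟩
  intro k
  induction k with
  | zero => intro g hg; simp [c.X.eq_one g (by omega)]
  | succ k ih =>
    intro g hg
    obtain ⟨a, b, rfl, ha, hb⟩ := c.X.split g k 1 hg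
    rw [pow_succ]
    exact Set.mul_mem_mul (ih a ha) (Or.inl hb)

/-- the electrified norm -/
noncomputable def H : Nm G := ofGen c.gens c.one_gens c.inv_gens c.gen_gens

variable {c}

theorem H_le_one {x y : G} : c.H.d x y ≤ 1 ↔ c.X.d x y ≤ 1 ∨ ∃ v, c.Y v x ∧ c.Y v y := by
  unfold Nm.d H
  rw [ofGen_le_one]
  apply or_congr Iff.rfl
  constructor
  · rintro ⟨u, h1, h2⟩
    exact ⟨_, by simpa using c.Y_conj u x _ h1, by simpa using c.Y_conj u x _ h2⟩
  · rintro ⟨v, h1, h2⟩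
    exact ⟨_, by simpa using c.Y_conj v x⁻¹ _ h1, c.Y_conj v x⁻¹ _ h2⟩

theorem Y.H_le {v x y : G} (h : c.Y v x) (h' : c.Y v y) : c.H.d x y ≤ 1 :=
  H_le_one.2 (Or.inr ⟨v, h, h'⟩)

theorem H_le (c : Fam G E) (x y : G) : c.H.d x y ≤ c.X.d x y := by
  apply Nm.le_of_one c.X c.H
  intro g hg
  have := (H_le_one (c := c) (x := 1) (y := g)).2 (Or.inl (by rwa [Nm.d_one]))
  rwa [Nm.d_one] at this

theorem In.edge {v x y : G} (hv : c.In v) (h : c.H.d x y ≤ 1) (hD : 4000 < c.D v x y) :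
    c.Y v x ∧ c.Y v y := by
  rcases H_le_one.1 h with h1 | ⟨w, h1, h2⟩
  · have := hv.lip x y; omega
  · by_cases hvw : v = w
    · subst hvw; exact ⟨h1, h2⟩
    · have := hv.diam h1 h2 hvw; omega

theorem bisect {γ : ℕ → G} (hγ : ∀ i, c.H.d (γ i) (γ (i + 1)) ≤ 1) (w : G) (k : ℕ) :
    ∀ i j a, i ≤ j → j ≤ i + 2 ^ k → c.X.d (γ i) w + c.X.d w (γ j) ≤ c.X.d (γ i) (γ j) + a →
      ∃ l, i ≤ l ∧ l ≤ j ∧ c.H.d w (γ l) ≤ a + 2 * k + 86 := by
  induction k with
  | zero =>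
    intro i j a h1 h2 h3
    refine ⟨j, h1, le_rfl, ?_⟩
    have := c.H_le w (γ j)
    rcases Nat.eq_or_lt_of_le h1 with rfl | h4
    · rw [Nm.d_self] at h3; omega
    · obtain rfl : j = i + 1 := by omega
      rcases H_le_one.1 (hγ i) with h5 | ⟨v, h5, h6⟩
      · omega
      · have := h5.near h6 h3
        have := c.H_le w (c.π v w)
        have := (h5.In.π_Y w).H_le h6
        have := c.H.tri w (c.π v w) (γ (i + 1))
        omega
  | succ k ih =>
    intro i j a h1 h2 h3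
    by_cases h4 : j ≤ i + 2 ^ k
    · obtain ⟨l, a1, a2, a3⟩ := ih i j a h1 h4 h3
      exact ⟨l, a1, a2, by omega⟩
    rcases c.fp.L1 h3 (γ (i + 2 ^ k)) with h5 | h5
    · obtain ⟨l, a1, a2, a3⟩ := ih i (i + 2 ^ k) _ (by omega) le_rfl h5
      exact ⟨l, a1, by omega, by omega⟩
    · obtain ⟨l, a1, a2, a3⟩ := ih (i + 2 ^ k) j _ (by omega) (by rw [pow_succ] at h2; omega) h5
      exact ⟨l, by omega, a2, by omega⟩

theorem exists_log {m : ℕ} (hm : 120 < m) : ∃ k, 6 * m ≤ 2 ^ k ∧ 2 * k + 91 < m := by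
  induction m, hm using Nat.le_induction with
  | base => exact ⟨10, by norm_num, by norm_num⟩
  | succ m hm ih =>
    have key : ∀ k, 10 ≤ k → 12 * k + 600 ≤ 2 ^ k := by
      intro k hk
      induction k, hk using Nat.le_induction with
      | base => norm_num
      | succ k _ ih => rw [pow_succ]; omega
    obtain ⟨k, h1, h2⟩ := ih
    by_cases h : 6 * (m + 1) ≤ 2 ^ k
    · exact ⟨k, h, by omega⟩
    · refine ⟨k + 1, by rw [pow_succ]; omega, ?_⟩
      have : 10 ≤ k := by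
        by_contra hc
        have := Nat.pow_le_pow_right (show 0 < 2 by norm_num) (show k ≤ 9 by omega)
        omega
      have := key k this
      omega

theorem exit (c : Fam G E) (w x : G) (M : ℕ) : ∃ a, c.X.d w a + c.X.d a x = c.X.d w x ∧
    c.H.d w a ≤ M ∧ (a = x ∨ c.H.d w a = M) := by
  by_cases h : c.H.d w x ≤ M
  · exact ⟨x, by simp, h, Or.inl rfl⟩
  obtain ⟨δ, d0, dl, dd⟩ := c.X.exists_path _ w x le_rfl
  obtain ⟨t, t1, t2⟩ := Nm.ivt1 (f := fun t => c.H.d w (δ t)) (t := M) (j := c.X.d w x)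
    (fun i => by
      have := c.H.tri w (δ i) (δ (i + 1))
      have := c.H_le (δ i) (δ (i + 1))
      have := dd i
      omega) (by simp [d0]) (by rw [dl]; omega)
  have g1 := c.X.geo_d dd (l := c.X.d w x) (by rw [d0, dl]) (Nat.zero_le t) t1
  have g2 := c.X.geo_d dd (l := c.X.d w x) (by rw [d0, dl]) t1 le_rfl
  rw [d0] at g1
  rw [dl] at g2
  exact ⟨δ t, by omega, t2.le, Or.inr t2⟩

theorem morse {γ : ℕ → G} (hγ : ∀ i, c.H.d (γ i) (γ (i + 1)) ≤ 1) {l : ℕ}
    (hl : c.H.d (γ 0) (γ l) = l) {p q : ℕ} (hpq : p ≤ q) (hq : q ≤ l) (w : G)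
    (hw : c.X.d (γ p) w + c.X.d w (γ q) = c.X.d (γ p) (γ q)) :
    ∃ i, p ≤ i ∧ i ≤ q ∧ c.H.d w (γ i) ≤ 120 := by
  classical
  have ex : ∃ m, ∀ w, c.X.d (γ p) w + c.X.d w (γ q) = c.X.d (γ p) (γ q) →
      ∃ i, p ≤ i ∧ i ≤ q ∧ c.H.d w (γ i) ≤ m :=
    ⟨c.X.d (γ p) (γ q), fun w hw => ⟨q, hpq, le_rfl, by have := c.H_le w (γ q); omega⟩⟩
  have h1 := Nat.find_spec ex
  by_cases hm : Nat.find ex ≤ 120
  · obtain ⟨i, a, b, d⟩ := h1 w hw
    exact ⟨i, a, b, by omega⟩
  exfalso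
  have h2 := Nat.find_min ex (show Nat.find ex - 1 < Nat.find ex by omega)
  generalize Nat.find ex = m at *
  push Not at h2
  clear hw
  obtain ⟨w, hw, h2⟩ := h2
  obtain ⟨k, k1, k2⟩ := exists_log (not_le.1 hm)
  have side : ∀ a i, p ≤ i → i ≤ q → c.H.d a (γ i) ≤ m → (a = γ i ∨ c.H.d w a = 2 * m) →
      c.X.d a w + c.X.d w (γ i) ≤ c.X.d a (γ i) + 4 → False := by
    intro a i i1 i2 h3 h4 h5
    rcases h4 with rfl | h4
    · have := h2 i i1 i2
      have := c.H_le w (γ i)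
      rw [Nm.d_self] at h5; omega
    · obtain ⟨δ, d0, dl, dd⟩ := c.H.exists_path _ a (γ i) h3
      obtain ⟨t, -, t2, t3⟩ := bisect dd w k 0 m 4 (Nat.zero_le _) (by omega) (by rwa [d0, dl])
      have := c.H.path_d' dd (Nat.zero_le t)
      rw [d0] at this
      have := c.H.tri'' w (δ t) a
      omega
  have pick : ∀ x e, p ≤ e → e ≤ q → x = γ e → ∀ a,
      c.X.d (γ p) a + c.X.d a (γ q) = c.X.d (γ p) (γ q) → (a = x ∨ c.H.d w a = 2 * m) →
      ∃ i, p ≤ i ∧ i ≤ q ∧ c.H.d a (γ i) ≤ m ∧ (a = γ i ∨ c.H.d w a = 2 * m) := by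
    intro x e e1 e2 e3 a ha h3
    rcases h3 with h3 | h3
    · exact ⟨e, e1, e2, by simp [h3, e3], Or.inl (h3.trans e3)⟩
    · obtain ⟨i, i1, i2, i3⟩ := h1 a ha
      exact ⟨i, i1, i2, i3, Or.inr h3⟩
  obtain ⟨a, a1, a2, a3⟩ := c.exit w (γ p) (2 * m)
  obtain ⟨b, b1, b2, b3⟩ := c.exit w (γ q) (2 * m)
  have := c.X.comm w (γ p)
  have := c.X.comm a (γ p)
  have := c.X.comm a w
  have := c.X.tri a w (γ q)
  have := c.X.tri (γ p) a (γ q)
  have := c.X.tri (γ p) w b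
  have := c.X.tri (γ p) b (γ q)
  have := c.X.tri (γ p) a b
  obtain ⟨i, i1, i2, i3, i4⟩ := pick _ p le_rfl hpq rfl a (by omega) a3
  obtain ⟨j, j1, j2, j3, j4⟩ := pick _ q hpq le_rfl rfl b (by omega) b3
  have hab : c.X.d a w + c.X.d w b ≤ c.X.d a b + 0 := by omega
  rcases c.fp.L1 hab (γ i) with h3 | h3
  · exact side a i i1 i2 i3 i4 (by omega)
  have := c.X.comm (γ j) w
  have := c.X.comm (γ j) b
  have := c.X.comm w b
  rcases c.fp.L1 h3 (γ j) with h4 | h4
  swap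
  · exact side b j j1 j2 j3 j4 (by omega)
  have hij : c.H.d (γ i) (γ j) ≤ 6 * m := by
    have := c.H.tri' (γ i) a (γ j)
    have := c.H.tri' a w (γ j)
    have := c.H.tri w b (γ j)
    omega
  rcases le_total i j with h5 | h5
  · have := c.H.geo_d hγ hl h5 (by omega)
    obtain ⟨t, t1, t2, t3⟩ := bisect hγ w k i j _ h5 (by omega) h4
    have := h2 t (by omega) (by omega)
    omega
  · have := c.H.geo_d hγ hl h5 (by omega)
    have := c.H.comm (γ i) (γ j)
    have := c.X.comm (γ i) (γ j)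
    have := c.X.comm (γ i) w
    obtain ⟨t, t1, t2, t3⟩ := bisect hγ w k j i 4 h5 (by omega) (by omega)
    have := h2 t (by omega) (by omega)
    omega

theorem KR {x y w : G} {k : ℕ} (h : c.X.d x w + c.X.d w y ≤ c.X.d x y + k) :
    c.H.d x w + c.H.d w y ≤ c.H.d x y + (244 + 2 * k) := by
  obtain ⟨m, m1, m2⟩ := c.fp.near h
  obtain ⟨γ, g0, gl, g⟩ := c.H.exists_path _ x y le_rfl
  have hl : c.H.d (γ 0) (γ (c.H.d x y)) = c.H.d x y := by rw [g0, gl]
  obtain ⟨i, -, i2, i3⟩ := morse g hl (Nat.zero_le _) le_rfl m (by rwa [g0, gl])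
  have h1 := c.H.geo_d g hl (Nat.zero_le i) i2
  have h2 := c.H.geo_d g hl i2 le_rfl
  rw [g0] at h1
  rw [gl] at h2
  have := c.H_le w m
  have := c.H.tri w m (γ i)
  have := c.H.tri'' x (γ i) w
  have := c.H.tri w (γ i) y
  omega

theorem H_fp (c : Fam G E) : c.H.FP 1457 := by
  apply Nm.FP_of_hyp (κ := 728)
  intro x y z m hm
  obtain ⟨γ, g0, gm, gl, g⟩ := c.H.exists_path_through hm
  have hl : c.H.d (γ 0) (γ (c.H.d x y)) = c.H.d x y := by rw [g0, gl]
  obtain ⟨w, w1, w2, w3⟩ := c.exit x y (c.H.d x m)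
  have w4 : c.H.d x w = c.H.d x m := by
    rcases w3 with rfl | w3
    · omega
    · exact w3
  obtain ⟨i, -, i2, i3⟩ := morse g hl (Nat.zero_le _) le_rfl w (by rwa [g0, gl])
  have h1 := c.H.geo_d g hl (Nat.zero_le i) i2
  rw [g0] at h1
  have h2 : c.H.d w m ≤ 240 := by
    have := c.H.tri x w (γ i)
    have := c.H.tri'' x (γ i) w
    have := c.H.tri w (γ i) m
    rcases le_total i (c.H.d x m) with h | h
    · have := c.H.path_d' g h
      rw [gm] at this; omega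
    · have := c.H.path_d' g h
      rw [gm, c.H.comm] at this; omega
  have := c.H.tri x w m
  have := c.H.tri' m w z
  have := c.H.tri z w m
  have := c.H.tri' m w y
  rcases c.fp.L1 (c := 0) (le_of_eq w1) z with h | h
  · have := KR h; omega
  · have := KR h; omega

theorem In.bgi {v : G} (hv : c.In v) {γ : ℕ → G} (hγ : ∀ i, c.H.d (γ i) (γ (i + 1)) ≤ 1) {l : ℕ}
    (hl : c.H.d (γ 0) (γ l) = l) {p q : ℕ} (hpq : p ≤ q) (hq : q ≤ l)
    (he : ∀ i, p ≤ i → i < q → c.D v (γ i) (γ (i + 1)) ≤ 4000) : c.D v (γ p) (γ q) ≤ 5000000 := by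
  have bg1 : ∀ i j, i ≤ j → j ≤ l → 86 < c.D v (γ i) (γ j) →
      ∃ t y, i ≤ t ∧ t ≤ j ∧ c.Y v y ∧ c.H.d y (γ t) ≤ 294 := by
    intro i j h1 h2 h3
    obtain ⟨m, m1, m2⟩ := c.fp.near (hv.btw h3).1
    obtain ⟨t, t1, t2, t3⟩ := morse hγ hl h1 h2 m m1
    refine ⟨t, _, t1, t2, hv.π_Y (γ i), ?_⟩
    have := c.H_le (c.π v (γ i)) m
    have := c.H.tri (c.π v (γ i)) m (γ t)
    omega
  have bg2 : ∀ i k, p ≤ i → i + k ≤ q → c.D v (γ i) (γ (i + k)) ≤ 4000 * k := by
    intro i k h1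
    induction k with
    | zero => simp [D]
    | succ k ih =>
      intro h2
      have := ih (by omega)
      have := he (i + k) (by omega) (by omega)
      have := D_tri (c := c) v (γ i) (γ (i + k)) (γ (i + k + 1))
      rw [← add_assoc]; omega
  have bg2' : ∀ i j, p ≤ i → i ≤ j → j ≤ q → c.D v (γ i) (γ j) ≤ 4000 * (j - i) := by
    intro i j h1 h2 h3
    have := bg2 i (j - i) h1 (by omega)
    rwa [show i + (j - i) = j by omega] at this
  have close : ∀ t t' y y', t ≤ t' → t' ≤ l → c.Y v y → c.Y v y' → c.H.d y (γ t) ≤ 294 →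
      c.H.d y' (γ t') ≤ 294 → t' ≤ t + 589 := by
    intro t t' y y' h1 h2 h3 h4 h5 h6
    have := c.H.geo_d hγ hl h1 h2
    have := h3.H_le h4
    have := c.H.tri' (γ t) y (γ t')
    have := c.H.tri y y' (γ t')
    omega
  by_contra hc
  obtain ⟨t, y, t1, t2, t3, t4⟩ := bg1 p q hpq hq (by omega)
  have left : c.D v (γ p) (γ t) ≤ 2500000 := by
    by_cases h : t ≤ p + 590
    · have := bg2' p t le_rfl t1 t2; omega
    · have := bg2' (t - 590) t (by omega) (by omega) t2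
      have := D_tri (c := c) v (γ p) (γ (t - 590)) (γ t)
      by_contra hc
      obtain ⟨t', y', s1, s2, s3, s4⟩ := bg1 p (t - 590) (by omega) (by omega) (by omega)
      have := close t' t y' y (by omega) (by omega) s3 t3 s4 t4
      omega
  have right : c.D v (γ t) (γ q) ≤ 2500000 := by
    by_cases h : q ≤ t + 590
    · have := bg2' t q t1 t2 le_rfl; omega
    · have := bg2' t (t + 590) t1 (by omega) (by omega)
      have := D_tri (c := c) v (γ t) (γ (t + 590)) (γ q)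
      by_contra hc
      obtain ⟨t', y', s1, s2, s3, s4⟩ := bg1 (t + 590) q (by omega) (by omega) (by omega)
      have := close t t' y y' (by omega) (by omega) t3 s3 t4 s4
      omega
  have := D_tri (c := c) v (γ p) (γ t) (γ q)
  omega

theorem In.exists_edge {v : G} (hv : c.In v) {γ : ℕ → G} (hγ : ∀ i, c.H.d (γ i) (γ (i + 1)) ≤ 1)
    {l : ℕ} (hl : c.H.d (γ 0) (γ l) = l) (hD : 5000000 < c.D v (γ 0) (γ l)) :
    ∃ i, i < l ∧ 4000 < c.D v (γ i) (γ (i + 1)) := by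
  by_contra hc
  push Not at hc
  have := hv.bgi hγ hl (Nat.zero_le l) le_rfl (fun i _ h => hc i h)
  omega

theorem In.bend {v x y r : G} (hv : c.In v) (hD : 5000000 < c.D v x y) (hr : Commute r v) :
    c.H.d x (r * y) ≤ c.H.d x y := by
  obtain ⟨γ, g0, gl, g⟩ := c.H.exists_path _ x y le_rfl
  have hl : c.H.d (γ 0) (γ (c.H.d x y)) = c.H.d x y := by rw [g0, gl]
  obtain ⟨i, i1, i2⟩ := hv.exists_edge g hl (by rwa [g0, gl])
  obtain ⟨h1, h2⟩ := hv.edge (g i) i2
  have h3 := h1.H_le (h2.comm hr)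
  have h4 := c.H.path_d' g (Nat.zero_le i)
  have h5 := c.H.path_d' g (show i + 1 ≤ c.H.d x y by omega)
  rw [g0] at h4
  rw [gl, ← c.H.d_mul r] at h5
  have := c.H.tri x (γ i) (r * y)
  have := c.H.tri (γ i) (r * γ (i + 1)) (r * y)
  omega

theorem count {x y : G} {ι : Type} (S : Finset ι) (f : ι → G) (hf : Set.InjOn f S)
    (h : ∀ i ∈ S, c.In (f i) ∧ 5000000 < c.D (f i) x y) : S.card ≤ c.H.d x y := by
  obtain ⟨γ, g0, gl, g⟩ := c.H.exists_path _ x y le_rfl
  have hl : c.H.d (γ 0) (γ (c.H.d x y)) = c.H.d x y := by rw [g0, gl]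
  have : ∀ i : S, ∃ t, t < c.H.d x y ∧ 4000 < c.D (f i) (γ t) (γ (t + 1)) := fun i =>
    (h i i.2).1.exists_edge g hl (by rw [g0, gl]; exact (h i i.2).2)
  choose t ht using this
  have inj : Function.Injective (fun i : S => (⟨t i, (ht i).1⟩ : Fin (c.H.d x y))) := by
    intro i j hij
    have e : t i = t j := by simpa using hij
    obtain ⟨a, b⟩ := (h i i.2).1.edge (g _) (ht i).2
    have h2 := (ht j).2
    rw [← e] at h2
    by_contra hne
    have := (h j j.2).1.diam a b (fun hh => hne (Subtype.ext (hf i.2 j.2 hh.symm)))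
    omega
  simpa using Fintype.card_le_of_injective _ inj

theorem qi {x y : G} {B : ℕ} (h : ∀ v, c.In v → c.D v x y ≤ B) :
    c.X.d x y ≤ (B + 200) * c.H.d x y := by
  have edge : ∀ z z', c.H.d z z' ≤ 1 →
      c.X.d x z' + c.X.d y z ≤ c.X.d x z + c.X.d y z' + 2 * (B + 200) := by
    intro z z' hz
    rcases H_le_one.1 hz with h1 | ⟨v, h1, h2⟩
    · have := c.X.tri x z z'
      have := c.X.tri'' y z' z
      omega
    by_contra hc
    have key : ∀ w, c.X.d x w + c.X.d w y = c.X.d x y →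
        c.X.d x y + c.X.d x z + 2 < 2 * c.X.d x w + c.X.d y z →
        2 * c.X.d x w + c.X.d y z' + 4 < c.X.d x y + c.X.d x z' → c.X.d w (c.π v w) ≤ 87 := by
      intro w w1 w2 w3
      have := c.X.tri' y w z
      have := c.X.tri'' x w z'
      have := c.X.comm z y
      have := c.X.comm z' y
      rcases c.fp.L1 (c := 0) (le_of_eq w1) z with h3 | h3
      · omega
      rcases c.fp.L1 h3 z' with h4 | h4
      · have := h1.near h2 h4; omega
      · omega
    have := c.X.tri' y x z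
    have := c.X.tri x y z'
    obtain ⟨w, w1, w2⟩ := c.X.exists_between x y ((c.X.d x y + c.X.d x z - c.X.d y z) / 2 + 3)
      (by omega)
    obtain ⟨w', w3, w4⟩ := c.X.exists_between x y ((c.X.d x y + c.X.d x z' - c.X.d y z') / 2 - 3)
      (by omega)
    have k1 := key w w2 (by omega) (by omega)
    have k2 := key w' w4 (by omega) (by omega)
    have := (h1.In.π_Y w).π_le x
    have := (h1.In.π_Y w').π_le y
    have := c.X.tri x w (c.π v w)
    have := c.X.tri' y w' (c.π v w')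
    have := c.X.tri x (c.π v x) y
    have := c.X.tri'' (c.π v x) (c.π v y) y
    have := h v h1.In
    unfold D at this
    omega
  obtain ⟨γ, g0, gl, g⟩ := c.H.exists_path _ x y le_rfl
  have : ∀ k, c.X.d x (γ k) + c.X.d y x ≤ c.X.d y (γ k) + 2 * ((B + 200) * k) := by
    intro k
    induction k with
    | zero => simp [g0]
    | succ k ih =>
      have := edge _ _ (g k)
      rw [Nat.mul_succ]; omega
  have h1 := this (c.H.d x y)
  rw [gl, Nm.d_self, c.X.comm y x] at h1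
  omega

end Fam

end Pool.Agent.MP_5c28a4_al.H89
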