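import Pool.Agent.MP_5c28a4_al.H89.Cls

set_option autoImplicit false

namespace Pool.Agent.MP_5c28a4_al.H89

open Pool.Agent.Burnside6

variable {G : Type} [Group G] {E : ℕ}

theorem escape {X : Nm G} (h : X.FP 2) {a z₀ : G} (hz : X.d z₀ (a * z₀) ≤ 17) (y : G) :
    ∃ m, X.d m (a * m) ≤ 21 ∧ 2 * X.d y m ≤ X.d y (a * y) + 6 := by
  by_cases h1 : X.d y z₀ ≤ X.d y (a * y) / 2 + 3
  · exact ⟨z₀, by omega, by omega⟩
  obtain ⟨m, m1, m2⟩ := X.exists_between y z₀ (X.d y (a * y) / 2 + 3) (by omega)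
  refine ⟨m, ?_, by omega⟩
  have m3 : X.d (a * y) (a * m) + X.d (a * m) (a * z₀) ≤ X.d (a * y) (a * z₀) + 0 := by
    simp only [Nm.d_mul]; omega
  have a1 := h.L1 (c := 0) m2.le (a * m)
  have a2 := h.L1 m3 y
  have := X.tri'' (a * m) (a * z₀) z₀
  have := X.tri y z₀ (a * z₀)
  have := X.comm m (a * m)
  have := X.comm y (a * m)
  have := X.comm y (a * y)
  simp only [Nm.d_mul] at *
  omega

structure Ctr (c : Fam G E) (e : G) (Φ : Set G) : Prop where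
  ne : Φ.Nonempty
  inv : ∀ z, e * z ∈ Φ ↔ z ∈ Φ
  alt : ∀ v, c.In v → ¬ Commute e v ∧ ∀ z ∈ Φ, c.D v z (e * z) ≤ 4000

variable {c : Fam G E}

theorem Ctr.inv' {e : G} {Φ : Set G} (h : Ctr c e Φ) : Ctr c e⁻¹ Φ := by
  have hi : ∀ z, e⁻¹ * z ∈ Φ ↔ z ∈ Φ := fun z => by rw [← h.inv]; simp
  refine ⟨h.ne, hi, fun v hv => ?_⟩
  obtain ⟨h1, h2⟩ := h.alt v hv
  refine ⟨by simpa using h1, fun z hz => ?_⟩
  have := h2 _ ((hi z).2 hz)
  rw [Fam.D_comm]; simpa using this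

theorem ctr_short (c : Fam G E) {e z₀ : G} (h1 : e ≠ 1) (h2 : c.X.d z₀ (e * z₀) ≤ 17) :
    Ctr c e {z | c.X.d z (e * z) ≤ 21} := by
  refine ⟨⟨z₀, h2.trans (by norm_num)⟩, fun z => ?_, fun v hv => ⟨hv.not_comm h1 h2 ?_, ?_⟩⟩
  · simp
  · have := c.hN v hv
    have := hv.E_pos
    omega
  · intro z hz
    have := hv.lip z (e * z)
    rw [Set.mem_ofPred_eq] at hz
    omega

theorem Ctr.twin {e : G} {Φ : Set G} (h : Ctr c e Φ) {x y v : G} (hy : y ∈ Φ)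
    (hm : ∀ z ∈ Φ, c.X.d x y ≤ c.X.d x z) (hv : c.In v) (hc : ¬ Commute e v)
    (h1 : 17344 ≤ c.D v x y) (h2 : 17344 ≤ c.D (e⁻¹ * v * e) x y) : False := by
  have hv' := hv.conj' e
  have key : ∀ w, c.In w → 86 < c.D w x y → ∀ z ∈ Φ, c.D w y z ≤ 4000 →
      c.X.d y (c.π w y) ≤ c.X.d z (c.π w z) + 4172 := by
    intro w hw hD z hz hD'
    have := hw.Pb hD
    have := hm z hz
    have := c.X.tri x (c.π w x) z
    have := c.X.tri'' (c.π w x) (c.π w z) z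
    have := Fam.D_tri (c := c) w x y z
    unfold Fam.D at *
    omega
  have hD : c.D v y (e * y) ≤ 4000 := (h.alt v hv).2 y hy
  have k1 := key v hv (by omega) _ ((h.inv y).2 hy) hD
  have k2 := key _ hv' (by omega) (e⁻¹ * y) ((h.inv _).1 (by simpa using hy)) (by
    rw [← Fam.D_mul, Fam.D_comm]; simpa using hD)
  rw [Fam.dπ_mul] at k1
  rw [← Fam.dπ_mul v e (e⁻¹ * y), mul_inv_cancel_left] at k2
  have := hv.sep hv' (fun h => hc (conj_eq_iff.1 h.symm)) (k := 4172) h1 h2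
  omega

theorem Ctr.step_bound {e : G} {Φ : Set G} (h : Ctr c e Φ) {x y : G} (hy : y ∈ Φ)
    (hs : ∀ w, c.In w → 2 * (c.s w y x).natAbs < c.N w + 1200 * E) {w : G} (hw : c.In w) :
    2 * (c.s w y (e * x)).natAbs ≤ c.N w + 9200 * E := by
  have := hw.s_le ((h.alt w hw).2 y hy)
  have := hw.s_add y (e * y) (e * x)
  have := hw.s_mul e y x
  have := hs _ (hw.conj' e)
  have := hw.N_conj' e
  omega

theorem no_two {e f : G} {Φ Ψ : Set G} (he : Ctr c e Φ) (hf : Ctr c f Ψ) {y x : G} (hy : y ∈ Φ)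
    (hx : x ∈ Ψ) (hm : ∀ z ∈ Φ, ∀ z' ∈ Ψ, c.X.d y x ≤ c.X.d z z') {w : G}
    (hw : c.In w) (h1 : 21344 < c.D w (f * x) y) (h2 : 21344 < c.D w y (e * x)) : False := by
  have hm1 : ∀ z ∈ Φ, c.X.d x y ≤ c.X.d x z := fun z hz => by
    rw [c.X.comm x y, c.X.comm x z]; exact hm z hz x hx
  have t1 := Fam.D_tri (c := c) w (f * x) x y
  have t2 := Fam.D_tri (c := c) w y (e * y) (e * x)
  have := Fam.D_comm (c := c) w (f * x) x
  have := Fam.D_comm (c := c) w y x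
  have := Fam.D_mul (c := c) w e y x
  have := Fam.D_comm (c := c) (e⁻¹ * w * e) y x
  obtain ⟨a1, a2⟩ := he.alt w hw
  have := a2 y hy
  have := (hf.alt w hw).2 x hx
  exact he.twin hy hm1 hw a1 (by omega) (by omega)

theorem chain_s {q : ℕ → G}
    (hb : ∀ i, c.X.d (q i) (q (i + 1)) + c.X.d (q (i + 1)) (q (i + 2)) ≤ c.X.d (q i) (q (i + 2)) + 8400)
    (hs : ∀ i, 39000 ≤ c.X.d (q i) (q (i + 1))) {w : G} (hw : c.In w)
    (hS : ∀ i, 2 * (c.s w (q i) (q (i + 1))).natAbs ≤ c.N w + 9200 * E)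
    (hT : ∀ i, 21344 < c.D w (q i) (q (i + 1)) → 21344 < c.D w (q (i + 1)) (q (i + 2)) → False)
    (b : ℕ) : (c.s w (q 0) (q b)).natAbs + 5032001 * E ≤ c.N w := by
  classical
  have hs' : ∀ i, 8400 + 2 * 2 < c.X.d (q i) (q (i + 1)) := fun i => by have := hs i; omega
  have btw := fun a i b => c.fp.chain_btw (a := a) (i := i) (b := b) hb hs'
  have loc : ∀ i, i + 1 ≤ b → c.D w (q i) (q (i + 1)) ≤ 21344 → 86 < c.D w (q 0) (q i) →
      c.D w (q (i + 1)) (q b) ≤ 86 := by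
    intro i hi h1 h2
    by_contra h3
    have := (hw.btw h2).2
    have := (hw.btw (not_le.1 h3)).1
    have := btw 0 i b (Nat.zero_le _) (by omega)
    have := btw i (i + 1) b (by omega) hi
    have := hs i
    have := c.X.tri (q 0) (c.π w (q i)) (q b)
    have := c.X.tri (c.π w (q i)) (c.π w (q (i + 1))) (q b)
    unfold Fam.D at *
    omega
  have hN := c.hN w hw
  by_cases h0 : ∃ i, i + 1 ≤ b ∧ 86 < c.D w (q 0) (q (i + 1))
  swap
  · have : c.D w (q 0) (q b) ≤ 86 := by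
      rcases b with _ | b
      · simp [Fam.D]
      · by_contra hc; exact h0 ⟨b, le_rfl, by omega⟩
    have := hw.s_le this
    omega
  have h1 := Nat.find_spec h0
  have h2 : c.D w (q 0) (q (Nat.find h0)) ≤ 86 := by
    rcases hh : Nat.find h0 with _ | j
    · simp [Fam.D]
    · have := Nat.find_min h0 (show j < Nat.find h0 by omega)
      by_contra hc
      exact this ⟨by omega, by omega⟩
  generalize Nat.find h0 = i at *
  obtain ⟨h1, h3⟩ := h1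
  have s0 := hw.s_le h2
  have s1 := hw.s_add (q 0) (q i) (q b)
  have s2 := hw.s_add (q i) (q (i + 1)) (q b)
  have s3 := hw.s_add (q (i + 1)) (q (i + 2)) (q b)
  have s4 := hw.s_add (q (i + 2)) (q (i + 3)) (q b)
  have S0 := hS i
  have S1 : 2 * (c.s w (q (i + 1)) (q (i + 2))).natAbs ≤ _ := hS (i + 1)
  rcases Nat.eq_or_lt_of_le h1 with rfl | h4
  · have := hw.s_self (q (i + 1)); omega
  by_cases h5 : c.D w (q (i + 1)) (q (i + 2)) ≤ 21344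
  · have := hw.s_le h5
    have : (c.s w (q (i + 2)) (q b)).natAbs ≤ _ := hw.s_le (loc (i + 1) h4 h5 h3)
    omega
  have h6 : c.D w (q i) (q (i + 1)) ≤ 21344 := by
    by_contra hc; exact hT i (by omega) (by omega)
  have := hw.s_le h6
  rcases Nat.eq_or_lt_of_le (show i + 2 ≤ b from h4) with rfl | h7
  · have := hw.s_self (q (i + 2)); omega
  have h8 : c.D w (q (i + 2)) (q (i + 3)) ≤ 21344 := by
    by_contra hc; exact hT (i + 1) (not_le.1 h5) (not_le.1 hc)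
  have := hw.s_le h8
  have h9 := hw.mono (a := q 0) (b := q (i + 2)) (x := q (i + 1)) (y := q (i + 2)) (k := 8404)
    (by omega) (by simpa using btw 0 (i + 1) (i + 2) (by omega) (by omega))
  have : (c.s w (q (i + 3)) (q b)).natAbs ≤ _ := hw.s_le (loc (i + 2) h7 h8 (by omega))
  omega

namespace Kill

theorem small (κ : Kill c) {x y : G} (hm : ∀ k ∈ κ.K, c.X.d x y ≤ c.X.d x (k * y)) {v : G}
    (hv : c.In v) : 2 * (c.s v x y).natAbs < c.N v + 1200 * E := by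
  by_contra hc
  obtain ⟨r, r1, -, r3⟩ := κ.short hv (k := 1) (by norm_num) (not_lt.1 hc)
  have := hm r r1
  omega

theorem exists_min3 (κ : Kill c) {Φ₀ Φ₁ : Set G} (h₀ : Φ₀.Nonempty) (h₁ : Φ₁.Nonempty) :
    ∃ x₀ ∈ Φ₀, ∃ x₁ ∈ Φ₁, ∃ k₀ ∈ κ.K, ∀ z₀ ∈ Φ₀, ∀ z₁ ∈ Φ₁, ∀ k ∈ κ.K,
      c.X.d x₀ (k₀ * x₁) ≤ c.X.d z₀ (k * z₁) := by
  obtain ⟨a, ha⟩ := h₀
  obtain ⟨b, hb⟩ := h₁
  let S : Set (G × G × G) := {t | t.1 ∈ Φ₀ ∧ t.2.1 ∈ Φ₁ ∧ t.2.2 ∈ κ.K}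
  have hS : S.Nonempty := ⟨(a, b, 1), ha, hb, one_mem _⟩
  obtain ⟨h1, h2, h3⟩ := Function.argminOn_mem (fun t : G × G × G => c.X.d t.1 (t.2.2 * t.2.1)) S hS
  exact ⟨_, h1, _, h2, _, h3, fun z₀ a z₁ b k d =>
    Function.argminOn_le (fun t : G × G × G => c.X.d t.1 (t.2.2 * t.2.1)) S
      (a := (z₀, z₁, k)) ⟨a, b, d⟩⟩

theorem far_chain (κ : Kill c) {a b : G} {Φ Ψ : Set G} (ha : Ctr c a Φ) (hb : Ctr c b Ψ) {x y : G} (hx : x ∈ Φ)
    (hy : y ∈ Ψ) (hm : ∀ z ∈ Φ, ∀ z' ∈ Ψ, ∀ k ∈ κ.K, c.X.d x y ≤ c.X.d z (k * z'))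
    (b1 : c.X.d (b⁻¹ * y) x + c.X.d x (a⁻¹ * y) ≤ c.X.d (b⁻¹ * y) (a⁻¹ * y) + 8400)
    (b2 : c.X.d (a * x) y + c.X.d y (b * x) ≤ c.X.d (a * x) (b * x) + 8400)
    (l1 : 39000 ≤ c.X.d y (b * x)) (l2 : 39000 ≤ c.X.d x (a⁻¹ * y)) :
    1 ≤ 6000000 * κ.Q.τ ((b * a⁻¹ : G) : G ⧸ κ.K) := by
  obtain ⟨g, hg⟩ : ∃ g, g = b * a⁻¹ := ⟨_, rfl⟩
  rw [← hg]
  let q : ℕ → G := fun i => g ^ (i / 2) * (if i % 2 = 0 then y else b * x)
  have q0 : ∀ k, q (2 * k) = g ^ k * y := fun k => by simp [q]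
  have q1 : ∀ k, q (2 * k + 1) = g ^ k * b * x := fun k => by
    have : (2 * k + 1) / 2 = k := by omega
    simp [q, this, mul_assoc]
  have cs : ∀ i, (∃ u, q i = u * (b⁻¹ * y) ∧ q (i + 1) = u * x ∧ q (i + 2) = u * (a⁻¹ * y)) ∨
      (∃ u, q i = u * (a * x) ∧ q (i + 1) = u * y ∧ q (i + 2) = u * (b * x)) := by
    intro i
    obtain ⟨k, rfl | rfl⟩ := Nat.even_or_odd' i
    · refine Or.inl ⟨g ^ k * b, by rw [q0]; group, q1 k, ?_⟩
      rw [show 2 * k + 2 = 2 * (k + 1) by ring, q0, pow_succ, hg]; group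
    · refine Or.inr ⟨g ^ (k + 1), by rw [q1, pow_succ, hg]; group, ?_, ?_⟩
      · rw [show 2 * k + 1 + 1 = 2 * (k + 1) by ring, q0]
      · rw [show 2 * k + 1 + 2 = 2 * (k + 1) + 1 by ring, q1, mul_assoc]
  have hm0 : ∀ z ∈ Φ, ∀ z' ∈ Ψ, c.X.d x y ≤ c.X.d z z' := fun z hz z' hz' => by
    simpa using hm z hz z' hz' 1 (one_mem _)
  have hm1 : ∀ z' ∈ Ψ, ∀ z ∈ Φ, c.X.d y x ≤ c.X.d z' z := fun z' hz' z hz => by
    rw [c.X.comm y, c.X.comm z']; exact hm0 z hz z' hz'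
  have sm : ∀ w, c.In w → 2 * (c.s w x y).natAbs < c.N w + 1200 * E := fun w hw =>
    κ.small (hm x hx y hy) hw
  have sm' : ∀ w, c.In w → 2 * (c.s w y x).natAbs < c.N w + 1200 * E := fun w hw => by
    rw [hw.s_neg, Int.natAbs_neg]; exact sm w hw
  have Hb : ∀ i, c.X.d (q i) (q (i + 1)) + c.X.d (q (i + 1)) (q (i + 2)) ≤
      c.X.d (q i) (q (i + 2)) + 8400 := by
    intro i
    rcases cs i with ⟨u, h1, h2, h3⟩ | ⟨u, h1, h2, h3⟩ <;> rw [h1, h2, h3] <;>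
      simp only [Nm.d_mul] <;> assumption
  have Hs : ∀ i, 39000 ≤ c.X.d (q i) (q (i + 1)) := by
    intro i
    rcases cs i with ⟨u, h1, h2, -⟩ | ⟨u, h1, h2, -⟩ <;> rw [h1, h2, Nm.d_mul]
    · rwa [Nm.d_inv_left]
    · rwa [← Nm.d_inv_right]
  have bound : ∀ (m : ℕ) w, c.In w → (c.s w y (g ^ m * y)).natAbs + 5032001 * E ≤ c.N w := by
    intro m w hw
    have := chain_s Hb Hs hw (fun i => by
      rcases cs i with ⟨u, h1, h2, -⟩ | ⟨u, h1, h2, -⟩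
      · rw [h1, h2, ← mul_assoc, show u * x = u * b⁻¹ * (b * x) by group, hw.s_mul,
          ← hw.N_conj' (u * b⁻¹)]
        exact hb.step_bound hy sm' (hw.conj' _)
      · rw [h1, h2, ← mul_assoc, show u * y = u * a * (a⁻¹ * y) by group, hw.s_mul,
          ← hw.N_conj' (u * a)]
        exact ha.inv'.step_bound hx sm (hw.conj' _)) (fun i => by
      rcases cs i with ⟨u, h1, h2, h3⟩ | ⟨u, h1, h2, h3⟩ <;> rw [h1, h2, h3, Fam.D_mul, Fam.D_mul]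
      · exact no_two ha.inv' hb.inv' hx hy hm0 (hw.conj' u)
      · exact no_two hb ha hy hx hm1 (hw.conj' u)) (2 * m)
    rwa [q0, show q 0 = y by simp [q]] at this
  have hτ : 1 ≤ c.X.τ g := by
    apply c.X.le_tau y (c := 0)
    intro k
    have := c.fp.chain_len (l := 1) Hb (fun i => by have := Hs i; omega) one_pos 0 (2 * k)
    rw [zero_add, q0, show q 0 = y by simp [q]] at this
    have : k ≤ c.X.d y (g ^ k * y) := by omega
    simpa using this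
  rw [← min_eq_right hτ]
  refine κ.coreB (x := y) (k := 8404) (by norm_num) (fun v hv h => ?_) (by linarith) (fun i j => ?_)
    bound
  · obtain ⟨j, hj⟩ := hv.cent h
    have j0 : j ≠ 0 := by
      rintro rfl
      rw [hj, zpow_zero, c.X.tau_one] at hτ; norm_num at hτ
    have := bound 1 v hv
    rw [pow_one, hj, hv.s_zpow, hv.s_self, zero_add, Int.natAbs_mul, Int.natAbs_natCast] at this
    have := Nat.le_mul_of_pos_right (c.N v) (Int.natAbs_pos.2 j0)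
    have := hv.E_pos
    omega
  · have := c.fp.chain_btw Hb (fun i => by have := Hs i; omega) (Nat.zero_le (2 * i))
      (show 2 * i ≤ 2 * (i + j) by omega)
    rwa [q0, q0, show q 0 = y by simp [q], Nm.orbit_d] at this

theorem short_lift (κ : Kill c) {q : G ⧸ κ.K} (hq : q ≠ 1) (h : 6000000 * κ.Q.τ q < 1) :
    ∃ g z : G, (g : G ⧸ κ.K) = q ∧ g ≠ 1 ∧ c.X.d z (g * z) ≤ 17 := by
  obtain ⟨g, g1, g2, g3⟩ := κ.classify q hq
  obtain ⟨z, hz⟩ := exists_tame c.fp (c.st.pos g2)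
  refine ⟨g, z, g1, g2, ?_⟩
  have h1 := hz 1
  have h2 : c.X.τ g < 1 := by
    rcases min_lt_iff.1 (g3.trans_lt h) with h | h
    · exact h
    · exact absurd h (lt_irrefl _)
  have : (c.X.d z (g * z) : ℝ) ≤ 17 := by simp at h1; linarith
  exact_mod_cast this

/-- lifting of a short pair -/
theorem pair_lift (κ : Kill c) {p q : G ⧸ κ.K} (hp : p ≠ 1) (hq : q ≠ 1)
    (h1 : 6000000 * κ.Q.τ p < 1) (h2 : 6000000 * κ.Q.τ q < 1)
    (h3 : 6000000 * κ.Q.τ (q * p⁻¹) < 1) : ∃ a b z : G, (a : G ⧸ κ.K) = p ∧ (b : G ⧸ κ.K) = q ∧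
      c.X.d z (a * z) ≤ 80000 ∧ c.X.d z (b * z) ≤ 80000 := by
  obtain ⟨a, z₀, rfl, a1, hz₀⟩ := κ.short_lift hp h1
  obtain ⟨b₀, z₂, rfl, b1, hz₂⟩ := κ.short_lift hq h2
  obtain ⟨x, hx, y₀, hy₀, k, hk, h4⟩ := κ.exists_min3 (ctr_short c a1 hz₀).ne (ctr_short c b1 hz₂).ne
  have eb : ∀ z, c.X.d z (k * b₀ * k⁻¹ * z) = c.X.d (k⁻¹ * z) (b₀ * (k⁻¹ * z)) := fun z => c.X.d_conj _ _ _
  have hz₁ : c.X.d (k * z₂) (k * b₀ * k⁻¹ * (k * z₂)) ≤ 17 := by rw [eb]; simpa using hz₂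
  have b2 : k * b₀ * k⁻¹ ≠ 1 := by simpa using b1
  have hy : c.X.d (k * y₀) (k * b₀ * k⁻¹ * (k * y₀)) ≤ 21 := by rw [eb]; simpa using hy₀
  have h5 : ∀ z ∈ {z | c.X.d z (a * z) ≤ 21}, ∀ z' ∈ {z | c.X.d z (k * b₀ * k⁻¹ * z) ≤ 21},
      ∀ k' ∈ κ.K, c.X.d x (k * y₀) ≤ c.X.d z (k' * z') := fun z hz z' hz' k' hk' => by
    simpa [mul_assoc] using h4 z hz (k⁻¹ * z') (by rw [Set.mem_ofPred_eq, ← eb]; exact hz') (k' * k)
      (mul_mem hk' hk)
  rw [← κ.mk_conj hk b₀] at h3 ⊢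
  generalize k * b₀ * k⁻¹ = b at *
  generalize k * y₀ = y at *
  have hx' : c.X.d x (a * x) ≤ 21 := hx
  by_cases hf : c.X.d x (b * x) ≤ 80000
  · exact ⟨a, b, x, rfl, rfl, by omega, hf⟩
  exfalso
  obtain ⟨m₀, a2, a3⟩ := escape c.fp hz₀ y
  obtain ⟨m₁, b2', b3⟩ := escape c.fp hz₁ x
  have := h5 m₀ a2 y hy 1 (one_mem _)
  have := h5 x hx m₁ b2' 1 (one_mem _)
  simp only [one_mul] at *
  have := c.X.comm m₀ y
  have := c.X.comm x y
  have := c.X.tri x y (b * x)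
  have := c.X.tri y (b * y) (b * x)
  have := c.X.d_mul b y x
  have := c.X.d_mul a x y
  have := c.X.d_inv_left b y x
  have := c.X.d_inv_right a x y
  have := c.X.tri' (a * x) x y
  have := c.X.tri y (a * x) (a * y)
  have := c.X.comm y (a * x)
  have := κ.far_chain (ctr_short c a1 hz₀) (ctr_short c b2 hz₁) hx hy h5 (by
    have := c.X.tri y (b⁻¹ * y) (a⁻¹ * y)
    have := c.X.d_inv_self a y
    have := c.X.d_inv_self b y
    omega) (by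
    have := c.X.tri x (a * x) (b * x)
    omega) (by omega) (by omega)
  rw [QuotientGroup.mk_mul, QuotientGroup.mk_inv] at this
  linarith

end Kill

end Pool.Agent.MP_5c28a4_al.H89
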