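import Pool.Agent.MP_5c28a4_al.H89.Tower
import Pool.Agent.MP_5c28a4_al.H17.Align
import Pool.Agent.MP_5c28a4_al.H19.RR
import Pool.Agent.MP_5c28a4_al.H26.Var
import Pool.Agent.MP_5c28a4_al.H4.Pru
import Pool.Agent.MP_5c28a4_al.H43.Vis
import Pool.Agent.MP_5c28a4_al.H48.Sys
import Pool.Agent.MP_5c28a4_al.H61.A0
import Pool.Agent.MP_5c28a4_al.H72.Rec
import Pool.Agent.MP_5c28a4_al.H74.Match
import Pool.Agent.MP_5c28a4_al.H88.Lines
import Pool.Agent.MP_5c28a4_al.H91.Lat

set_option autoImplicit false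

namespace Pool.Agent.MP_5c28a4_al.H89

theorem facts : Facts where
  a0 := H61.a0
  hsys := H43.hSysS
  htau := H43.hTau H48.sysWord
  rsys := H43.rSysS H48.sysWord
  word := H48.sysWord
  hh := H74.hhS (H48.am H17.align) H43.hSysS
  hr := H74.hrS (H48.am H17.align) H43.hSysS (H43.rSysS H48.sysWord)
  ha := H19.haS (H48.alongSys H17.along) (H43.rSysS H48.sysWord)
  rr := H19.rrS (H48.am H17.align) H74.mtch (H43.rSysS H48.sysWord)
  lines := H88.lines

theorem towerS : TowerStmt := tower facts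

theorem latS : LatStmt := H91.lat towerS (H72.recS towerS)

theorem cexS : CexStmt := H26.cex latS H4.pru

end Pool.Agent.MP_5c28a4_al.H89
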