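import Pool.Agent.MP_5c28a4_al.H89.Spec

set_option autoImplicit false

namespace Pool.Agent.MP_5c28a4_al.H89

open Pool.Agent.Burnside6

/-- the geometric and algebraic facts used in the induction -/
structure Facts : Prop where
  a0 : A0Stmt
  hsys : HSysStmt
  htau : HTauStmt
  rsys : RSysStmt
  word : SysWordStmt
  hh : HHStmt
  hr : HRStmt
  ha : HaStmt
  rr : RRStmt
  lines : LinesStmt

variable {G : Type} [Group G] {ι : Type}

structure DP (X : Nm G) (L : ι → Law) (K : ι → G → G → Prop) (l : Law) (a : ℕ) (z g h : G) :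
    Prop where
  d1 : ∀ η ∈ Hs l.k l.m g h, η ≠ 1 → 1 ≤ (cE : ℝ) ^ (a + 1) * X.τ η
  d2 : ∀ v ∈ Fk l.k, θW l.m g h v = 1 → v ∈ Verb L {j' | (L j').n ≤ cB2 * cE ^ a}
  d3 : g ∉ Hs l.k l.m g h
  d3' : h ∉ Hs l.k l.m g h
  d4 : l.m * X.τ (eW g h) < 100000 → Mal X cβ1 (Hs l.k l.m g h) z
  d5 : l.m * X.τ (eW g h) < 100000 * cP → ∀ j' g' h', K j' g' h' →
    (∀ z', Ov X cβK (Hs l.k l.m g h) z 1 (Subgroup.zpowers (rW (L j') g' h')) z') →
    g' ∈ Hs l.k l.m g h ∧ h' ∈ Hs l.k l.m g h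

structure Good0 (X : Nm G) (a : ℕ) (z g h : G) : Prop where
  g1 : ∀ u : F, X.d z (ev g h u * z) ≤ max 1 (cL * FreeGroup.norm u - a)
  g2 : 1 ≤ (cE : ℝ) ^ (a + 1) * X.τ (eW g h)
  nc : ¬ Commute g (eW g h)
  g3 : aE ≤ a → Tame X (eW g h) z (cT + (cA + aE - a))

structure Good (X : Nm G) (L : ι → Law) (K : ι → G → G → Prop) (a : ℕ) (z g h : G) : Prop
    extends Good0 X a z g h where
  g4 : ∀ j, (L j).L ≤ a → DP X L K (L j) a z g h
  g5 : ∀ j, (L j).a' ≤ a → Tame X (VW (L j) g h) z (cT + ((L j).a - a)) ∧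
    ¬ Commute g (VW (L j) g h) ∧ ¬ Commute h (VW (L j) g h)

structure Geo (X : Nm G) (L : ι → Law) (Done K : ι → G → G → Prop) : Prop where
  tf : ∃ E, 0 < E ∧ TF X E
  dc : ∀ j g h y, Done j g h → Done j (y * g * y⁻¹) (y * h * y⁻¹)
  dr : ∀ j g h, Done j g h → rW (L j) g h = 1
  kc : ∀ j g h y, K j g h → K j (y * g * y⁻¹) (y * h * y⁻¹)
  k1 : ∀ j g h, K j g h → ¬ Commute g h ∧ VW (L j) g h ≠ 1 ∧
    (L j).n * X.τ (VW (L j) g h) ≤ cB2 ∧ (cN : ℝ) ≤ X.τ (rW (L j) g h)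
  k3 : ∀ j g h j' g' h', K j g h → ¬ Commute g' h' → ¬ Done j' g' h' →
    (L j').n * X.τ (VW (L j') g' h') ≤ cB2 →
    (∀ z z', Ov X cβK (Subgroup.zpowers (rW (L j) g h)) z 1
      (Subgroup.zpowers (rW (L j') g' h')) z') →
    j' = j ∧ ∃ y ∈ Subgroup.zpowers (rW (L j) g h), g' = y * g * y⁻¹ ∧ h' = y * h * y⁻¹
  w : ∀ j g h, ¬ Commute g h → Done j g h ∨ K j g h ∨ (cB1 : ℝ) < (L j).n * X.τ (VW (L j) g h)
  pr : ∀ g h, ¬ Commute g h → 1 ≤ cE0 * mu X g h ∨ ∃ a z, Good X L K a z g h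

/-! arithmetic of the constants -/

theorem cP_pos : 0 < cP := by norm_num [cP]
theorem cR_pos : 0 < cR := by norm_num [cR]
theorem cE_pos : 0 < cE := by norm_num [cE]
theorem cL_pos : 0 < cL := by norm_num [cL, cP]
theorem cE_one : (1 : ℝ) ≤ cE := by norm_num [cE]
theorem cE_eq : (cE : ℝ) = cP * (6000000 * cR) := by norm_num [cE, cP, cR]
theorem cE0_eq : (cE0 : ℝ) = 6000000 * cR := by norm_num [cE0, cR]
theorem cB2_eq : (cB2 : ℝ) = cE * cB1 := by simp [cB2]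
theorem cB3_eq : (cB3 : ℝ) = cE * cB2 := by simp [cB3]

theorem aE_aux (x c y : ℕ) (hc : 0 < c) (h : y = c * (x + 1)) : 0 < y ∧ c * x ≤ y := by
  subst h; exact ⟨by positivity, Nat.mul_le_mul_left _ (by omega)⟩

theorem aE_pos : 0 < aE := (aE_aux Le cL aE cL_pos aE_eq).1

theorem aE_aux2 (x x' c y : ℕ) (hx : x = x') (h : y = c * (x + 1)) : c * x' ≤ y := by
  subst h hx; exact Nat.mul_le_mul_left _ (by omega)

theorem Le_le_aE : cL * FreeGroup.norm (eW x0 x1) ≤ aE := aE_aux2 Le _ cL aE Le_eq aE_eq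

noncomputable def cM : ℕ := sealN (200000 * (2 * Le + 2))

theorem cM_eq : cM = 200000 * (2 * Le + 2) := sealN_eq _

theorem cM_aux (x y z : ℕ) (hy : y = 200000 * (2 * x + 2))
    (hz : z = 1000000000000000000000000000000 * cP * (x + 1)) : (y + 6000000) * (4 * cP) ≤ z := by
  subst hy hz; unfold cP; omega

theorem cM_le : (cM + 6000000) * (4 * cP) ≤ cN := cM_aux Le cM cN cM_eq cN_eq

theorem cM_aux2 (x x' y n a : ℕ) (hx : x = x') (hy : y = 200000 * (2 * x + 2)) (h : n ≤ 2 * x' + 2) :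
    max 1 (cL * n - a) ≤ y * cP := by
  subst hx hy; unfold cL cP; omega

theorem cM_ge {n : ℕ} (h : n ≤ 2 * FreeGroup.norm (eW x0 x1) + 2) (a : ℕ) :
    max 1 (cL * n - a) ≤ cM * cP := cM_aux2 Le _ cM n a Le_eq cM_eq h

theorem cN_aux (x z : ℕ) (hz : z = 1000000000000000000000000000000 * cP * (x + 1)) :
    400000000000000 * cP ≤ z := by
  subst hz; unfold cP; omega

theorem cN_ge : 400000000000000 * cP ≤ cN := cN_aux Le cN cN_eq

theorem hh_aux (x y z : ℕ) (h1 : y = cE * x) (h2 : z = 8 * y + 4) : cE * x ≤ z := by omega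

theorem hh_ge' : cE * cN ≤ hh := hh_aux cN h0 hh h0_eq hh_eq

theorem Ok_aux {x k a b L m p : ℕ} (h1 : cL * (x + k + 1) + a + b ≤ L)
    (h2 : (100000 * cP + 40000 + 3002 * L) * p ≤ m) (hp : 0 < p) :
    40000 + 3002 * (x + k + 1) ≤ m ∧ cL * (x + k + 1) ≤ L ∧ cL * k ≤ L ∧ b + a ≤ L ∧ 1 ≤ L := by
  have := Nat.le_mul_of_pos_right (100000 * cP + 40000 + 3002 * L) hp
  unfold cL cP at *
  omega

theorem Law.Ok.facts {l : Law} (h : l.Ok) : 40000 + 3002 * (Le + l.k + 1) ≤ l.m ∧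
    cL * (Le + l.k + 1) ≤ l.L ∧ cL * l.k ≤ l.L ∧ cA + aE ≤ l.L ∧ 1 ≤ l.L :=
  Ok_aux h.hL h.hm' (pow_pos cE_pos _)

theorem Adm.v_ne {L : ι → Law} (h : Adm L) (j : ι) : (L j).v ≠ 1 := fun h1 =>
  h.new j (h1 ▸ one_mem _)

theorem VW_mem {l : Law} (h : l.Ok) (g h' : G) : VW l g h' ∈ Hs l.k l.m g h' := by
  unfold VW; exact ⟨l.v, h.hv, rfl⟩

variable {X : Nm G} {E : ℕ} {L : ι → Law} {K : ι → G → G → Prop}

theorem vis_H (hF : Facts) (hX : TF X E) {l : Law} (hl : l.Ok) {g h z : G} {ω : ℕ}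
    (h1 : ¬ Commute g (eW g h)) (h2 : X.d z (eW g h * z) ≤ ω)
    (h3 : ∀ s, s ≤ l.k → X.d z (g ^ s * z) ≤ ω)
    (h4 : ((40000 + 3002 * ω : ℕ) : ℝ) ≤ l.m * X.τ (eW g h)) :
    (hSys l.k l.m g h).Vis X z ω (40000 + 3000 * ω) ∧
      ∀ v ∈ Fk l.k, v ≠ 1 → 1000 ≤ X.τ (θW l.m g h v) := by
  have hv := (((hF.hsys G l.k l.m g h hl.hk).2 X E hX hl.hm z ω h3).1 (40000 + 3000 * ω) h1 h2
    (by rwa [show 40000 + 3000 * ω + 2 * ω = 40000 + 3002 * ω by ring]))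
  refine ⟨hv, fun v h5 h6 => ?_⟩
  have := hF.htau G X E hX l.k l.m g h z ω _ 1000 hv (by omega) (by omega) v h5 h6
  exact_mod_cast this

theorem young (hF : Facts) (hX : TF X E) {l : Law} (hl : l.Ok) (hv : l.v ≠ 1) {g h : G}
    (hc : ¬ Commute g h) (hμ : 1 ≤ cE0 * mu X g h) : 1000 ≤ X.τ (VW l g h) := by
  obtain ⟨z, M, h1, h2, h3, h4, h5, -⟩ := hF.a0 G X E hX g h hc hμ
  have he := ev_disp X h2 h3 (eW x0 x1)
  rw [ev_eW, ← Le_eq] at he
  have hm := hl.facts.1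
  obtain ⟨x, hx⟩ : ∃ x, x = Le := ⟨_, rfl⟩
  rw [← hx] at he hm
  unfold VW
  refine (vis_H hF hX hl (z := z) (ω := M * (x + l.k + 1)) h5 (he.trans (Nat.mul_le_mul_left _ (by omega)))
    (fun s hs => (X.orbit_le g z s).trans ?_) ?_).2 _ hl.hv hv
  · rw [mul_comm M]; exact Nat.mul_le_mul (by omega) h2
  · have h6 : 40000 + 3002 * (M * (x + l.k + 1)) ≤ l.m * M := by
      have := Nat.mul_le_mul_right M hm
      nlinarith
    have h7 : ((40000 + 3002 * (M * (x + l.k + 1)) : ℕ) : ℝ) ≤ (l.m : ℝ) * M := by exact_mod_cast h6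
    have h8 : (0 : ℝ) ≤ l.m := by positivity
    nlinarith

theorem pow_disp {a : ℕ} {z g h : G} (hg : Good0 X a z g h) (s : ℕ) :
    X.d z (g ^ s * z) ≤ max 1 (cL * s - a) := by
  have := hg.g1 (x0 ^ s)
  rwa [map_pow, ev_x0, x0, FreeGroup.norm_of_pow] at this

theorem m_tau {l : Law} (hl : l.Ok) {a : ℕ} {t : ℝ} (ha : a ≤ l.L) (h : 1 ≤ (cE : ℝ) ^ (a + 1) * t) :
    ((100000 * cP + 40000 + 3002 * l.L : ℕ) : ℝ) ≤ l.m * t := by
  have h1 : ((100000 * cP + 40000 + 3002 * l.L : ℕ) : ℝ) * cE ^ (l.L + 1) ≤ l.m := by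
    exact_mod_cast hl.hm'
  have h2 : (cE : ℝ) ^ (a + 1) ≤ cE ^ (l.L + 1) := pow_le_pow_right₀ cE_one (by omega)
  have h3 : (0 : ℝ) < cE ^ (a + 1) := pow_pos (by linarith [cE_one]) _
  have h4 : 0 < t := by
    by_contra hc
    nlinarith
  generalize ((100000 * cP + 40000 + 3002 * l.L : ℕ) : ℝ) = y at *
  have h5 : 1 ≤ (cE : ℝ) ^ (l.L + 1) * t := by nlinarith
  by_cases hy : y ≤ 0
  · have : (0 : ℝ) ≤ l.m * t := by positivity
    linarith
  · nlinarith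

theorem de_aux {d c y a : ℕ} (h : d ≤ max 1 (c - a)) (h' : c ≤ y) : d ≤ max 1 (y - a) := by omega

theorem Good0.de {a : ℕ} {z g h : G} (hg : Good0 X a z g h) :
    X.d z (eW g h * z) ≤ max 1 (aE - a) :=
  de_aux (ev_eW g h ▸ hg.g1 (eW x0 x1)) Le_le_aE

theorem Good0.early (hF : Facts) (hX : TF X E) {l : Law} (hl : l.Ok) {a : ℕ} {z g h : G}
    (hg : Good0 X a z g h) (ha : a ≤ l.L) : ∀ v ∈ Fk l.k, v ≠ 1 → 1000 ≤ X.τ (θW l.m g h v) := by
  obtain ⟨-, f2, f3, f4, f5⟩ := hl.facts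
  have he := hg.de
  refine (vis_H hF hX hl (z := z) (ω := l.L) hg.nc (by omega) (fun s hs => ?_) ?_).2
  · have := pow_disp hg s
    have := Nat.mul_le_mul_left cL hs
    omega
  · refine le_trans ?_ (m_tau hl ha hg.g2)
    exact_mod_cast (by omega)

theorem Good0.hb {l : Law} (hl : l.Ok) {a : ℕ} {z g h : G} (hg : Good0 X a z g h) (ha : l.L ≤ a) :
    HB X l.k g h z := by
  obtain ⟨-, f2, f3, f4, f5⟩ := hl.facts
  have he := hg.de
  refine ⟨hg.nc, by omega, fun s hs => ?_, (hg.g3 (by omega)).mono (by omega)⟩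
  have := pow_disp hg s
  have := Nat.mul_le_mul_left cL hs
  omega

theorem Good0.short {l : Law} (hl : l.Ok) {a : ℕ} {z g h : G} (hg : Good0 X a z g h)
    (ha : l.L ≤ a) : X.d z (g * z) ≤ 1 ∧ X.d z (h * z) ≤ 1 := by
  obtain ⟨-, f2, -⟩ := hl.facts
  have h1 := hg.g1 x0
  have h2 := hg.g1 x1
  rw [ev_x0, x0, FreeGroup.norm_of] at h1
  rw [ev_x1, x1, FreeGroup.norm_of] at h2
  have := Nat.mul_le_mul_left cL (show 1 ≤ Le + l.k + 1 by omega)
  omega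

theorem Good0.shortV {l : Law} (hl : l.Ok) {a : ℕ} {z g h : G} (hg : Good0 X a z g h)
    (ha : l.a' ≤ a) : X.d z (VW l g h * z) ≤ 1 := by
  have h1 := hg.g1 (VW l x0 x1)
  rw [ev_VW] at h1
  have := hl.ha'
  omega

theorem tau_le_of_d {g z : G} {k : ℕ} (h : X.d z (g * z) ≤ k) : X.τ g ≤ k :=
  (X.tau_le_one g z).trans (by exact_mod_cast h)

theorem Good0.start (hF : Facts) (hX : TF X E) {l : Law} (hl : l.Ok) {z g h : G}
    (hc : ¬ Commute g h) (hg : Good0 X l.L z g h) : DP X L K l l.L z g h := by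
  have h1 := hg.early hF hX hl le_rfl
  have h2 : ∀ η ∈ Hs l.k l.m g h, η ≠ 1 → 1000 ≤ X.τ η := by
    rintro _ ⟨v, hv, rfl⟩ h3
    exact h1 v hv (by rintro rfl; exact h3 (map_one _))
  have h3 := m_tau hl le_rfl hg.g2
  obtain ⟨s1, s2⟩ := hg.short hl le_rfl
  have hP : (0 : ℝ) < cP := by exact_mod_cast cP_pos
  have hL : (0 : ℝ) ≤ l.L := by positivity
  push_cast at h3
  refine ⟨fun η hη h4 => ?_, fun v hv h4 => ?_, fun h4 => ?_, fun h4 => ?_, fun h4 => ?_, fun h4 => ?_⟩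
  · have := h2 η hη h4
    have := one_le_pow₀ (n := l.L + 1) cE_one
    nlinarith
  · by_cases h5 : v = 1
    · rw [h5]; exact one_mem _
    · have := h1 v hv h5
      rw [h4, X.tau_one] at this; norm_num at this
  · have := h2 g h4 (by rintro rfl; exact hc (Commute.one_left _))
    have := tau_le_of_d s1
    push_cast at this; linarith
  · have := h2 h h4 (by rintro rfl; exact hc (Commute.one_right _))
    have := tau_le_of_d s2
    push_cast at this; linarith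
  · have : (1 : ℝ) ≤ cP := by exact_mod_cast cP_pos
    linarith
  · linarith

theorem DP.mal (hF : Facts) (hX : TF X E) {l : Law} (hl : l.Ok) {a : ℕ} {z g h : G}
    (hd : DP X L K l a z g h) (hb : HB X l.k g h z) : ∃ β, Mal X β (Hs l.k l.m g h) z := by
  by_cases h1 : l.m * X.τ (eW g h) < 100000
  · exact ⟨_, hd.d4 h1⟩
  obtain ⟨B, hB⟩ := exists_nat_ge (l.m * X.τ (eW g h))
  refine ⟨_, hF.hh G X E hX l.k l.m g h z (B + (cT + 2)) hl.hk hl.hm hb (not_lt.1 h1) ?_ (by omega)⟩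
  push_cast
  have : (0 : ℝ) ≤ cT := by positivity
  linarith

theorem n_big {l : Law} (hl : l.Ok) {a : ℕ} (ha : a ≤ l.a + 1) : cB2 * cE ^ a < l.n := by
  refine lt_of_le_of_lt (Nat.mul_le_mul ?_ (Nat.pow_le_pow_right cE_pos ha)) hl.hn'
  unfold cB3
  exact Nat.le_mul_of_pos_left _ cE_pos

theorem DP.V_ne (hA : Adm L) {j : ι} {a : ℕ} {z g h : G} (hd : DP X L K (L j) a z g h)
    (ha : a ≤ (L j).a + 1) : VW (L j) g h ≠ 1 := by
  intro h1
  unfold VW at h1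
  refine hA.new j (Verb_mono L (fun j' hj' => ?_) (hd.d2 _ (hA.ok j).hv h1))
  exact lt_of_le_of_lt hj' (n_big (hA.ok j) ha)

theorem pi_big {l : Law} (hl : l.Ok) {a : ℕ} {t : ℝ} (ha : a ≤ l.a) (h : 1 ≤ (cE : ℝ) ^ (a + 1) * t) :
    (cB3 : ℝ) < l.n * t := by
  have h1 : (cB3 : ℝ) * cE ^ (l.a + 1) < l.n := by exact_mod_cast hl.hn'
  have h2 : (cE : ℝ) ^ (a + 1) ≤ cE ^ (l.a + 1) := pow_le_pow_right₀ cE_one (by omega)
  have h3 : (0 : ℝ) < cE ^ (a + 1) := pow_pos (by linarith [cE_one]) _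
  have h4 : 0 < t := by
    by_contra hc
    nlinarith
  have h5 : 1 ≤ (cE : ℝ) ^ (l.a + 1) * t := by nlinarith
  have h6 : (0 : ℝ) ≤ cB3 := by positivity
  nlinarith

theorem pi_big' {l : Law} (hl : l.Ok) {t : ℝ} (h : 1000 ≤ t) : (cB3 : ℝ) < l.n * t :=
  pi_big hl (Nat.zero_le _) (by have := cE_one; rw [zero_add, pow_one]; nlinarith)

theorem Good.win (hF : Facts) (hX : TF X E) (hA : Adm L) {j : ι} {a : ℕ} {z g h : G}
    (hg : Good X L K a z g h) (hπ : (L j).n * X.τ (VW (L j) g h) ≤ cB3) : (L j).a < a := by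
  by_contra ha
  have hl := hA.ok j
  by_cases h1 : a ≤ (L j).L
  · have := hg.toGood0.early hF hX hl h1 _ hl.hv (hA.v_ne j)
    have h2 := pi_big' hl this
    unfold VW at hπ
    linarith
  · have hd := hg.g4 j (by omega)
    have := pi_big hl (not_lt.1 ha) (hd.d1 _ (VW_mem hl g h) (hd.V_ne hA (by omega)))
    linarith

theorem Good.nb (hA : Adm L) {j : ι} {a : ℕ} {z g h : G} (hg : Good X L K a z g h)
    (ha : (L j).a ≤ a) : NB X (L j) g h z := by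
  have hl := hA.ok j
  have h1 : (L j).a' ≤ a := le_trans (by unfold Law.a; omega) ha
  obtain ⟨s1, s2⟩ := hg.toGood0.short hl (hl.ha.trans h1)
  obtain ⟨t1, t2, t3⟩ := hg.g5 j h1
  exact ⟨s1, s2, hg.toGood0.shortV hl h1, t1.mono (by omega), t2, t3⟩

theorem tame_start (hX : X.FP 2) {u z : G} {a : ℕ} (h1 : X.d z (u * z) ≤ 1)
    (h2 : 1 ≤ (cE : ℝ) ^ (a + 1) * X.τ u) : Tame X u z (37 * cE ^ (a + 1) + 52) := by
  refine (tame_of_pow hX z (n₀ := 37 * cE ^ (a + 1)) (by push_cast; linarith)).mono ?_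
  have := X.orbit_le u z (37 * cE ^ (a + 1))
  have := Nat.mul_le_mul_left (37 * cE ^ (a + 1)) h1
  omega

theorem g5_start (hF : Facts) (hX : TF X E) (hA : Adm L) {j : ι} {z g h : G}
    (hg : Good0 X (L j).a' z g h) (hd : DP X L K (L j) (L j).a' z g h) :
    Tame X (VW (L j) g h) z (cT + ((L j).a - (L j).a')) ∧
    ¬ Commute g (VW (L j) g h) ∧ ¬ Commute h (VW (L j) g h) := by
  have hl := hA.ok j
  have h1 := hd.V_ne hA (by unfold Law.a; omega)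
  have h2 := VW_mem hl g h
  obtain ⟨β, hβ⟩ := hd.mal hF hX hl (hg.hb hl hl.ha)
  refine ⟨(tame_start hX.fp (hg.shortV hl le_rfl) (hd.d1 _ h2 h1)).mono (by unfold Law.a; omega),
    fun hc => hd.d3 (hβ.inf h2 (hX.pos h1) ?_), fun hc => hd.d3' (hβ.inf h2 (hX.pos h1) ?_)⟩
  · rwa [hc.eq, mul_inv_cancel_right]
  · rwa [hc.eq, mul_inv_cancel_right]

theorem good_birth (hF : Facts) (hX : TF X E) (hA : Adm L) {g h z₀ : G} (hc : ¬ Commute g h)
    (hμ : 1 ≤ cE0 * mu X g h) (h1 : X.d z₀ (g * z₀) ≤ 80000 * cP) (h2 : X.d z₀ (h * z₀) ≤ 80000 * cP) :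
    ∃ z, Good X L K 0 z g h := by
  obtain ⟨z, M, m1, m2, m3, m4, m5, m6⟩ := hF.a0 G X E hX g h hc hμ
  have h3 : X.d z₀ (h * g⁻¹ * z₀) ≤ 160000 * cP := by
    have := X.tri z₀ (h * z₀) (h * g⁻¹ * z₀)
    rw [mul_assoc, Nm.d_mul, Nm.d_inv_self] at this
    rw [mul_assoc]; omega
  have hP : (1 : ℝ) ≤ cP := by exact_mod_cast cP_pos
  have h4 : mu X g h ≤ 160000 * cP := by
    have a1 := tau_le_of_d h1
    have a2 := tau_le_of_d h2
    have a3 := tau_le_of_d h3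
    push_cast at a1 a2 a3
    exact max_le (by linarith) (max_le (by linarith) a3)
  have h5 : M ≤ cL := by
    have : (M : ℝ) ≤ 200000 * cP := by linarith
    unfold cL; exact_mod_cast this
  have hM : (1 : ℝ) ≤ M := by exact_mod_cast m1
  refine ⟨z, ⟨fun u => ?_, ?_, m5, fun h => absurd h (by have := aE_pos; omega)⟩,
    fun j h => absurd h (by have := (hA.ok j).facts.2.2.2.2; omega),
    fun j h => absurd h (by have := (hA.ok j).facts.2.2.2.2; have := (hA.ok j).ha; omega)⟩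
  · have := ev_disp X (m2.trans h5) (m3.trans h5) u
    omega
  · have := cE_one
    rw [zero_add, pow_one]; nlinarith

end Pool.Agent.MP_5c28a4_al.H89
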