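import Pool.Agent.MP_5c28a4_al.H89.Step

set_option autoImplicit false

namespace Pool.Agent.MP_5c28a4_al.H89

open Pool.Agent.Burnside6

variable {G : Type} [Group G] {ι : Type}
variable {X : Nm G} {L : ι → Law} {Done K : ι → G → G → Prop}

theorem rW_mem {H : Subgroup G} {g h : G} (l : Law) (hg : g ∈ H) (hh' : h ∈ H) : rW l g h ∈ H :=
  ev_rW l g h ▸ ev_mem hg hh' _

theorem VW_mem' {H : Subgroup G} {g h : G} (l : Law) (hg : g ∈ H) (hh' : h ∈ H) : VW l g h ∈ H :=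
  ev_VW l g h ▸ ev_mem hg hh' _

theorem cB2_le : (cB2 : ℝ) ≤ cB3 := by norm_num [cB3, cB2, cB1, cE]

theorem Geo.nb (hF : Facts) (hG : Geo X L Done K) (hA : Adm L) {j : ι} {g h : G}
    (hc : ¬ Commute g h) (hπ : (L j).n * X.τ (VW (L j) g h) ≤ cB3) : ∃ z, NB X (L j) g h z := by
  obtain ⟨E, -, hX⟩ := hG.tf
  rcases hG.pr g h hc with h1 | ⟨a, z, h1⟩
  · exact absurd (pi_big' (hA.ok j) (young hF hX (hA.ok j) (hA.v_ne j) hc h1)) (not_lt.2 hπ)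
  · exact ⟨z, h1.nb hA (h1.win hF hX hA hπ).le⟩

theorem le_two (n : ℕ) : n ≤ 2 * n + 2 := by omega

theorem norm_comm (u : F) : FreeGroup.norm (x0 * u * x0⁻¹ * u⁻¹) ≤ 2 * FreeGroup.norm u + 2 := by
  have a1 := FreeGroup.norm_mul_le (x0 * u * x0⁻¹) u⁻¹
  have a2 := FreeGroup.norm_mul_le (x0 * u) x0⁻¹
  have a3 := FreeGroup.norm_mul_le x0 u
  rw [FreeGroup.norm_inv_eq] at a1 a2
  have a4 : FreeGroup.norm x0 = 1 := FreeGroup.norm_of _
  omega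

theorem ev_comm (g h : G) (u : F) :
    ev g h (x0 * u * x0⁻¹ * u⁻¹) = g * ev g h u * g⁻¹ * (ev g h u)⁻¹ := by simp

theorem cA_aux (x y a : ℕ) (hy : y = 37 * cE ^ (x + 1) + 52) (hx : x = a) :
    37 * cE ^ (a + 1) + 52 ≤ cT + (y + x - a) := by
  subst hx hy; omega

theorem pow_step {a : ℕ} {t t' : ℝ} (h : 1 ≤ (cE : ℝ) ^ (a + 1) * t) (h' : min t cP ≤ cE * t') :
    1 ≤ (cE : ℝ) ^ (a + 1 + 1) * t' := by
  have h1 := one_le_pow₀ (n := a + 1) cE_one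
  have h2 : (1 : ℝ) ≤ cP := by exact_mod_cast cP_pos
  have h3 : 1 ≤ (cE : ℝ) ^ (a + 1) * min t cP := by
    rw [mul_min_of_nonneg _ _ (by linarith)]; exact le_min h (by nlinarith)
  rw [pow_succ _ (a + 1), mul_assoc]
  exact h3.trans (mul_le_mul_of_nonneg_left h' (by linarith))

namespace SC

variable (S : SC X L K) (κ : Kill S.c)

/-- the relators of the next stage -/
def K' (Done : ι → G → G → Prop) (j : ι) (p q : G ⧸ κ.K) : Prop :=
  ∃ g h : G, (g : G ⧸ κ.K) = p ∧ (h : G ⧸ κ.K) = q ∧ ¬ Commute g h ∧ ¬ Done j g h ∧ ¬ K j g h ∧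
    (L j).n * X.τ (VW (L j) g h) ≤ cB2

theorem mk_eW (g h : G) : ((eW g h : G) : G ⧸ κ.K) = eW (g : G ⧸ κ.K) h :=
  map_eW (QuotientGroup.mk' κ.K) g h

theorem mk_VW (l : Law) (g h : G) : ((VW l g h : G) : G ⧸ κ.K) = VW l (g : G ⧸ κ.K) h :=
  map_VW (QuotientGroup.mk' κ.K) l g h

theorem mk_rW (l : Law) (g h : G) : ((rW l g h : G) : G ⧸ κ.K) = rW l (g : G ⧸ κ.K) h :=
  map_rW (QuotientGroup.mk' κ.K) l g h

theorem mk_Hs (k m : ℕ) (g h : G) :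
    (Hs k m g h).map (QuotientGroup.mk' κ.K) = Hs k m (g : G ⧸ κ.K) h := map_Hs _ k m g h

theorem mk_zp (l : Law) (g h : G) : (Subgroup.zpowers (rW l g h)).map (QuotientGroup.mk' κ.K) =
    Subgroup.zpowers (rW l (g : G ⧸ κ.K) h) := by
  rw [MonoidHom.map_zpowers, map_rW]; rfl

theorem good0_tr {E : ℕ} (hX : TF X E) {a : ℕ} {z g h : G} (hg : Good0 X a z g h) :
    Good0 (S.X' κ) (a + 1) z g h := by
  have h1 : ∀ u : F, (S.X' κ).d z (ev (g : G ⧸ κ.K) h u * z) ≤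
      max 1 (cL * FreeGroup.norm u - (a + 1)) := fun u => by
    have := S.d_le κ (hg.g1 u)
    rwa [Nat.sub_sub, QuotientGroup.mk_mul, show ((ev g h u : G) : G ⧸ κ.K) = ev (g : G ⧸ κ.K) h u
      from map_ev (QuotientGroup.mk' κ.K) g h u] at this
  have he : eW g h ≠ 1 := fun h => hg.nc (h ▸ Commute.one_right g)
  have h2 := pow_step hg.g2 (S.TR1 κ he
    (ev_eW g h ▸ (hg.g1 (eW x0 x1)).trans (cM_ge (le_two _) a)) cM_le)
  rw [S.mk_eW] at h2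
  have h3 : ¬ Commute (g : G ⧸ κ.K) (eW (g : G ⧸ κ.K) h) := by
    have h4 := hg.nc
    rw [← comm_iff] at h4
    have h5 := (hg.g1 (x0 * eW x0 x1 * x0⁻¹ * (eW x0 x1)⁻¹)).trans (cM_ge (norm_comm _) a)
    rw [ev_comm, ev_eW] at h5
    rw [← comm_iff, ← S.mk_eW]
    exact S.ne_of_min κ hX h4 (S.TR1 κ h4 h5 cM_le)
  refine ⟨h1, h2, h3, fun h4 => ?_⟩
  rcases Nat.eq_or_lt_of_le h4 with h5 | h5
  · have h6 := de_aux (ev_eW (g : G ⧸ κ.K) h ▸ h1 (eW x0 x1)) Le_le_aE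
    exact (tame_start (S.tf' κ).fp (by omega) h2).mono (cA_aux aE cA (a + 1) cA_eq h5)
  · have h6 := hg.de
    have := S.tame_tr κ hX he (by omega) (hg.g3 (by omega))
    rwa [S.mk_eW, Nat.sub_sub] at this

theorem dp_tr (hF : Facts) (hG : Geo X L Done K) (hA : Adm L) {l : Law} (hl : l.Ok) {a : ℕ}
    {z g h : G} (hb : HB X l.k g h z) (hg : X.d z (g * z) ≤ 1) (hh' : X.d z (h * z) ≤ 1)
    (hd : DP X L K l a z g h) : DP (S.X' κ) L (S.K' κ Done) l (a + 1) z g h := by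
  obtain ⟨E, -, hX⟩ := hG.tf
  have A0 := S.AF_H hF hl hb hd
  have hI : ∀ v, S.c.In v → (∃ j' g' h', K j' g' h' ∧ v = rW (L j') g' h' ∧
      g' ∈ Hs l.k l.m g h ∧ h' ∈ Hs l.k l.m g h) → v ∈ Hs l.k l.m g h := by
    rintro _ - ⟨j', g', h', -, rfl, h1, h2⟩
    exact rW_mem _ h1 h2
  have A1 := A0.mono hI
  have hcl : Subgroup.closure {v | S.c.In v ∧ ∃ j' g' h', K j' g' h' ∧ v = rW (L j') g' h' ∧
      g' ∈ Hs l.k l.m g h ∧ h' ∈ Hs l.k l.m g h} ≤ Hs l.k l.m g h := by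
    rw [Subgroup.closure_le]; exact fun v hv => hI v hv.1 hv.2
  have out : ∀ y : G, X.d z (y * z) ≤ 1 → (y : G ⧸ κ.K) ∈ Hs l.k l.m (g : G ⧸ κ.K) h →
      y ∈ Hs l.k l.m g h := by
    intro y h1 h2
    rw [← S.mk_Hs] at h2
    obtain ⟨η, h3, h4⟩ := h2
    obtain ⟨ρ, h5, rfl⟩ := κ.T0 A0 hI h3 ((S.dY_le _ _).trans (h1.trans (by norm_num))) h4
    exact mul_mem (hcl h5) h3
  have he : eW g h ≠ 1 := fun h => hb.nc (h ▸ Commute.one_right g)
  have hτ := S.TR4 κ he (hb.de.trans (by norm_num))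
  rw [S.mk_eW] at hτ
  have hm : (0 : ℝ) ≤ l.m := by positivity
  refine ⟨fun η h1 h2 => ?_, fun v hv h1 => ?_, fun h1 => hd.d3 (out g hg h1),
    fun h1 => hd.d3' (out h hh' h1), fun h1 t ht => ?_, ?_⟩
  · rw [← S.mk_Hs] at h1
    obtain ⟨η, h1, rfl⟩ := h1
    obtain ⟨β, hβ⟩ := hd.mal hF hX hl hb
    rcases κ.T2 (β := β + 2) A1 (fun t ht => hβ t (by
      rw [S.hX] at ht
      exact (ht.scale_down cP_pos).mono (Nat.le_mul_of_pos_left _ cP_pos))) h1 h2 with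
      h3 | ⟨u, h3, h4, h5⟩
    · refine pow_step (t := cP) ?_ ?_
      · have : (1 : ℝ) ≤ cP := by exact_mod_cast cP_pos
        nlinarith [one_le_pow₀ (n := a + 1) cE_one]
      · rw [min_self, cE_eq, mul_assoc, mul_assoc, S.tauQ]
        exact le_mul_of_one_le_right (by positivity) h3
    · exact pow_step (hd.d1 u h3 h4) ((min_le_left _ _).trans (S.tau_up κ h5))
  · have h2 : ((θW l.m g h v : G) : G ⧸ κ.K) = (1 : G) :=
      (map_θW (QuotientGroup.mk' κ.K) l.m g h v).trans h1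
    obtain ⟨ρ, h3, h4⟩ := κ.T0 A0 hI (η := θW l.m g h v) ⟨v, hv, rfl⟩ (by simp) h2
    obtain ⟨ρ₀, r1, r2, rfl⟩ : ∃ ρ₀ ∈ Fk l.k, ρ₀ ∈ Verb L {j' | (L j').n ≤ cB2 * cE ^ (a + 1)} ∧
        θW l.m g h ρ₀ = ρ := by
      clear h4
      induction h3 using Subgroup.closure_induction with
      | mem _ h5 =>
        obtain ⟨-, j', _, _, hk, rfl, h6, h7⟩ := h5
        obtain ⟨-, k2, k3, -⟩ := hG.k1 _ _ _ hk
        have k4 := hd.d1 _ (VW_mem' (L j') h6 h7) k2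
        obtain ⟨u, u1, rfl⟩ := h6
        obtain ⟨u', u2, rfl⟩ := h7
        refine ⟨rW (L j') u u', rW_mem _ u1 u2, Subgroup.subset_closure ⟨j', ?_, u, u', rfl⟩,
          map_rW _ _ _ _⟩
        have k5 : ((L j').n : ℝ) ≤ cB2 * cE ^ (a + 1) := by
          have : (0 : ℝ) ≤ (L j').n := by positivity
          have : (0 : ℝ) ≤ (cE : ℝ) ^ (a + 1) := by positivity
          nlinarith
        change (L j').n ≤ _
        exact_mod_cast k5
      | one => exact ⟨1, one_mem _, one_mem _, map_one _⟩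
      | mul _ _ _ _ h5 h6 =>
        obtain ⟨u, u1, u2, rfl⟩ := h5
        obtain ⟨u', u3, u4, rfl⟩ := h6
        exact ⟨u * u', mul_mem u1 u3, mul_mem u2 u4, map_mul _ _ _⟩
      | inv _ _ h5 =>
        obtain ⟨u, u1, u2, rfl⟩ := h5
        exact ⟨u⁻¹, inv_mem u1, inv_mem u2, map_inv _ _⟩
    have h5 := Verb_mono L (S' := {j' | (L j').n ≤ cB2 * cE ^ (a + 1)})
      (fun j' hj' => le_trans hj' (Nat.mul_le_mul_left _ (Nat.pow_le_pow_right cE_pos (by omega))))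
      (hd.d2 _ (mul_mem r1 hv) (by rw [map_mul, h4]))
    simpa using mul_mem (inv_mem r2) h5
  · rw [← S.mk_Hs] at ht ⊢
    obtain ⟨t₁, rfl, h2⟩ := S.t_ov κ (b := cβ1 - 2) (γ := 300000000000000000000) A1 A1
      (by norm_num [cR, cβ1]) (ht.mono (by norm_num [cβ1]))
    refine Subgroup.mem_map_of_mem _ ?_
    by_cases h3 : l.m * X.τ (eW g h) < 100000
    · exact hd.d4 h3 t₁ (h2.mono (by norm_num [cβ1, cP]))
    · refine hF.hh G X E hX l.k l.m g h z (cE * 100000) hl.hk hl.hm hb (not_lt.1 h3) ?_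
        (by norm_num [cT, cE]) t₁ (h2.mono (by norm_num [cE, cP]))
      push_cast
      nlinarith [cE_one]
  · rintro - j' _ _ ⟨g', h', rfl, rfl, k1, k2, k3, k4⟩ ho
    have hl' := hA.ok j'
    obtain ⟨z', hz'⟩ := hG.nb hF hA k1 (k4.trans cB2_le)
    have k5 := ((hG.w j' g' h' k1).resolve_left k2).resolve_left k3
    have h1 := ho z'
    rw [← S.mk_Hs, ← S.mk_zp] at h1
    obtain ⟨t₁, h2, h3⟩ := S.t_ov κ (b := cβK - 2) (γ := 1000 * cP * cR) A1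
      (S.AF_R hF hG hA k1 k2 k3 hz' _) (by norm_num [cR, cβK, cP]) (h1.mono (by norm_num [cβK, cP]))
    replace h3 := h3.mono (β' := 1000 * cB2) (by norm_num [cR, cB2, cB1, cE, cP])
    by_cases h4 : l.m * X.τ (eW g h) < 100000
    · obtain ⟨h5, h6⟩ := hF.ha G X E hX _ z cβ1 (L j') g' h' z' t₁ cB2 (hd.d4 h4) hl'.hn hz'
        (by norm_num [cβ1]) (le_trans (by norm_num [cβ1, cB1]) k5.le) k4
        (by norm_num [cT, cB2, cB1, cE]) h3
      have h7 := (QuotientGroup.eq_one_iff _).1 h2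
      rw [← S.mk_Hs, ← κ.mk_conj h7 g', ← κ.mk_conj h7 h']
      exact ⟨Subgroup.mem_map_of_mem _ h5, Subgroup.mem_map_of_mem _ h6⟩
    · exact absurd h3 (hF.hr G X E hX l.k l.m g h z (L j') g' h' z' t₁ cB2 hl.hk hl.hm hb
        (not_lt.1 h4) hl'.hn hz' (le_trans (by norm_num [cB1]) k5.le) k4
        (by norm_num [cT, cB2, cB1, cE]))

theorem good_tr (hF : Facts) (hG : Geo X L Done K) (hA : Adm L) {a : ℕ} {z g h : G}
    (hc : ¬ Commute (g : G ⧸ κ.K) h) (hg : Good X L K a z g h) :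
    Good (S.X' κ) L (S.K' κ Done) (a + 1) z g h := by
  obtain ⟨E, -, hX⟩ := hG.tf
  have h0 := S.good0_tr κ hX hg.toGood0
  have h4 : ∀ j, (L j).L ≤ a + 1 → DP (S.X' κ) L (S.K' κ Done) (L j) (a + 1) z g h := by
    intro j hj
    have hl := hA.ok j
    rcases Nat.eq_or_lt_of_le hj with h1 | h1
    · rw [← h1] at h0 ⊢
      exact h0.start hF (S.tf' κ) hl hc
    · obtain ⟨s1, s2⟩ := hg.toGood0.short hl (by omega)
      exact S.dp_tr κ hF hG hA hl (hg.toGood0.hb hl (by omega)) s1 s2 (hg.g4 j (by omega))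
  refine ⟨h0, h4, fun j hj => ?_⟩
  have hl := hA.ok j
  rcases Nat.eq_or_lt_of_le hj with h1 | h1
  · have h2 := h4 j (hl.ha.trans hj)
    rw [← h1] at h0 h2 ⊢
    exact g5_start hF (S.tf' κ) hA h0 h2
  · have := hl.ha
    obtain ⟨s1, s2⟩ := hg.toGood0.short hl (by omega)
    have s3 := hg.toGood0.shortV hl (by omega)
    obtain ⟨t1, t2, t3⟩ := hg.g5 j (by omega)
    rw [← S.mk_VW, ← Nat.sub_sub]
    exact ⟨S.tame_tr κ hX (fun h => t2 (h ▸ Commute.one_right g)) s3 t1, S.nc4 κ hX t2 s1 s3,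
      S.nc4 κ hX t3 s2 s3⟩

theorem lift_good (hF : Facts) (hG : Geo X L Done K) (hA : Adm L) {p q : G ⧸ κ.K}
    (hc : ¬ Commute p q) : 1 ≤ cE0 * mu (S.X' κ) p q ∨ ∃ (a : ℕ) (z g h : G), (g : G ⧸ κ.K) = p ∧
      (h : G ⧸ κ.K) = q ∧ ¬ Commute g h ∧ Good X L K a z g h ∧
      Good (S.X' κ) L (S.K' κ Done) (a + 1) z p q := by
  obtain ⟨E, -, hX⟩ := hG.tf
  by_cases h1 : 1 ≤ cE0 * mu (S.X' κ) p q
  · exact Or.inl h1
  right
  have key : ∀ y, (S.X' κ).τ y ≤ mu (S.X' κ) p q → 6000000 * κ.Q.τ y < 1 := fun y hy => by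
    rw [← S.tauQ, ← mul_assoc, ← cE0_eq]
    exact lt_of_le_of_lt (mul_le_mul_of_nonneg_left hy (by positivity)) (not_le.1 h1)
  obtain ⟨g, h, z₀, rfl, rfl, h2, h3⟩ := κ.pair_lift (p := p) (q := q)
    (by rintro rfl; exact hc (Commute.one_left _)) (by rintro rfl; exact hc (Commute.one_right _))
    (key _ (le_max_left _ _)) (key _ ((le_max_left _ _).trans (le_max_right _ _)))
    (key _ ((le_max_right _ _).trans (le_max_right _ _)))
  have h4 : ¬ Commute g h := fun h => hc (h.map (QuotientGroup.mk' κ.K))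
  obtain ⟨a, z, h5⟩ : ∃ a z, Good X L K a z g h := by
    rcases hG.pr g h h4 with h5 | h5
    · exact ⟨0, good_birth hF hX hA h4 h5 ((S.dY _ _ _).1 h2) ((S.dY _ _ _).1 h3)⟩
    · exact h5
  exact ⟨a, z, g, h, rfl, rfl, h4, h5, S.good_tr κ hF hG hA hc h5⟩

theorem lift_nb (hF : Facts) (hG : Geo X L Done K) (hA : Adm L) {j : ι} {p q : G ⧸ κ.K}
    (hc : ¬ Commute p q) (hπ : (L j).n * (S.X' κ).τ (VW (L j) p q) ≤ cB3) :
    ∃ z g h : G, (g : G ⧸ κ.K) = p ∧ (h : G ⧸ κ.K) = q ∧ ¬ Commute g h ∧ NB X (L j) g h z := by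
  rcases S.lift_good κ hF hG hA hc with h1 | ⟨a, z, g, h, h1, h2, h3, h4, h5⟩
  · exact absurd (pi_big' (hA.ok j) (young hF (S.tf' κ) (hA.ok j) (hA.v_ne j) hc h1)) (not_lt.2 hπ)
  · exact ⟨z, g, h, h1, h2, h3, h4.nb hA (Nat.le_of_lt_succ (h5.win hF (S.tf' κ) hA hπ))⟩

theorem next (hF : Facts) (hG : Geo X L Done K) (hA : Adm L)
    {Done' : ι → G ⧸ κ.K → G ⧸ κ.K → Prop}
    (h1 : ∀ j (g h : G), Done j g h ∨ K j g h → Done' j g h)
    (dc : ∀ j g h y, Done' j g h → Done' j (y * g * y⁻¹) (y * h * y⁻¹))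
    (dr : ∀ j g h, Done' j g h → rW (L j) g h = 1) : Geo (S.X' κ) L Done' (S.K' κ Done) := by
  obtain ⟨E, -, hX⟩ := hG.tf
  refine ⟨⟨_, Nat.mul_pos S.hE (by norm_num [cR]), S.tf' κ⟩, dc, dr, ?_, ?_, ?_, ?_, ?_⟩
  · rintro j _ _ y ⟨g, h, rfl, rfl, k1, k2, k3, k4⟩
    obtain ⟨y, rfl⟩ := QuotientGroup.mk_surjective y
    refine ⟨y * g * y⁻¹, y * h * y⁻¹, rfl, rfl, by rwa [commute_conj_conj], fun hd => k2 ?_,
      fun hk => k3 ?_, by rwa [conj_VW, X.tau_conj]⟩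
    · simpa [mul_assoc] using hG.dc _ _ _ y⁻¹ hd
    · simpa [mul_assoc] using hG.kc _ _ _ y⁻¹ hk
  · rintro j _ _ ⟨g, h, rfl, rfl, k1, k2, k3, k4⟩
    obtain ⟨z, hz⟩ := hG.nb hF hA k1 (k4.trans cB2_le)
    rw [← S.mk_VW, ← S.mk_rW]
    refine ⟨S.nc4 κ hX k1 hz.dg hz.dh, S.ne4 κ hX (fun h => hz.ng (h ▸ Commute.one_right g))
      (hz.dV.trans (by norm_num)),
      le_trans (mul_le_mul_of_nonneg_left (S.tau_le' κ _) (by positivity)) k4, ?_⟩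
    have a1 := (r_tame hF hX (hA.ok j) hz (((hG.w j g h k1).resolve_left k2).resolve_left k3)).2
    have a2 := S.tau_up κ (κ.TR2 (S.AF_R hF hG hA k1 k2 k3 hz _))
    exact le_of_mul_le_mul_left (a1.trans a2) (by linarith [cE_one])
  · rintro j _ _ j' p' q' ⟨g, h, rfl, rfl, k1, k2, k3, k4⟩ hc hd hπ ho
    obtain ⟨z, hz⟩ := hG.nb hF hA k1 (k4.trans cB2_le)
    obtain ⟨z', g', h', rfl, rfl, k1', hz'⟩ := S.lift_nb κ hF hG hA hc (hπ.trans cB2_le)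
    have k2' : ¬ Done j' g' h' := fun h => hd (h1 _ _ _ (Or.inl h))
    have k3' : ¬ K j' g' h' := fun h => hd (h1 _ _ _ (Or.inr h))
    have k5 := ((hG.w j g h k1).resolve_left k2).resolve_left k3
    have k5' := ((hG.w j' g' h' k1').resolve_left k2').resolve_left k3'
    have h2 := ho z z'
    rw [← S.mk_zp, ← S.mk_zp] at h2
    obtain ⟨t₁, h3, h4⟩ := S.t_ov κ (b := cβK - 2) (γ := 1000 * cP * cR)
      (S.AF_R hF hG hA k1 k2 k3 hz _) (S.AF_R hF hG hA k1' k2' k3' hz' _)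
      (by norm_num [cR, cβK, cP]) (h2.mono (by norm_num [cβK, cP]))
    obtain ⟨h5, y, h6, h7, h8⟩ := hF.rr G X E hX (L j) (L j') g h z g' h' z' t₁ cB2
      (fun h => by rw [hA.inj h]) (hA.ok j).hn (hA.ok j').hn hz hz'
      (le_trans (by norm_num [cB1]) k5.le) k4 (by norm_num [cT, cB2, cB1, cE])
      (le_trans (by norm_num [cB1]) k5'.le) (h4.mono (by norm_num [cR, cB2, cB1, cE, cP]))
    have h9 := (QuotientGroup.eq_one_iff _).1 h3
    refine ⟨(hA.inj h5).symm, y, ?_, ?_, ?_⟩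
    · rw [← S.mk_zp]; exact Subgroup.mem_map_of_mem _ h6
    · rw [← κ.mk_conj h9 g', h7]; rfl
    · rw [← κ.mk_conj h9 h', h8]; rfl
  · intro j p q hc
    by_cases hπ : (cB1 : ℝ) < (L j).n * (S.X' κ).τ (VW (L j) p q)
    · exact Or.inr (Or.inr hπ)
    obtain ⟨z, g, h, rfl, rfl, k1, hz⟩ := S.lift_nb κ hF hG hA hc
      ((not_lt.1 hπ).trans (cB1_le.trans cB2_le))
    by_cases h2 : Done j g h ∨ K j g h
    · exact Or.inl (h1 _ _ _ h2)
    refine Or.inr (Or.inl ⟨g, h, rfl, rfl, k1, fun h => h2 (Or.inl h), fun h => h2 (Or.inr h), ?_⟩)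
    have h3 := S.TR4 κ (g := VW (L j) g h) (fun h => hz.ng (h ▸ Commute.one_right g))
      (hz.dV.trans (by norm_num))
    rw [S.mk_VW] at h3
    have : (0 : ℝ) ≤ (L j).n := by positivity
    rw [cB2_eq]
    nlinarith [cE_one]
  · intro p q hc
    rcases S.lift_good κ hF hG hA hc with h2 | ⟨a, z, -, -, -, -, -, -, h2⟩
    · exact Or.inl h2
    · exact Or.inr ⟨_, _, h2⟩

end SC

end Pool.Agent.MP_5c28a4_al.H89
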