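import Pool.Agent.MP_5c28a4_al.H89.Base

set_option autoImplicit false

namespace Pool.Agent.MP_5c28a4_al.H89

open Pool.Agent.Burnside6

variable {G : Type} [Group G]

namespace Fam

variable {E : ℕ} (c : Fam G E)

open Classical in
noncomputable def π₀ (v : G) : G :=
  if h : c.In v then Function.argminOn c.X.ν {y | c.Y v y} (c.ex _ h) else 1

noncomputable def π (v x : G) : G := x * c.π₀ (x⁻¹ * v * x)

noncomputable def s (v x y : G) : ℤ := c.ι v (c.π v y) - c.ι v (c.π v x)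

noncomputable def D (v x y : G) : ℕ := c.X.d (c.π v x) (c.π v y)

variable {c}

theorem fp (c : Fam G E) : c.X.FP 2 := c.st.fp

theorem Y_conj' {v g y : G} : c.Y (g * v * g⁻¹) (g * y) ↔ c.Y v y :=
  ⟨fun h => by simpa [mul_assoc] using c.Y_conj _ g⁻¹ _ h, c.Y_conj v g y⟩

theorem Y_mul {v g y : G} : c.Y v (g * y) ↔ c.Y (g⁻¹ * v * g) y := by
  rw [← Y_conj' (g := g) (v := g⁻¹ * v * g)]; simp [mul_assoc]

theorem Y.In {v y : G} (h : c.Y v y) : c.In v := c.Y_In v y h

theorem In.conj {v : G} (h : c.In v) (g : G) : c.In (g * v * g⁻¹) := by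
  obtain ⟨y, hy⟩ := c.ex v h
  exact (Y_conj'.2 hy).In

theorem In.conj' {v : G} (h : c.In v) (g : G) : c.In (g⁻¹ * v * g) := by
  simpa using h.conj g⁻¹

theorem In.N_conj' {v : G} (h : c.In v) (g : G) : c.N (g⁻¹ * v * g) = c.N v := by
  simpa using c.N_conj v g⁻¹ h

theorem Y.comm {v y g : G} (h : c.Y v y) (hg : Commute g v) : c.Y v (g * y) := by
  rw [Y_mul, mul_assoc, ← hg.eq]; simpa using h

theorem Y.zpow {v y : G} (h : c.Y v y) (j : ℤ) : c.Y v (v ^ j * y) :=
  h.comm ((Commute.refl v).zpow_left j)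

theorem Y.ι_zpow {v y : G} (h : c.Y v y) (j : ℤ) : c.ι v (v ^ j * y) = c.ι v y + c.N v * j := by
  induction j using Int.induction_on with
  | zero => simp
  | succ i ih =>
    have := c.shift v _ (h.zpow i)
    rw [← mul_assoc, ← zpow_one_add, add_comm (1 : ℤ)] at this
    rw [this, ih]; ring
  | pred i ih =>
    have := c.shift v _ (h.zpow (-i - 1))
    rw [← mul_assoc, ← zpow_one_add, show (1 : ℤ) + (-i - 1) = -i by ring, ih] at this
    linarith

theorem In.lox {v : G} (h : c.In v) : 2 ≤ E * c.θ v := c.lox v h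

theorem In.pos {v : G} (h : c.In v) : 0 < c.θ v := by
  have := h.lox
  by_contra hc
  have : E * c.θ v ≤ 0 := mul_nonpos_of_nonneg_of_nonpos (by positivity) (not_lt.1 hc)
  linarith

theorem In.E_pos {v : G} (hv : c.In v) : 0 < E := by
  have := hv.lox
  rcases Nat.eq_zero_or_pos E with rfl | h
  · norm_num at this
  · exact h

theorem In.cent {v a : G} (h : c.In v) (ha : Commute a v) : ∃ j : ℤ, a = v ^ j := by
  obtain ⟨j, hj⟩ := c.cent v a h ha
  exact ⟨j, hj.symm⟩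

theorem In.π_Y {v : G} (h : c.In v) (x : G) : c.Y v (c.π v x) := by
  unfold π π₀
  rw [dif_pos (h.conj' x), Y_mul]
  exact Function.argminOn_mem c.X.ν {y | c.Y (x⁻¹ * v * x) y} _

theorem Y.π_le {v y : G} (h : c.Y v y) (x : G) : c.X.d x (c.π v x) ≤ c.X.d x y := by
  unfold π π₀
  rw [dif_pos (h.In.conj' x)]
  simp only [Nm.d, inv_mul_cancel_left]
  apply Function.argminOn_le c.X.ν {y | c.Y (x⁻¹ * v * x) y}
  change c.Y _ _
  rw [← Y_mul]; simpa using h

theorem Y.π_eq {v y : G} (h : c.Y v y) : c.π v y = y := by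
  have := h.π_le y
  rw [Nm.d_self] at this
  exact (c.X.eq_of_d (Nat.le_zero.1 this)).symm

theorem π_mul (v g x : G) : c.π v (g * x) = g * c.π (g⁻¹ * v * g) x := by
  unfold π
  rw [show (g * x)⁻¹ * v * (g * x) = x⁻¹ * (g⁻¹ * v * g) * x by group, mul_assoc]

theorem π_comm {v g : G} (h : Commute g v) (x : G) : c.π v (g * x) = g * c.π v x := by
  rw [π_mul, mul_assoc, ← h.eq]; simp

theorem In.s_add {v : G} (_h : c.In v) (x y z : G) : c.s v x z = c.s v x y + c.s v y z := by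
  unfold s; ring

theorem In.s_self {v : G} (_h : c.In v) (x : G) : c.s v x x = 0 := by unfold s; ring

theorem In.s_neg {v : G} (_h : c.In v) (x y : G) : c.s v y x = - c.s v x y := by unfold s; ring

theorem In.s_mul {v : G} (h : c.In v) (g x y : G) :
    c.s v (g * x) (g * y) = c.s (g⁻¹ * v * g) x y := by
  have := c.ι_conj _ g _ _ ((h.conj' g).π_Y x) ((h.conj' g).π_Y y)
  unfold s
  rw [π_mul, π_mul, ← this]
  simp [mul_assoc]

theorem In.s_zpow {v : G} (h : c.In v) (x y : G) (j : ℤ) :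
    c.s v x (v ^ j * y) = c.s v x y + c.N v * j := by
  unfold s
  rw [π_comm ((Commute.refl v).zpow_left j), (h.π_Y y).ι_zpow]; ring

theorem D_mul (v g x y : G) : c.D v (g * x) (g * y) = c.D (g⁻¹ * v * g) x y := by
  unfold D; rw [π_mul, π_mul, Nm.d_mul]

theorem D_comm (v x y : G) : c.D v x y = c.D v y x := c.X.comm _ _

theorem D_tri (v x y z : G) : c.D v x z ≤ c.D v x y + c.D v y z := c.X.tri _ _ _

theorem dπ_mul (v g x : G) : c.X.d (g * x) (c.π v (g * x)) = c.X.d x (c.π (g⁻¹ * v * g) x) := by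
  rw [π_mul, Nm.d_mul]

theorem In.D_bounds {v : G} (h : c.In v) (x y : G) :
    ((c.s v x y).natAbs : ℝ) * c.θ v ≤ c.D v x y + 1 ∧
      (c.D v x y : ℝ) ≤ (c.s v x y).natAbs * c.θ v + 16 :=
  ⟨c.lo v _ _ (h.π_Y x) (h.π_Y y), c.hi v _ _ (h.π_Y x) (h.π_Y y)⟩

theorem In.cmp {v : G} (h : c.In v) {x y x' y' : G} {k : ℕ} (hk : c.D v x y ≤ c.D v x' y' + k) :
    (c.s v x y).natAbs ≤ (c.s v x' y').natAbs + (k + 16) * E := by
  have h1 := (h.D_bounds x y).1
  have h2 := (h.D_bounds x' y').2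
  have h3 := h.lox
  have h4 : (c.D v x y : ℝ) ≤ c.D v x' y' + k := by exact_mod_cast hk
  by_contra hc
  have h5 : ((c.s v x' y').natAbs : ℝ) + (k + 16) * E < (c.s v x y).natAbs := by
    exact_mod_cast not_le.1 hc
  have := h.pos
  have hk0 : (0 : ℝ) ≤ k := by positivity
  nlinarith

theorem In.s_le {v : G} (h : c.In v) {x y : G} {k : ℕ} (hk : c.D v x y ≤ k) :
    (c.s v x y).natAbs ≤ k * E := by
  rcases Nat.eq_zero_or_pos k with rfl | hk0
  · have := c.X.eq_of_d (Nat.le_zero.1 hk)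
    unfold s; rw [this]; simp
  have h1 := (h.D_bounds x y).1
  have h3 := h.lox
  have h4 : (c.D v x y : ℝ) ≤ k := by exact_mod_cast hk
  by_contra hc
  have h5 : (k : ℝ) * E < (c.s v x y).natAbs := by exact_mod_cast not_le.1 hc
  have := h.pos
  have hk0 : (1 : ℝ) ≤ k := by exact_mod_cast hk0
  nlinarith

theorem In.lt_D {v : G} (h : c.In v) {x y : G} {k : ℕ} (hk : k * E < (c.s v x y).natAbs) :
    k < c.D v x y := by
  by_contra hc
  have := h.s_le (not_lt.1 hc)
  omega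

theorem Y.Pa {v y : G} (h : c.Y v y) (x : G) :
    c.X.d x (c.π v x) + c.X.d (c.π v x) y ≤ c.X.d x y + 85 := by
  have hp := h.In.π_Y x
  have hmin := fun z (hz : c.Y v z) => hz.π_le x
  generalize c.π v x = p at *
  by_cases hb : c.X.d p y ≤ 34
  · have := hmin _ h; omega
  obtain ⟨m, hm, h1, h2, b⟩ := c.mid v p y hp h (by omega)
  have l1 := c.fp.L1 b x
  have := hmin _ hm
  have := c.X.tri p m y
  have := c.X.comm p x
  have := c.X.comm m x
  omega

theorem In.Pb {v : G} (h : c.In v) {x y : G} (hD : 86 < c.D v x y) :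
    c.X.d x (c.π v x) + c.D v x y + c.X.d y (c.π v y) ≤ c.X.d x y + 172 := by
  have h1 := (h.π_Y y).Pa x
  have h2 := (h.π_Y x).Pa y
  have h3 := c.fp.L1 h1 y
  have := c.X.comm (c.π v x) y
  have := c.X.comm (c.π v y) (c.π v x)
  unfold D at *
  omega

theorem In.lip {v : G} (h : c.In v) (x y : G) : c.D v x y ≤ c.X.d x y + 172 := by
  by_cases hD : 86 < c.D v x y
  · have := h.Pb hD; omega
  · omega

theorem In.ball {v : G} (h : c.In v) {x y : G} (hxy : c.X.d x y ≤ c.X.d x (c.π v x)) :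
    c.D v x y ≤ 172 := by
  by_cases hD : 86 < c.D v x y
  · have := h.Pb hD; omega
  · omega

theorem Y.near {v y y' z : G} {k : ℕ} (h : c.Y v y) (h' : c.Y v y')
    (hz : c.X.d y z + c.X.d z y' ≤ c.X.d y y' + k) : 2 * c.X.d z (c.π v z) ≤ k + 170 := by
  have h1 := h.Pa z
  have h2 := h'.Pa z
  have := c.X.tri' y (c.π v z) y'
  have := c.X.comm z y
  omega

/-- projections are nearly between -/
theorem In.btw {v : G} (h : c.In v) {x y : G} (hD : 86 < c.D v x y) :
    c.X.d x (c.π v x) + c.X.d (c.π v x) y ≤ c.X.d x y + 172 ∧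
    c.X.d x (c.π v y) + c.X.d (c.π v y) y ≤ c.X.d x y + 172 := by
  have := h.Pb hD
  have := c.X.tri'' (c.π v x) (c.π v y) y
  have := c.X.tri x (c.π v x) (c.π v y)
  have := c.X.comm (c.π v y) y
  unfold D at *
  omega

theorem In.diam {v w y y' : G} (h : c.In v) (hy : c.Y w y) (hy' : c.Y w y') (hne : v ≠ w) :
    c.D v y y' ≤ 4000 := by
  by_contra hc
  have := h.Pb (x := y) (y := y') (by omega)
  refine c.small v w _ _ y y' hne (h.π_Y y) (h.π_Y y') hy hy' ?_
  unfold Cr D at *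
  omega

theorem In.fix {v e z z' : G} {L : ℕ} (h : c.In v) (he : ¬ Commute e v)
    (hz : c.X.d z (e * z) ≤ L) (hz' : c.X.d z' (e * z') ≤ L) : c.D v z z' ≤ 4700 + 2 * L := by
  by_contra hc
  obtain ⟨b1, b2⟩ := h.btw (x := z) (y := z') (by omega)
  have d1 := c.fp.disp b1 hz hz'
  have d2 := c.fp.disp b2 hz hz'
  have y1 := h.π_Y z
  have y2 := h.π_Y z'
  have d3 := h.diam (Y_conj'.2 y1) (Y_conj'.2 y2) (fun h => he (mul_inv_eq_iff_eq_mul.1 h.symm))
  have e0 : c.D v (c.π v z) (c.π v z') = c.D v z z' := by unfold D; rw [y1.π_eq, y2.π_eq]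
  have := h.lip (c.π v z) (e * c.π v z)
  have := h.lip (c.π v z') (e * c.π v z')
  have := D_tri (c := c) v (c.π v z) (e * c.π v z) (c.π v z')
  have := D_tri (c := c) v (e * c.π v z) (e * c.π v z') (c.π v z')
  have := D_comm (c := c) v (e * c.π v z') (c.π v z')
  omega

theorem In.not_comm {v u z : G} {L : ℕ} (h : c.In v) (hu : u ≠ 1) (hz : c.X.d z (u * z) ≤ L)
    (hL : (L + 172) * E < c.N v) : ¬ Commute u v := by
  intro hc
  obtain ⟨j, rfl⟩ := h.cent hc
  have j0 : j ≠ 0 := by rintro rfl; simp at hu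
  have h1 := h.s_le (k := L + 172) ((h.lip z (v ^ j * z)).trans (by omega))
  rw [h.s_zpow, h.s_self, zero_add, Int.natAbs_mul, Int.natAbs_natCast] at h1
  have := Nat.le_mul_of_pos_right (c.N v) (Int.natAbs_pos.2 j0)
  omega

theorem In.behr {v w x y z : G} (hy : c.Y w y) (hz : c.Y v z) (hne : v ≠ w)
    (hD : 4400 < c.D v x y) : c.D w x z ≤ 4400 := by
  have hv := hz.In
  have hw := hy.In
  have d1 := hv.diam (hw.π_Y x) hy hne
  have d2 := hw.diam (hv.π_Y x) hz hne.symm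
  have t1 := D_tri (c := c) v x (c.π w x) y
  have t2 := D_tri (c := c) w x (c.π v x) z
  have p1 := hv.Pb (x := x) (y := c.π w x) (by omega)
  by_contra hc
  have p2 := hw.Pb (x := x) (y := c.π v x) (by omega)
  omega

theorem In.short {v : G} (h : c.In v) {x y : G} {k : ℕ} (hN : (k + 188) * E ≤ c.N v)
    (hs : c.N v + (k + 188) * E ≤ 2 * (c.s v x y).natAbs) :
    ∃ ε : ℤ, c.X.d x (v ^ ε * y) + k ≤ c.X.d x y := by
  obtain ⟨ε, hε⟩ : ∃ ε : ℤ,
      (c.s v x y + c.N v * ε).natAbs + (k + 188) * E ≤ (c.s v x y).natAbs := by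
    by_cases h0 : 0 ≤ c.s v x y
    · exact ⟨-1, by omega⟩
    · exact ⟨1, by omega⟩
  refine ⟨ε, ?_⟩
  rw [← h.s_zpow] at hε
  have b1 := (h.D_bounds x y).1
  have b2 := (h.D_bounds x (v ^ ε * y)).2
  have h3 := h.lox
  have h4 := h.pos
  have hε' : ((c.s v x (v ^ ε * y)).natAbs : ℝ) + (k + 188) * E ≤ (c.s v x y).natAbs := by
    exact_mod_cast hε
  have hk0 : (0 : ℝ) ≤ k := by positivity
  have b3 : (c.D v x (v ^ ε * y) : ℝ) + (k + 172) ≤ c.D v x y := by nlinarith
  have b4 : c.D v x (v ^ ε * y) + (k + 172) ≤ c.D v x y := by exact_mod_cast b3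
  have p := h.Pb (x := x) (y := y) (by omega)
  have t1 := c.X.tri x (c.π v x) (v ^ ε * y)
  have t2 := c.X.tri'' (c.π v x) (c.π v (v ^ ε * y)) (v ^ ε * y)
  have e : c.X.d (v ^ ε * y) (c.π v (v ^ ε * y)) = c.X.d y (c.π v y) := by
    rw [π_comm ((Commute.refl v).zpow_left _), Nm.d_mul]
  unfold D at *
  omega

theorem In.sep {v w x y : G} {k : ℕ} (hv : c.In v) (hw : c.In w) (hne : v ≠ w)
    (h1 : 9000 + 2 * k ≤ c.D v x y) (h2 : 9000 + 2 * k ≤ c.D w x y) :
    c.X.d y (c.π v y) + k < c.X.d y (c.π w y) ∨ c.X.d y (c.π w y) + k < c.X.d y (c.π v y) := by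
  have t1 := D_tri (c := c) v x (c.π w y) y
  have t2 := D_tri (c := c) w x (c.π v y) y
  have := D_comm (c := c) v y (c.π w y)
  have := D_comm (c := c) w y (c.π v y)
  by_cases h : 4500 + k ≤ c.D v y (c.π w y)
  · have := hv.Pb (x := y) (y := c.π w y) (by omega)
    omega
  · have := In.behr (x := x) (hw.π_Y y) (hv.π_Y y) hne (by omega)
    have := hw.Pb (x := y) (y := c.π v y) (by omega)
    omega

theorem In.mono {v a b x y : G} {k : ℕ} (hv : c.In v) (hD : 86 < c.D v x y)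
    (h : c.X.d a x + c.X.d x y + c.X.d y b ≤ c.X.d a b + k) :
    c.D v x y ≤ c.D v a b + 172 + k := by
  have p := hv.Pb hD
  have h1 := (hv.π_Y x).π_le a
  have h2 := (hv.π_Y y).π_le b
  have := c.X.tri a x (c.π v x)
  have := c.X.tri' b y (c.π v y)
  have := c.X.tri a (c.π v a) b
  have := c.X.tri'' (c.π v a) (c.π v b) b
  unfold D at *
  omega

end Fam

end Pool.Agent.MP_5c28a4_al.H89
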