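import Pool.Agent.MP_5c28a4_al.H89.Words
import Pool.Agent.MP_5c28a4_al.H89.VDefs

set_option autoImplicit false

namespace Pool.Agent.MP_5c28a4_al.H89

open Pool.Agent.Burnside6

/-- size of a pair -/
noncomputable def mu {G : Type} [Group G] (X : Nm G) (g h : G) : ℝ :=
  max (X.τ g) (max (X.τ h) (X.τ (h * g⁻¹)))

/-- normalised base point for the subgroup `Hs` -/
structure HB {G : Type} [Group G] (X : Nm G) (k : ℕ) (g h z : G) : Prop where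
  nc : ¬ Commute g (eW g h)
  de : X.d z (eW g h * z) ≤ 1
  dg : ∀ s, s ≤ k → X.d z (g ^ s * z) ≤ 1
  tame : Tame X (eW g h) z cT

def AlignStmt : Prop := ∀ (G : Type) [Group G] (X : Nm G) (E : ℕ), TF X E →
  ∀ (x u x' u' : ℕ → G) (M M' ω ℓ ℓ' S β : ℕ), WC X x u M ω ℓ → WC X x' u' M' ω ℓ →
    40000 + 1000 * ω ≤ ℓ → (∀ i, i < M → X.d (x i) (x (i + 1)) ≤ ℓ') →
    2 * (S + 2) * ℓ' + 100 ≤ β → Cr X (x 0) (x M) (x' 0) (x' M') β →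
    ∃ i k, i + S ≤ M ∧ k + S ≤ M' ∧ ∀ s, s < S → Commute (u (i + s)) (u' (k + s))

def AlongStmt : Prop := ∀ (G : Type) [Group G] (X : Nm G) (E : ℕ), TF X E →
  ∀ (x u : ℕ → G) (a b : G) (M ω ℓ ℓ' S β : ℕ), WC X x u M ω ℓ →
    40000 + 1000 * ω ≤ ℓ → (∀ i, i < M → X.d (x i) (x (i + 1)) ≤ ℓ') →
    2 * (S + 2) * ℓ' + 100 ≤ β → Cr X (x 0) (x M) a b β →
    ∃ i, i + S ≤ M ∧ ∀ s, s < S → Cr X a b (u (i + s) * a) (u (i + s) * b) ℓ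

def SysWordStmt : Prop := ∀ (G : Type) [Group G] (X : Nm G) (E : ℕ), TF X E →
  ∀ (T : Sys G) (z : G) (ω ℓ : ℕ), T.Vis X z ω ℓ → ∀ (a : G) (n : ℕ) (w : ℕ → T.Λ), (∀ t, t + 1 < n → T.ok (w t) (w (t + 1))) →
    ∃ x u : ℕ → G, WC X x u (n * T.p) (3 * ω) ℓ ∧
      (∀ t, t ≤ n → x (t * T.p) = a * prd (fun t => T.val (w t)) t * z) ∧
      ∀ i, ∃ y, u i = y * T.U * y⁻¹

def AMStmt : Prop := ∀ (G : Type) [Group G] (X : Nm G) (E : ℕ), TF X E →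
  ∀ (T T' : Sys G) (S S' : Subgroup G) (z z' t : G) (ω ℓ ℓ' β : ℕ), T.Gen S → T'.Gen S' →
    T.Vis X z ω ℓ → T'.Vis X z' ω ℓ → 40000 + 3000 * ω ≤ ℓ → T.Up X z ℓ' → 156 * ℓ' + 100 ≤ β →
    Ov X β S z t S' z' → ∃ η ∈ S, ∃ η' ∈ S', ∃ (l : T.Λ) (l' : T'.Λ) (s s' : ℕ),
      4 ≤ s ∧ s + 17 ≤ T.p ∧ 4 ≤ s' ∧ s' + 17 ≤ T'.p ∧ ∀ i, i < 13 →
        Commute (η * T.Q l (s + i) * T.U * (η * T.Q l (s + i))⁻¹)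
          (t * η' * T'.Q l' (s' + i) * T'.U * (t * η' * T'.Q l' (s' + i))⁻¹)

def AlongSysStmt : Prop := ∀ (G : Type) [Group G] (X : Nm G) (E : ℕ), TF X E →
  ∀ (T : Sys G) (S : Subgroup G) (z a b p p' : G) (ω ℓ ℓ' β : ℕ), T.Gen S →
    T.Vis X z ω ℓ → 40000 + 3000 * ω ≤ ℓ → T.Up X z ℓ' → 72 * ℓ' + 100 ≤ β → a ∈ S → b ∈ S →
    Cr X (a * z) (b * z) p p' β → ∃ η ∈ S, ∃ (l : T.Λ) (s : ℕ), 4 ≤ s ∧ s + 17 ≤ T.p ∧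
      ∀ i, i < 13 → Cr X p p' (η * T.Q l (s + i) * T.U * (η * T.Q l (s + i))⁻¹ * p)
        (η * T.Q l (s + i) * T.U * (η * T.Q l (s + i))⁻¹ * p') ℓ

def MatchStmt : Prop := ∀ (G : Type) [Group G] (X : Nm G) (E : ℕ), TF X E →
  ∀ (U U' : G) (q q' J J' : ℕ → G) (ε ε' : ℕ → ℤ), U ≠ 1 → U' ≠ 1 →
    (∀ i, i < 12 → q (i + 1) = q i * U ^ ε i * J i) →
    (∀ i, i < 12 → q' (i + 1) = q' i * U' ^ ε' i * J' i) →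
    (∀ i, i < 12 → ¬ Commute (J i) U) →
    (∀ i, i < 13 → Commute (q i * U * (q i)⁻¹) (q' i * U' * (q' i)⁻¹)) →
    ∃ (w y : G) (f f' : ℤ) (s : ℕ → ℤ), f ≠ 0 ∧ f' ≠ 0 ∧ U = w ^ f ∧ y * U' * y⁻¹ = w ^ f' ∧
      s 0 = 0 ∧ (∀ i, i < 13 → (q i)⁻¹ * q' i = w ^ s i * y) ∧
      (∀ i, i < 12 → y * J' i * y⁻¹ = w ^ (-(s i + f' * ε' i - f * ε i)) * J i * w ^ s (i + 1)) ∧
      ∀ i i', i < 12 → i' < 12 → J i = J i' → J' i = J' i' →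
        s i + f' * ε' i - f * ε i = s i' + f' * ε' i' - f * ε i' ∧ s (i + 1) = s (i' + 1)

/-- block structure of the subgroup `Hs` -/
def HSysStmt : Prop := ∀ (G : Type) [Group G] (k m : ℕ) (g h : G), 0 < k →
  (hSys k m g h).Gen (Hs k m g h) ∧ ∀ (X : Nm G) (E : ℕ), TF X E → (60 * k + 60) ^ 3 ≤ m →
    ∀ (z : G) (ω : ℕ), (∀ s, s ≤ k → X.d z (g ^ s * z) ≤ ω) →
      (∀ ℓ : ℕ, ¬ Commute g (eW g h) → X.d z (eW g h * z) ≤ ω →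
        ((ℓ + 2 * ω : ℕ) : ℝ) ≤ m * X.τ (eW g h) → (hSys k m g h).Vis X z ω ℓ) ∧
      (∀ t ℓ' : ℕ, Tame X (eW g h) z t → 2 * (m * X.τ (eW g h)) + t + 2 * ω ≤ ℓ' →
        (hSys k m g h).Up X z ℓ')

def HTauStmt : Prop := ∀ (G : Type) [Group G] (X : Nm G) (E : ℕ), TF X E →
  ∀ (k m : ℕ) (g h z : G) (ω ℓ b : ℕ), (hSys k m g h).Vis X z ω ℓ → 752 + 60 * ω ≤ ℓ →
    b + (748 + 60 * ω) ≤ ℓ → ∀ v ∈ Fk k, v ≠ 1 → (b : ℝ) ≤ X.τ (θW m g h v)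

/-- block structure of the cyclic group of a relator -/
def RSysStmt : Prop := ∀ (G : Type) [Group G] (l : Law) (g h : G),
  (rSys l g h).Gen (Subgroup.zpowers (rW l g h)) ∧ ∀ (X : Nm G) (E : ℕ), TF X E →
    (l.code * hh + hh) ^ 2 ≤ l.n → ∀ z : G,
      (∀ ℓ : ℕ, X.d z (g * z) ≤ 1 → X.d z (h * z) ≤ 1 → X.d z (VW l g h * z) ≤ 1 →
        ¬ Commute g (VW l g h) → ¬ Commute h (VW l g h) →
        ((ℓ + 2 : ℕ) : ℝ) ≤ l.n * X.τ (VW l g h) → (rSys l g h).Vis X z 1 ℓ) ∧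
      (∀ ℓ' : ℕ, NB X l g h z → 2 * (l.n * X.τ (VW l g h)) + cT + 2 ≤ ℓ' → (rSys l g h).Up X z ℓ') ∧
      (∀ ℓ b : ℕ, (rSys l g h).Vis X z 1 ℓ → 1000 ≤ ℓ → b + 808 ≤ ℓ →
        Tame X (rW l g h) z 822 ∧ ((hh * b : ℕ) : ℝ) ≤ X.τ (rW l g h))

def HHStmt : Prop := ∀ (G : Type) [Group G] (X : Nm G) (E : ℕ), TF X E →
  ∀ (k m : ℕ) (g h z : G) (B : ℕ), 0 < k → (60 * k + 60) ^ 3 ≤ m → HB X k g h z →
    100000 ≤ m * X.τ (eW g h) → m * X.τ (eW g h) ≤ B → cT + 2 ≤ B → Mal X (500 * B) (Hs k m g h) z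

def HRStmt : Prop := ∀ (G : Type) [Group G] (X : Nm G) (E : ℕ), TF X E →
  ∀ (k m : ℕ) (g h z : G) (l : Law) (g' h' z' t : G) (B : ℕ), 0 < k → (60 * k + 60) ^ 3 ≤ m →
    HB X k g h z → 100000 ≤ m * X.τ (eW g h) → (l.code * hh + hh) ^ 2 ≤ l.n → NB X l g' h' z' →
    100000 ≤ l.n * X.τ (VW l g' h') → l.n * X.τ (VW l g' h') ≤ B → cT + 2 ≤ B →
    ¬ Ov X (1000 * B) (Hs k m g h) z t (Subgroup.zpowers (rW l g' h')) z'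

def HaStmt : Prop := ∀ (G : Type) [Group G] (X : Nm G) (E : ℕ), TF X E →
  ∀ (H : Subgroup G) (z : G) (β : ℕ) (l : Law) (g' h' z' t : G) (B : ℕ), Mal X β H z →
    (l.code * hh + hh) ^ 2 ≤ l.n → NB X l g' h' z' → 100000 ≤ β →
    ((β + 2 : ℕ) : ℝ) ≤ l.n * X.τ (VW l g' h') → l.n * X.τ (VW l g' h') ≤ B → cT + 2 ≤ B →
    Ov X (1000 * B) H z t (Subgroup.zpowers (rW l g' h')) z' →
    t * g' * t⁻¹ ∈ H ∧ t * h' * t⁻¹ ∈ H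

def RRStmt : Prop := ∀ (G : Type) [Group G] (X : Nm G) (E : ℕ), TF X E →
  ∀ (l l' : Law) (g h z g' h' z' t : G) (B : ℕ), (l.code = l'.code → l = l') →
    (l.code * hh + hh) ^ 2 ≤ l.n → (l'.code * hh + hh) ^ 2 ≤ l'.n → NB X l g h z →
    NB X l' g' h' z' → 100000 ≤ l.n * X.τ (VW l g h) → l.n * X.τ (VW l g h) ≤ B → cT + 2 ≤ B →
    100000 ≤ l'.n * X.τ (VW l' g' h') →
    Ov X (1000 * B) (Subgroup.zpowers (rW l g h)) z t (Subgroup.zpowers (rW l' g' h')) z' →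
    l.code = l'.code ∧ ∃ y ∈ Subgroup.zpowers (rW l g h),
      t * g' * t⁻¹ = y * g * y⁻¹ ∧ t * h' * t⁻¹ = y * h * y⁻¹

def A0Stmt : Prop := ∀ (G : Type) [Group G] (X : Nm G) (E : ℕ), TF X E →
  ∀ g h : G, ¬ Commute g h → 1 ≤ cE0 * mu X g h → ∃ (z : G) (L : ℕ), 1 ≤ L ∧
    X.d z (g * z) ≤ L ∧ X.d z (h * z) ≤ L ∧ (L : ℝ) ≤ X.τ (eW g h) ∧ ¬ Commute g (eW g h) ∧
    (L : ℝ) ≤ mu X g h + 101

def LinesStmt : Prop := ∀ (G : Type) [Group G] (X : Nm G) (E : ℕ), TF X E →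
  ∀ (P : ℕ) (hP : 0 < P) (Rl : Set G) (N₀ β : ℕ), 1000 ≤ P → 400000000000000 * P ≤ N₀ →
    β + 600 ≤ 2999 * P → (∀ r ∈ Rl, ∀ g, g * r * g⁻¹ ∈ Rl) → (∀ r ∈ Rl, (N₀ : ℝ) ≤ X.τ r) →
    (∀ r ∈ Rl, ∀ a, Commute a r → a ∈ Subgroup.zpowers r) →
    (∀ r ∈ Rl, ∀ r' ∈ Rl,
      (∀ z z', Ov X β (Subgroup.zpowers r) z 1 (Subgroup.zpowers r') z') → r = r') →
    ∃ c : Fam G (4 * P), c.X = X.scale P hP ∧ (∀ v, c.In v ↔ v ∈ Rl) ∧ (∀ v ∈ Rl, N₀ ≤ c.N v) ∧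
      ∀ v y y', c.Y v y → c.Y v y' → ∀ z', ∃ a b : ℤ, On X (v ^ a * z') (v ^ b * z') y y' 300

def TowerStmt : Prop := ∀ (ι : Type) (L : ι → Law), Adm L →
  ∀ (B C : Type) [CommGroup B] [CommGroup C] (α : F →* B) (kap : ι → B → B → C),
    (∀ j b (i i' : ℤ), kap j (b ^ i) (b ^ i') = 1) →
    (∀ c : C, ((1 : F), c) ∈ Subgroup.closure
      {w : F × C | ∃ j g h, w = (rW (L j) g h, (kap j (α g) (α h))⁻¹)} → c = 1) ∧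
    ∀ n : ℕ, 0 < n → x0 ^ n * x1 * (x0 ^ n)⁻¹ * x1⁻¹ ∉ Verb L Set.univ

def RecStmt : Prop := ∃ L : ℕ → Law, Adm L ∧
  (L 0).v = (x0 * x1 * x0⁻¹ * x1⁻¹) * x0 * (x0 * x1 * x0⁻¹ * x1⁻¹)⁻¹ * x0⁻¹ ∧
  ∀ u ∈ commutator F, u ∈ Verb L Set.univ ∨ ∃ j, (L j).v = u

def LatStmt : Prop := ∀ (C : Type) [AddCommGroup C] [Countable C], ∃ N R : Subgroup F,
  FI N ∧ FI R ∧ N ≤ R ∧ (∀ V, FI V → N ≤ V → V ≤ R ∨ commutator F ≤ V) ∧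
    Nonempty ({V : Subgroup F // FI V ∧ N ≤ V ∧ V ≤ R} ≃o AddSubgroup C)

def PruStmt : Prop :=
  (∃ (C : Type) (_ : AddCommGroup C), Countable C ∧ Countable (AddSubgroup C) ∧
    ∃ c : ℕ → AddSubgroup C, StrictMono c) ∧
  (∃ (C : Type) (_ : AddCommGroup C), Countable C ∧ ¬ Countable (AddSubgroup C) ∧
    ∀ S₁ S₂ S₃ : AddSubgroup C, S₁ ≤ S₂ ⊔ S₃ ∨ S₂ ≤ S₁ ⊔ S₃ ∨ S₃ ≤ S₁ ⊔ S₂)

/-- the easy implications -/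
def EasyStmt : Prop := ∀ V, IsVariety V → (MinCond V → CountSub V) ∧ (CountSub V → NoIndep V)

/-- the two counterexamples -/
def CexStmt : Prop := (∃ V, IsVariety V ∧ CountSub V ∧ ¬ MinCond V) ∧
  (∃ V, IsVariety V ∧ NoIndep V ∧ ¬ CountSub V)

end Pool.Agent.MP_5c28a4_al.H89
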