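import Pool.Agent.MP_5c28a4_al.H89.Far

set_option autoImplicit false

namespace Pool.Agent.MP_5c28a4_al.H89

open Pool.Agent.Burnside6

variable {G : Type} [Group G] {E : ℕ} {c : Fam G E}

/-- lines with a long projection of the orbit `S z` satisfy `Ins` -/
def AF (c : Fam G E) (S : Subgroup G) (z : G) (Ins : G → Prop) : Prop :=
  ∀ v, c.In v → ∀ a ∈ S, ∀ b ∈ S, 50000 < c.D v (a * z) (b * z) → Ins v

theorem AF.mono {S : Subgroup G} {z : G} {Ins Ins' : G → Prop} (h : AF c S z Ins)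
    (h' : ∀ v, c.In v → Ins v → Ins' v) : AF c S z Ins' :=
  fun v hv a ha b hb hD => h' v hv (h v hv a ha b hb hD)

theorem chain_D {x u : ℕ → G} {M ℓ : ℕ} (w : WC c.X x u M 3 ℓ) (hℓ : 39000 ≤ ℓ) {v : G}
    (hv : c.In v) : c.D v (x 0) (x M) ≤ 50000 := by
  classical
  have step : ∀ i, i < M → c.D v (x i) (x (i + 1)) ≤ 4706 := fun i hi =>
    hv.fix (hv.not_comm (w.ne i hi) (w.w1 i hi) (by
      have := c.hN v hv
      have := hv.E_pos
      omega)) (w.w1 i hi) (w.w2 i hi)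
  have btw := fun a i b => w.btw c.st (a := a) (i := i) (b := b) (by omega)
  have loc : ∀ i, i + 1 ≤ M → 86 < c.D v (x 0) (x i) → c.D v (x (i + 1)) (x M) ≤ 86 := by
    intro i hi h2
    by_contra h3
    have := step i hi
    have := (hv.btw h2).2
    have := (hv.btw (not_le.1 h3)).1
    have := btw 0 i M (Nat.zero_le _) (by omega) le_rfl
    have := btw i (i + 1) M (by omega) hi le_rfl
    have := w.len i hi
    have := c.X.tri (x 0) (c.π v (x i)) (x M)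
    have := c.X.tri (c.π v (x i)) (c.π v (x (i + 1))) (x M)
    unfold Fam.D at *
    omega
  by_contra hc
  have h0 : ∃ i, i ≤ M ∧ 86 < c.D v (x 0) (x i) := ⟨M, le_rfl, by omega⟩
  obtain ⟨h1, h3⟩ := Nat.find_spec h0
  have h2 := fun j => Nat.find_min h0 (m := j)
  generalize Nat.find h0 = i at *
  rcases i with _ | i
  · simp [Fam.D] at h3
  have h4 : c.D v (x 0) (x i) ≤ 86 := by
    by_contra h5
    exact h2 i (by omega) ⟨by omega, by omega⟩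
  have := step i h1
  have := Fam.D_tri (c := c) v (x 0) (x i) (x (i + 1))
  rcases Nat.eq_or_lt_of_le h1 with rfl | h6
  · omega
  have := step (i + 1) h6
  have := loc (i + 1) h6 h3
  have := Fam.D_tri (c := c) v (x 0) (x (i + 1)) (x M)
  have := Fam.D_tri (c := c) v (x (i + 1)) (x (i + 1 + 1)) (x M)
  omega

theorem Cr.of_H {a b a' b' : G} {β : ℕ} (h : Cr c.H a b a' b' (2 * β + 600)) :
    Cr c.X a b a' b' β := by
  unfold Cr at *
  by_contra hc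
  have t1 := c.X.tri a' a b
  have t2 := c.X.tri a a' b
  have t3 := c.X.tri'' a a' b
  have := c.X.comm a' a
  have := c.X.comm b a'
  have := c.X.comm b' a'
  have := c.X.comm b' b
  obtain ⟨p, p1, p2⟩ := c.X.exists_between a a' ((c.X.d a a' + c.X.d a b - c.X.d a' b) / 2) (by omega)
  have l1 := c.fp.L1 (c := 0) p2.le b
  have := c.X.comm p b
  have := c.X.comm p b'
  have l2 := c.fp.L1 (x := b) (m := p) (y := a') (c := 4) (by omega) b'
  obtain ⟨q, q1, q2⟩ := c.fp.near (x := b) (m := p) (y := b') (c := β + 9) (by omega)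
  have k1 := Fam.KR (k := 0) p2.le
  have k2 := Fam.KR (k := 0) q1.le
  have := c.H_le p q
  have := c.H.tri a p b
  have := c.H.tri'' p q b
  have := c.H.tri' a' p b'
  have := c.H.tri p q b'
  have := c.H.comm b q
  omega

namespace Kill

variable (κ : Kill c)

theorem T0 {S : Subgroup G} {z η a : G} {Ins : G → Prop} (hA : AF c S z Ins)
    (hI : ∀ v, c.In v → Ins v → v ∈ S) (hη : η ∈ S) (ha : c.X.d z (a * z) ≤ 1000000)
    (he : (η : G ⧸ κ.K) = a) : ∃ ρ ∈ Subgroup.closure {v | c.In v ∧ Ins v}, ρ * η = a := by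
  have hS : Subgroup.closure {v | c.In v ∧ Ins v} ≤ S := by
    rw [Subgroup.closure_le]; exact fun v hv => hI v hv.1 hv.2
  obtain ⟨ρ, h1, h2⟩ := κ.descent' (y := a * z) (y₀ := η * z)
    (fun y' => ∃ ρ ∈ Subgroup.closure {v | c.In v ∧ Ins v}, y' = ρ * η * z)
    ⟨1, one_mem _, by simp⟩ (by rw [QuotientGroup.mk_mul, QuotientGroup.mk_mul, he]) (by
      rintro _ v r ⟨ρ, h1, rfl⟩ hv - ⟨j, rfl⟩ hs
      have := c.hN v hv
      have := hv.E_pos
      have := hv.s_add (a * z) z (ρ * η * z)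
      have := hv.s_neg z (a * z)
      have := hv.s_le (k := 1000172) ((hv.lip z (a * z)).trans (by omega))
      have h3 := hA v hv 1 (one_mem _) _ (mul_mem (hS h1) hη)
        (by rw [one_mul]; exact hv.lt_D (by omega))
      exact ⟨v ^ j * ρ, mul_mem (zpow_mem (Subgroup.subset_closure (show v ∈ {v | c.In v ∧ Ins v} from ⟨hv, h3⟩)) j) h1,
        by simp [mul_assoc]⟩)
  exact ⟨ρ, h1, (mul_right_cancel h2).symm⟩

theorem T1 {S S' : Subgroup G} {z z' t : G} {β : ℕ} (hA : AF c S z (· ∈ S))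
    (hA' : AF c S' z' (· ∈ S'))
    (h : Ov κ.Q β (S.map (QuotientGroup.mk' κ.K)) z t (S'.map (QuotientGroup.mk' κ.K)) z') :
    ∃ t₁ : G, (t₁ : G ⧸ κ.K) = t ∧ Ov c.H β S z t₁ S' z' := by
  obtain ⟨_, ⟨a, ha, rfl⟩, _, ⟨b, hb, rfl⟩, _, ⟨a', ha', rfl⟩, _, ⟨b', hb', rfl⟩, h⟩ := h
  simp only [QuotientGroup.mk'_apply, ← QuotientGroup.mk_mul] at h
  obtain ⟨y₂, e1, e2⟩ := κ.Q_lift (t * a' * z') ((a * z : G) : G ⧸ κ.K)
  have hg := κ.mem_of_eq e1
  obtain ⟨y₀, e3, e4⟩ := κ.Q_lift (y₂ * (a * z)⁻¹ * (b * z)) ((t * b' * z' : G) : G ⧸ κ.K)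
  rw [κ.mk_K hg] at e4
  obtain ⟨g, g1, a₁, a1, b₁, b1, a₂, a2, e5, e6, e7, d1, d2⟩ := κ.descent' (y := t * b' * z') (y₀ := y₀)
    (fun y' => ∃ g ∈ κ.K, ∃ a₁ ∈ S', ∃ b₁ ∈ S, ∃ a₂ ∈ S, (a₁ : G ⧸ κ.K) = a' ∧
      (b₁ : G ⧸ κ.K) = b ∧ (a₂ : G ⧸ κ.K) = a ∧
      c.H.d (t * a₁ * z') (g * (a₂ * z)) ≤ κ.Q.d (t * a' * z' : G) (a * z : G) ∧
      c.H.d (g * (b₁ * z)) y' ≤ κ.Q.d (b * z : G) (t * b' * z' : G))
    ⟨_, hg, a', ha', b, hb, a, ha, rfl, rfl, rfl, by rw [inv_mul_cancel_right]; exact e2.le, e4.le⟩ e3 (by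
      rintro y' v r ⟨g, g1, a₁, a1, b₁, b1, a₂, a2, e5, e6, e7, d1, d2⟩ hv hr ⟨j, rfl⟩ hs
      simp only at hr ⊢
      have hc : Commute (v ^ j) v := (Commute.refl v).zpow_left j
      have s1 := hv.s_add (t * b' * z') (t * a₁ * z') y'
      have s2 := hv.s_add (t * a₁ * z') (g * (a₂ * z)) y'
      have s3 := hv.s_add (g * (a₂ * z)) (g * (b₁ * z)) y'
      have := c.hN v hv
      have := hv.E_pos
      by_cases h1 : 50000 * E < (c.s v (t * b' * z') (t * a₁ * z')).natAbs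
      · have h2 := hv.lt_D h1
        rw [mul_assoc t, mul_assoc t, Fam.D_mul] at h2
        have h3 : t⁻¹ * v ^ j * t ∈ S' := by
          rw [← conj_zpow']; exact zpow_mem (hA' _ (hv.conj' t) b' hb' a₁ a1 h2) j
        refine ⟨v ^ j * g, mul_mem hr g1, _, mul_mem h3 a1, b₁, b1, a₂, a2, ?_, e6, e7, ?_, ?_⟩
        · rw [κ.mk_K (κ.normal.conj_mem' _ hr t), e5]
        · rw [show t * (t⁻¹ * v ^ j * t * a₁) * z' = v ^ j * (t * a₁ * z') by group, mul_assoc (v ^ j),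
            Nm.d_mul]
          exact d1
        · rw [mul_assoc (v ^ j), Nm.d_mul]; exact d2
      by_cases h2 : 5000000 * E < (c.s v (t * a₁ * z') (g * (a₂ * z))).natAbs
      · refine ⟨v ^ j * g, mul_mem hr g1, a₁, a1, b₁, b1, a₂, a2, e5, e6, e7, ?_, ?_⟩
        · rw [mul_assoc (v ^ j)]; exact (bend hv h2 hc).trans d1
        · rw [mul_assoc (v ^ j), Nm.d_mul]; exact d2
      by_cases h3 : 50000 * E < (c.s v (g * (a₂ * z)) (g * (b₁ * z))).natAbs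
      · have h4 := hv.lt_D h3
        rw [Fam.D_mul] at h4
        have h5 : g⁻¹ * v ^ j * g ∈ S := by
          rw [← conj_zpow']; exact zpow_mem (hA _ (hv.conj' g) a₂ a2 b₁ b1 h4) j
        refine ⟨g, g1, a₁, a1, _, mul_mem h5 b1, a₂, a2, e5, ?_, e7, d1, ?_⟩
        · rw [κ.mk_K (κ.normal.conj_mem' _ hr g), e6]
        · rw [show g * (g⁻¹ * v ^ j * g * b₁ * z) = v ^ j * (g * (b₁ * z)) by group, Nm.d_mul]
          exact d2
      exact ⟨g, g1, a₁, a1, b₁, b1, a₂, a2, e5, e6, e7, d1, (bend hv (by omega) hc).trans d2⟩)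
  refine ⟨g⁻¹ * t, κ.mk_K (inv_mem g1) t, a₂, a2, b₁, b1, a₁, a1, b', hb', ?_⟩
  have q1 := κ.Q_le (a₂ * z) (b₁ * z)
  have q2 := κ.Q_le (t * a₁ * z') (t * b' * z')
  simp only [QuotientGroup.mk_mul, e5, e6, e7] at q1 q2
  simp only [← QuotientGroup.mk_mul] at q1 q2
  have := κ.Q.comm (t * a' * z' : G) (a * z : G)
  have := c.H.comm (t * a₁ * z') (g * (a₂ * z))
  unfold Cr at *
  simp only [mul_assoc g⁻¹]
  rw [Nm.d_mul, Nm.d_inv_right, Nm.d_inv_right]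
  omega

theorem AF_pow {g x : G} (h1 : g ≠ 1) (hx : c.X.d x (g * x) ≤ 17) (Ins : G → Prop) :
    AF c (Subgroup.zpowers g) x Ins := by
  rintro v hv _ ⟨i, rfl⟩ _ ⟨j, rfl⟩ hD
  have := hv.fix (L := 17) (z := g ^ i * x) (z' := g ^ j * x) (hv.not_comm h1 hx (by
    have := c.hN v hv
    have := hv.E_pos
    omega)) (by rwa [Nm.d_commute ((Commute.refl g).zpow_right i)])
    (by rwa [Nm.d_commute ((Commute.refl g).zpow_right j)])
  simp only at hD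
  omega

theorem T2 {S : Subgroup G} {z η : G} {β : ℕ} (hA : AF c S z (· ∈ S)) (hM : Mal c.X β S z)
    (hη : η ∈ S) (h1 : (η : G ⧸ κ.K) ≠ 1) : 1 ≤ 6000000 * κ.Q.τ (η : G ⧸ κ.K) ∨
      ∃ u ∈ S, u ≠ 1 ∧ c.X.τ u ≤ 6000000 * κ.Q.τ (η : G ⧸ κ.K) := by
  obtain ⟨g, g1, g2, g3⟩ := κ.classify _ h1
  by_cases h2 : 1 ≤ c.X.τ g
  · left; rwa [min_eq_right h2] at g3
  rw [min_eq_left (not_le.1 h2).le] at g3
  right
  have gp := c.st.pos g2
  obtain ⟨x, hx⟩ := exists_tame c.fp gp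
  have hx1 : c.X.d x (g * x) ≤ 17 := by
    have h3 := hx 1
    have : (c.X.d x (g * x) : ℝ) ≤ 17 := by simp at h3; linarith
    exact_mod_cast this
  have hτ : 0 < κ.Q.τ (η : G ⧸ κ.K) := by linarith
  obtain ⟨n, hn⟩ := exists_nat_gt
    (((2 * (β + 4 * 17 + 100) + 600 + 2 * κ.Q.d z x : ℕ) : ℝ) / κ.Q.τ (η : G ⧸ κ.K))
  rw [div_lt_iff₀ hτ] at hn
  have h4 : 2 * (β + 4 * 17 + 100) + 600 + 2 * κ.Q.d z x ≤ κ.Q.d z ((η : G ⧸ κ.K) ^ n * z) := by
    exact_mod_cast (hn.trans_le (κ.Q.tau_le _ _ n)).le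
  obtain ⟨t, -, a, ha, b, hb, _, ⟨i, rfl⟩, _, ⟨j, rfl⟩, h5⟩ := κ.T1 (t := 1)
    (β := 2 * (β + 4 * 17 + 100) + 600) hA (AF_pow g2 hx1 _)
    ⟨1, one_mem _, (η : G ⧸ κ.K) ^ n, pow_mem (Subgroup.mem_map_of_mem (QuotientGroup.mk' κ.K) hη) n, 1, one_mem _, (η : G ⧸ κ.K) ^ n,
      pow_mem (Subgroup.mem_map.2 ⟨g, Subgroup.mem_zpowers g, g1⟩) n, by
      unfold Cr
      simp only [QuotientGroup.mk_one, one_mul, Nm.d_mul]
      omega⟩
  have mv : ∀ i : ℤ, c.X.d (t * g ^ i * x) (t * g * t⁻¹ * (t * g ^ i * x)) ≤ 17 := fun i => by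
    rw [Nm.d_conj, mul_assoc t, inv_mul_cancel_left, Nm.d_commute ((Commute.refl g).zpow_right i)]
    exact hx1
  have h6 := (Cr.of_H h5).wit c.fp (mv i) (mv j)
  refine ⟨t * g * t⁻¹, hM _ ⟨a, ha, b, hb, a, ha, b, hb, by simpa only [mul_assoc] using h6⟩,
    by simpa using g2, by rwa [c.X.tau_conj]⟩

theorem TR2 {r z : G} (hA : AF c (Subgroup.zpowers r) z (fun _ => False)) :
    c.X.τ r ≤ 6000000 * κ.Q.τ (r : G ⧸ κ.K) := by
  have h : ∀ (m : ℕ) v, c.In v → c.D v z (r ^ m * z) ≤ 50000 := fun m v hv => by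
    by_contra hc
    exact hA v hv 1 (one_mem _) (r ^ m) (pow_mem (Subgroup.mem_zpowers r) m) (by
      rw [one_mul]; omega)
  refine κ.tau_le_of_D (by norm_num) (fun m v hv => ?_) h
  have := hv.s_le (h m v hv)
  have := c.hN v hv
  omega

end Kill

end Pool.Agent.MP_5c28a4_al.H89
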