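import Pool.Agent.MP_5c28a4_al.H89.Geo
import Pool.Agent.MP_5c28a4_al.H89.Trans

set_option autoImplicit false

namespace Pool.Agent.MP_5c28a4_al.H89

open Pool.Agent.Burnside6

variable {G : Type} [Group G] {ι : Type}

theorem Ov.scale_down {X : Nm G} {P : ℕ} (hP : 0 < P) {β : ℕ} {S S' : Subgroup G} {z t z' : G}
    (h : Ov (X.scale P hP) (β + 2) S z t S' z') : Ov X (P * β) S z t S' z' := by
  obtain ⟨a, ha, b, hb, a', ha', b', hb', h⟩ := h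
  exact ⟨a, ha, b, hb, a', ha', b', hb', h.scale_down hP⟩

theorem ov_self {X : Nm G} {r : G} (hr : 0 < X.τ r) (β : ℕ) (z t z' : G) (ht : Commute t r) :
    Ov X β (Subgroup.zpowers r) z t (Subgroup.zpowers r) z' := by
  obtain ⟨n, hn⟩ := exists_nat_gt (((β + 2 * X.d z (t * z') : ℕ) : ℝ) / X.τ r)
  rw [div_lt_iff₀ hr] at hn
  have h2 : β + 2 * X.d z (t * z') ≤ X.d z (r ^ n * z) := by
    exact_mod_cast (hn.trans_le (X.tau_le r z n)).le
  refine ⟨1, one_mem _, r ^ n, pow_mem (Subgroup.mem_zpowers r) n, 1, one_mem _, r ^ n,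
    pow_mem (Subgroup.mem_zpowers r) n, ?_⟩
  unfold Cr
  rw [(ht.pow_right n).eq, mul_assoc (r ^ n), Nm.d_mul, one_mul, mul_one]
  omega

/-- the family of lines of the current relators -/
structure SC (X : Nm G) (L : ι → Law) (K : ι → G → G → Prop) where
  c : Fam G (4 * cP)
  hX : c.X = X.scale cP cP_pos
  hI : ∀ v, c.In v ↔ ∃ j g h, K j g h ∧ v = rW (L j) g h
  hN : ∀ v, c.In v → cN ≤ c.N v
  hOn : ∀ v y y', c.Y v y → c.Y v y' → ∀ z', ∃ a b : ℤ, On X (v ^ a * z') (v ^ b * z') y y' 300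
  hE : 0 < c.E₀

variable {X : Nm G} {L : ι → Law} {Done K : ι → G → G → Prop}

theorem cN_pos : (0 : ℝ) < cN := by
  have : 0 < cN := lt_of_lt_of_le (by norm_num [cP]) cN_ge
  exact_mod_cast this

theorem Geo.pos (hG : Geo X L Done K) {j : ι} {g h : G} (hk : K j g h) :
    0 < X.τ (rW (L j) g h) := cN_pos.trans_le (hG.k1 j g h hk).2.2.2

theorem Geo.uniq (hG : Geo X L Done K) {j j' : ι} {g h g' h' : G} (hk : K j g h) (hk' : K j' g' h')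
    (ho : ∀ z z', Ov X cβK (Subgroup.zpowers (rW (L j) g h)) z 1
      (Subgroup.zpowers (rW (L j') g' h')) z') :
    j' = j ∧ ∃ y ∈ Subgroup.zpowers (rW (L j) g h), g' = y * g * y⁻¹ ∧ h' = y * h * y⁻¹ :=
  hG.k3 j g h j' g' h' hk (hG.k1 _ _ _ hk').1 (fun hd => X.ne_one_of_tau (hG.pos hk') (hG.dr _ _ _ hd))
    (hG.k1 _ _ _ hk').2.2.1 ho

theorem Geo.cent (hG : Geo X L Done K) {j : ι} {g h a : G} (hk : K j g h)
    (ha : Commute a (rW (L j) g h)) : a ∈ Subgroup.zpowers (rW (L j) g h) := by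
  obtain ⟨E, -, hX⟩ := hG.tf
  have e : rW (L j) (a * g * a⁻¹) (a * h * a⁻¹) = rW (L j) g h := by
    rw [conj_rW, ha.eq, mul_inv_cancel_right]
  obtain ⟨-, y, hy, h1, h2⟩ := hG.uniq hk (hG.kc j g h a hk) (fun z z' => by
    rw [e]; exact ov_self (hG.pos hk) _ z 1 z' (Commute.one_left _))
  have c1 : Commute g (y⁻¹ * a) := by
    change g * (y⁻¹ * a) = y⁻¹ * a * g
    calc _ = y⁻¹ * (y * g * y⁻¹) * a := by group
      _ = _ := by rw [← h1]; group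
  have c2 : Commute h (y⁻¹ * a) := by
    change h * (y⁻¹ * a) = y⁻¹ * a * h
    calc _ = y⁻¹ * (y * h * y⁻¹) * a := by group
      _ = _ := by rw [← h2]; group
  by_cases h3 : y⁻¹ * a = 1
  · rwa [← inv_mul_eq_one.1 h3]
  · exact absurd (hX.csaa _ _ _ h3 c1 c2) (hG.k1 j g h hk).1

theorem exists_SC (hF : Facts) (hG : Geo X L Done K) : Nonempty (SC X L K) := by
  obtain ⟨E, -, hX⟩ := hG.tf
  obtain ⟨c, h1, h2, h3, h4⟩ := hF.lines G X E hX cP cP_pos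
    {v | ∃ j g h, K j g h ∧ v = rW (L j) g h} cN cβK (by norm_num [cP]) cN_ge
    (by norm_num [cβK, cP])
    (by rintro _ ⟨j, g, h, hk, rfl⟩ y; exact ⟨j, _, _, hG.kc j g h y hk, (conj_rW _ _ _ _).symm⟩)
    (by rintro _ ⟨j, g, h, hk, rfl⟩; exact (hG.k1 j g h hk).2.2.2)
    (by rintro _ ⟨j, g, h, hk, rfl⟩ a ha; exact hG.cent hk ha)
    (by
      rintro _ ⟨j, g, h, hk, rfl⟩ _ ⟨j', g', h', hk', rfl⟩ ho
      obtain ⟨rfl, _, ⟨i, rfl⟩, rfl, rfl⟩ := hG.uniq hk hk' ho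
      rw [conj_rW]; group)
  exact ⟨⟨{ c with E₀ := c.E₀ + 1, st := c.st.mono (Nat.le_succ _) }, h1, h2,
    fun v hv => h3 v ((h2 v).1 hv), h4, Nat.succ_pos _⟩⟩

namespace SC

variable (S : SC X L K)

theorem dY (x y : G) (s : ℕ) : S.c.X.d x y ≤ s ↔ X.d x y ≤ s * cP := by
  rw [S.hX]; exact X.scale_d_le _ _ _ _ _

theorem dY_le (x y : G) : S.c.X.d x y ≤ X.d x y :=
  (S.dY x y _).2 (Nat.le_mul_of_pos_right _ cP_pos)

theorem tauY (g : G) : cP * S.c.X.τ g = X.τ g := by rw [S.hX]; exact X.tau_scale _ _ _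

theorem D_ov {v x y : G} (hv : S.c.In v) (hD : 50000 < S.c.D v x y) (z' : G) :
    ∃ i j : ℤ, Cr X (v ^ i * z') (v ^ j * z') x y (99000 * cP) := by
  have h1 := hv.Pb (x := x) (y := y) (by omega)
  obtain ⟨i, j, h2⟩ := S.hOn v _ _ (hv.π_Y x) (hv.π_Y y) z'
  have h3 : Cr S.c.X (S.c.π v x) (S.c.π v y) x y (99001 + 2) := by
    refine Cr.of_on (On.refl _ _) (c' := 172) ?_ ?_
    · unfold On
      rw [S.c.X.comm _ y]; exact h1
    · unfold Fam.D at hD; omega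
  rw [S.hX] at h3
  exact ⟨i, j, Cr.ext h2 ((h3.scale_down cP_pos).mono (by norm_num [cP]))⟩

theorem D_sys (hF : Facts) {T : Sys G} {H : Subgroup G} {z : G} (hT : T.Gen H)
    (hv : T.Vis S.c.X z 1 43000) (Ins : G → Prop) : AF S.c H z Ins := by
  intro v h1 a ha b hb hD
  obtain ⟨n, w, h2, h3⟩ := hT.2 _ (mul_mem (inv_mem ha) hb)
  obtain ⟨x, u, h4, h5, -⟩ := hF.word G _ _ S.c.st T z 1 43000 hv a n w h2
  have h6 := chain_D h4 (by norm_num) h1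
  have h7 := h5 0 (Nat.zero_le _)
  rw [zero_mul, prd_zero, mul_one] at h7
  rw [h7, h5 n le_rfl, ← h3, mul_inv_cancel_left] at h6
  omega

theorem AF_H (hF : Facts) {l : Law} (hl : l.Ok) {a : ℕ} {z g h : G} (hb : HB X l.k g h z)
    (hd : DP X L K l a z g h) : AF S.c (Hs l.k l.m g h) z (fun v => ∃ j' g' h', K j' g' h' ∧
      v = rW (L j') g' h' ∧ g' ∈ Hs l.k l.m g h ∧ h' ∈ Hs l.k l.m g h) := by
  by_cases h1 : l.m * X.τ (eW g h) < 100000 * cP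
  · intro v hv a ha b hb hD
    obtain ⟨j', g', h', hk, rfl⟩ := (S.hI v).1 hv
    refine ⟨j', g', h', hk, rfl, hd.d5 h1 j' g' h' hk fun z' => ?_⟩
    obtain ⟨i, j, h2⟩ := S.D_ov hv hD z'
    refine ⟨a, ha, b, hb, _, ⟨i, rfl⟩, _, ⟨j, rfl⟩, ?_⟩
    simp only [one_mul]
    exact h2.swap.mono (by norm_num [cβK, cP])
  · have h2 := hF.hsys G l.k l.m g h hl.hk
    refine S.D_sys hF h2.1 ((h2.2 _ _ S.c.st hl.hm z 1
      (fun s hs => (S.dY_le _ _).trans (hb.dg s hs))).1 43000 hb.nc ((S.dY_le _ _).trans hb.de) ?_) _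
    rw [← S.tauY] at h1
    have hP : (0 : ℝ) < cP := by exact_mod_cast cP_pos
    push_cast
    nlinarith

theorem cB1_le : (cB1 : ℝ) ≤ cB2 := by norm_num [cB2, cB1, cE]

omit S in
theorem r_tame (hF : Facts) {E : ℕ} (hX : TF X E) {l : Law} (hl : l.Ok) {z g h : G}
    (hb : NB X l g h z) (h1 : (cB1 : ℝ) < l.n * X.τ (VW l g h)) :
    Tame X (rW l g h) z 822 ∧ (cE : ℝ) * cN ≤ X.τ (rW l g h) := by
  have h2 := (hF.rsys G l g h).2 X E hX hl.hn z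
  have h3 := h2.2.2 1000 1 (h2.1 1000 hb.dg hb.dh hb.dV hb.ng hb.nh
    (le_trans (by norm_num [cB1]) h1.le)) le_rfl (by norm_num)
  refine ⟨h3.1, le_trans ?_ h3.2⟩
  rw [mul_one, ← Nat.cast_mul]
  exact Nat.cast_le.2 hh_ge'

theorem AF_R (hF : Facts) (hG : Geo X L Done K) (hA : Adm L) {j : ι} {z g h : G}
    (hc : ¬ Commute g h) (hd : ¬ Done j g h) (hk : ¬ K j g h) (hb : NB X (L j) g h z)
    (Ins : G → Prop) : AF S.c (Subgroup.zpowers (rW (L j) g h)) z Ins := by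
  obtain ⟨E, -, hX⟩ := hG.tf
  have hl := hA.ok j
  by_cases h1 : (L j).n * X.τ (VW (L j) g h) ≤ cB2
  · rintro v hv _ ⟨s, rfl⟩ _ ⟨t, rfl⟩ hD
    obtain ⟨j', g', h', hk', rfl⟩ := (S.hI v).1 hv
    obtain ⟨h2, h3⟩ := r_tame hF hX hl hb (((hG.w j g h hc).resolve_left hd).resolve_left hk)
    have h4 : 0 < X.τ (rW (L j) g h) := lt_of_lt_of_le (mul_pos (by linarith [cE_one]) cN_pos) h3
    obtain ⟨rfl, y, -, rfl, rfl⟩ := hG.k3 j' g' h' j g h hk' hc hd h1 (fun z₁ z₂ => by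
      obtain ⟨i₁, i₂, h5⟩ := S.D_ov hv hD z₁
      obtain ⟨s', t', h6⟩ := h2.axis hX.fp h4 z₂ s t
      refine ⟨_, ⟨i₁, rfl⟩, _, ⟨i₂, rfl⟩, _, ⟨s', rfl⟩, _, ⟨t', rfl⟩, ?_⟩
      simp only [one_mul]
      exact (Cr.ext h6 (h5.swap.mono (by norm_num [cβK, cP]))).swap)
    exact absurd (hG.kc _ _ _ y hk') hk
  · have h2 := hF.rsys G (L j) g h
    refine S.D_sys hF h2.1 ((h2.2 _ _ S.c.st hl.hn z).1 43000 ((S.dY_le _ _).trans hb.dg)
      ((S.dY_le _ _).trans hb.dh) ((S.dY_le _ _).trans hb.dV) hb.ng hb.nh ?_) _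
    rw [← S.tauY] at h1
    have hP : (0 : ℝ) < cP := by exact_mod_cast cP_pos
    have : (100000 : ℝ) * cP ≤ cB2 := by norm_num [cB2, cB1, cE, cP]
    push_cast
    nlinarith

variable (κ : Kill S.c)

/-- the metric of the next stage -/
noncomputable def X' : Nm (G ⧸ κ.K) := κ.Q.scale cR cR_pos

theorem tf' : TF (S.X' κ) (S.c.E₀ * (6000000 * cR)) := κ.stage cR_pos (by norm_num [cR]) S.hE

theorem tauQ (q : G ⧸ κ.K) : cR * (S.X' κ).τ q = κ.Q.τ q := κ.Q.tau_scale _ _ _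

theorem d_le {x y : G} {k : ℕ} (h : X.d x y ≤ max 1 k) : (S.X' κ).d x y ≤ max 1 (k - 1) := by
  refine (κ.Q.scale_d_le _ _ _ _ _).2 ?_
  have := κ.Q_le_X x y
  have := S.dY_le x y
  unfold cR
  omega

theorem d_one {x u : G} (h : X.d x (u * x) ≤ 1) : (S.X' κ).d x ((u : G ⧸ κ.K) * x) ≤ 1 :=
  S.d_le κ (k := 0) h

theorem d_div (x y : G) : (S.X' κ).d x y * (cR * cP) ≤ X.d x y + 2 * (cR * cP) := by
  have h1 := (κ.Q.scale_d_bounds cR cR_pos x y).2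
  have h2 := κ.Q_le_X x y
  have h3 := (X.scale_d_bounds cP cP_pos x y).2
  rw [← S.hX] at h3
  unfold X'
  unfold cR cP at *
  omega

theorem tau_le (g : G) : cP * cR * (S.X' κ).τ g ≤ X.τ g := by
  rw [mul_assoc, S.tauQ, ← S.tauY]
  exact mul_le_mul_of_nonneg_left (κ.Q_tau_le g) (by positivity)

theorem tau_le' (g : G) : (S.X' κ).τ g ≤ X.τ g := by
  have := S.tau_le κ g
  have h1 : (1 : ℝ) ≤ cP * cR := by norm_num [cP, cR]
  nlinarith [(S.X' κ).tau_nonneg g]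

theorem tau_up {u : G} {q : G ⧸ κ.K} (h : S.c.X.τ u ≤ 6000000 * κ.Q.τ q) :
    X.τ u ≤ cE * (S.X' κ).τ q := by
  rw [← S.tauY, cE_eq, mul_assoc, mul_assoc, S.tauQ]
  exact mul_le_mul_of_nonneg_left h (by positivity)

theorem TR1 {g z : G} {T : ℕ} (h1 : g ≠ 1) (hz : X.d z (g * z) ≤ T * cP)
    (hT : (T + 6000000) * (4 * cP) ≤ cN) : min (X.τ g) cP ≤ cE * (S.X' κ).τ g := by
  have := κ.gen h1 ((S.dY _ _ _).2 hz) (fun v hv => hT.trans (S.hN v hv))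
  rw [← S.tauY, cE_eq, mul_assoc, mul_assoc, S.tauQ]
  refine le_trans ?_ (mul_le_mul_of_nonneg_left this (by positivity))
  rw [mul_min_of_nonneg _ _ (by positivity), mul_one]

theorem TR4 {g z : G} (h1 : g ≠ 1) (hz : X.d z (g * z) ≤ 4) : X.τ g ≤ cE * (S.X' κ).τ g := by
  have := S.TR1 κ (T := 1) h1 (hz.trans (by norm_num [cP])) (le_trans (by norm_num [cP]) cN_ge)
  rwa [min_eq_left ((tau_le_of_d hz).trans (by norm_num [cP]))] at this

theorem ne_of_min {E : ℕ} (hX : TF X E) {g : G} (h1 : g ≠ 1)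
    (h : min (X.τ g) cP ≤ cE * (S.X' κ).τ g) : (g : G ⧸ κ.K) ≠ 1 := by
  intro h2
  rw [h2, Nm.tau_one, mul_zero] at h
  have : (0 : ℝ) < cP := by exact_mod_cast cP_pos
  exact absurd h (not_le.2 (lt_min (hX.pos h1) this))

theorem ne4 {E : ℕ} (hX : TF X E) {g z : G} (h1 : g ≠ 1) (hz : X.d z (g * z) ≤ 4) :
    (g : G ⧸ κ.K) ≠ 1 := S.ne_of_min κ hX h1 ((min_le_left _ _).trans (S.TR4 κ h1 hz))

omit S in
theorem comm_iff {M : Type} [Group M] {a b : M} : a * b * a⁻¹ * b⁻¹ = 1 ↔ Commute a b := by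
  rw [mul_inv_eq_one, mul_inv_eq_iff_eq_mul]; rfl

theorem nc4 {E : ℕ} (hX : TF X E) {g h z : G} (h1 : ¬ Commute g h) (hg : X.d z (g * z) ≤ 1)
    (hh' : X.d z (h * z) ≤ 1) : ¬ Commute (g : G ⧸ κ.K) h := by
  rw [← comm_iff] at h1 ⊢
  refine S.ne4 κ hX h1 (z := z) ?_
  have := ev_disp X hg hh' (x0 * x1 * x0⁻¹ * x1⁻¹)
  simp only [map_mul, map_inv, ev_x0, ev_x1] at this
  refine this.trans ?_
  have a1 := FreeGroup.norm_mul_le (x0 * x1 * x0⁻¹) x1⁻¹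
  have a2 := FreeGroup.norm_mul_le (x0 * x1) x0⁻¹
  have a3 := FreeGroup.norm_mul_le x0 x1
  rw [FreeGroup.norm_inv_eq] at a1 a2
  have a4 : FreeGroup.norm x0 = 1 := FreeGroup.norm_of _
  have a5 : FreeGroup.norm x1 = 1 := FreeGroup.norm_of _
  omega

theorem tame_tr {E : ℕ} (hX : TF X E) {u z : G} {s : ℕ} (hu : u ≠ 1) (h1 : X.d z (u * z) ≤ 1)
    (ht : Tame X u z (cT + s)) : Tame (S.X' κ) u z (cT + (s - 1)) := by
  have h2 := S.TR4 κ hu (h1.trans (by norm_num))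
  have h3 := (S.tf' κ).pos (S.ne4 κ hX hu (h1.trans (by norm_num)))
  have h4 := tau_le_of_d (S.d_one κ h1)
  have h5 := Nat.le_ceil (37 / (S.X' κ).τ u)
  have h6 := Nat.ceil_lt_add_one (show 0 ≤ 37 / (S.X' κ).τ u by positivity)
  generalize ⌈37 / (S.X' κ).τ u⌉₊ = n at h5 h6
  rw [div_le_iff₀ h3] at h5
  rw [div_add_one h3.ne', lt_div_iff₀ h3] at h6
  refine (tame_of_pow (S.tf' κ).fp z h5).mono ?_
  have h7 := ht n
  have h8 : (X.d z (u ^ n * z) : ℝ) ≤ (38 * cE + (cT + s) : ℕ) := by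
    have : (0 : ℝ) ≤ n := by positivity
    have := cE_one
    push_cast at *
    nlinarith
  have h9 : X.d z (u ^ n * z) ≤ 38 * cE + (cT + s) := by exact_mod_cast h8
  have := S.d_div κ z (u ^ n * z)
  change (S.X' κ).d z ((u ^ n * z : G) : G ⧸ κ.K) + 52 ≤ _
  unfold cR cP cE cT at *
  omega

theorem t_ov {H H' : Subgroup G} {z z' : G} {t : G ⧸ κ.K} {b γ : ℕ} (hA : AF S.c H z (· ∈ H))
    (hA' : AF S.c H' z' (· ∈ H')) (hγ : 2 * (γ + 2) + 600 ≤ cR * b)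
    (h : Ov (S.X' κ) (b + 2) (H.map (QuotientGroup.mk' κ.K)) z t
      (H'.map (QuotientGroup.mk' κ.K)) z') :
    ∃ t₁ : G, (t₁ : G ⧸ κ.K) = t ∧ Ov X (cP * γ) H z t₁ H' z' := by
  obtain ⟨t, rfl⟩ := QuotientGroup.mk_surjective t
  obtain ⟨t₁, h1, a, ha, b, hb, a', ha', b', hb', h2⟩ := κ.T1 hA hA' (h.scale_down cR_pos)
  refine ⟨t₁, h1, a, ha, b, hb, a', ha', b', hb', ?_⟩
  have := Cr.of_H (h2.mono hγ)
  rw [S.hX] at this
  exact this.scale_down cP_pos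

end SC

end Pool.Agent.MP_5c28a4_al.H89
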