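import Pool.Agent.MP_5c28a4_al.H89.Next
import Pool.Agent.MP_5c28a4_al.H89.Green

set_option autoImplicit false

namespace Pool.Agent.MP_5c28a4_al.H89

open Pool.Agent.Burnside6

/-- global data of the construction -/
structure Par (ι B C : Type) [CommGroup B] [CommGroup C] where
  L : ι → Law
  hF : Facts
  hA : Adm L
  α : F →* B
  kap : ι → B → B → C
  alt : ∀ j b (i i' : ℤ), kap j (b ^ i) (b ^ i') = 1

variable {ι B C : Type} [CommGroup B] [CommGroup C]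

/-- algebraic part of a stage -/
structure Alg (p : Par ι B C) where
  A : Type
  G : Type
  [gA : Group A]
  [gG : Group G]
  ψ : F × C →* A
  φ : A →* G
  β : G →* B
  sψ : Function.Surjective ψ
  sφ : Function.Surjective φ
  ker : ∀ a, φ a = 1 ↔ ∃ z, a = ψ (1, z)
  inj : ∀ z, ψ (1, z) = 1 → z = 1
  ab : ∀ γ, β (φ (ψ γ)) = p.α γ.1

attribute [instance] Alg.gA Alg.gG

namespace Alg

variable {p : Par ι B C} (s : Alg p)

theorem φψ (z : C) : s.φ (s.ψ (1, z)) = 1 := (s.ker _).2 ⟨z, rfl⟩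

theorem central {a : s.A} (h : s.φ a = 1) : a ∈ Subgroup.center s.A := by
  obtain ⟨z, rfl⟩ := (s.ker a).1 h
  rw [Subgroup.mem_center_iff]
  intro b
  obtain ⟨γ, rfl⟩ := s.sψ b
  rw [← map_mul, ← map_mul]
  congr 1
  exact Prod.ext (by simp) (mul_comm _ _)

noncomputable def dn (j : ι) (a b : s.A) : s.A :=
  rW (p.L j) a b * (s.ψ (1, p.kap j (s.β (s.φ a)) (s.β (s.φ b))))⁻¹

theorem φ_dn (j : ι) (a b : s.A) : s.φ (s.dn j a b) = rW (p.L j) (s.φ a) (s.φ b) := by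
  rw [dn, map_mul, map_inv, φψ, map_rW]; simp

theorem dn_congr (j : ι) {a b a' b' : s.A} (h : s.φ a = s.φ a') (h' : s.φ b = s.φ b') :
    s.dn j a b = s.dn j a' b' := by
  have := rW_central (p.hA.ok j).hv' a b (s.central (a := a⁻¹ * a') (by simp [h]))
    (s.central (a := b⁻¹ * b') (by simp [h']))
  rw [mul_inv_cancel_left, mul_inv_cancel_left] at this
  rw [dn, dn, this, h, h']

theorem dn_conj (j : ι) (y a b : s.A) :
    s.dn j (y * a * y⁻¹) (y * b * y⁻¹) = y * s.dn j a b * y⁻¹ := by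
  have e : ∀ a, s.β (s.φ (y * a * y⁻¹)) = s.β (s.φ a) := fun a => by
    simp only [map_mul, map_inv]; exact mul_inv_cancel_comm _ _
  rw [dn, dn, conj_rW, e, e]
  have := Subgroup.mem_center_iff.1 (inv_mem (s.central (s.φψ
    (p.kap j (s.β (s.φ a)) (s.β (s.φ b)))))) y⁻¹
  simp only [mul_assoc]
  rw [this]

def Done (j : ι) (g h : s.G) : Prop := ∃ a b, s.φ a = g ∧ s.φ b = h ∧ s.dn j a b = 1

theorem dc (j : ι) (g h y : s.G) (hd : s.Done j g h) : s.Done j (y * g * y⁻¹) (y * h * y⁻¹) := by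
  obtain ⟨a, b, rfl, rfl, h1⟩ := hd
  obtain ⟨y, rfl⟩ := s.sφ y
  exact ⟨y * a * y⁻¹, y * b * y⁻¹, by simp, by simp, by simp [dn_conj, h1]⟩

theorem dr (j : ι) (g h : s.G) (hd : s.Done j g h) : rW (p.L j) g h = 1 := by
  obtain ⟨a, b, rfl, rfl, h1⟩ := hd
  rw [← φ_dn, h1, map_one]

theorem done_zpow (j : ι) (w : s.G) (i i' : ℤ) : s.Done j (w ^ i) (w ^ i') := by
  obtain ⟨w, rfl⟩ := s.sφ w
  refine ⟨w ^ i, w ^ i', map_zpow _ _ _, map_zpow _ _ _, ?_⟩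
  rw [dn, rW_zpow (p.hA.ok j).hv']
  simp only [map_zpow, p.alt]
  simp [show ((1 : F), (1 : C)) = 1 from rfl]

/-- image of a word -/
def γ : F →* s.G := s.φ.comp (s.ψ.comp (MonoidHom.inl _ _))

theorem kill1 {j : ι} {f f' : F} (h : s.Done j (s.γ f) (s.γ f')) :
    s.ψ (rW (p.L j) f f', (p.kap j (p.α f) (p.α f'))⁻¹) = 1 := by
  obtain ⟨a, b, h1, h2, h3⟩ := h
  rw [s.dn_congr j (a' := s.ψ (f, 1)) (b' := s.ψ (f', 1)) h1 h2, dn, s.ab, s.ab] at h3
  rw [← h3, ← map_inv]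
  have := map_rW (s.ψ.comp (MonoidHom.inl _ _)) (p.L j) f f'
  change s.ψ (_, 1) = rW _ (s.ψ (f, 1)) (s.ψ (f', 1)) at this
  rw [← this, ← map_mul]
  simp

noncomputable def quot (KA : Subgroup s.A) [KA.Normal] (KG : Subgroup s.G) [KG.Normal]
    (hK : ∀ g, g ∈ KG ↔ ∃ k ∈ KA, s.φ k = g) (hβ : ∀ k ∈ KA, s.β (s.φ k) = 1)
    (hi : ∀ k ∈ KA, s.φ k = 1 → k = 1) : Alg p where
  A := s.A ⧸ KA
  G := s.G ⧸ KG
  ψ := (QuotientGroup.mk' _).comp s.ψ
  φ := QuotientGroup.map _ _ s.φ (fun k hk => (hK _).2 ⟨k, hk, rfl⟩)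
  β := QuotientGroup.lift _ s.β (fun g hg => by
    obtain ⟨k, hk, rfl⟩ := (hK g).1 hg
    exact hβ k hk)
  sψ := (QuotientGroup.mk'_surjective _).comp s.sψ
  sφ := by
    intro q
    obtain ⟨g, rfl⟩ := QuotientGroup.mk_surjective q
    obtain ⟨a, rfl⟩ := s.sφ g
    exact ⟨a, rfl⟩
  ker := by
    intro a
    obtain ⟨a, rfl⟩ := QuotientGroup.mk_surjective a
    change ((s.φ a : s.G) : s.G ⧸ KG) = 1 ↔ _
    rw [QuotientGroup.eq_one_iff, hK]
    constructor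
    · rintro ⟨k, hk, h⟩
      obtain ⟨z, hz⟩ := (s.ker (k⁻¹ * a)).1 (by simp [h])
      refine ⟨z, ?_⟩
      change _ = ((s.ψ (1, z) : s.A) : s.A ⧸ KA)
      rw [← hz, QuotientGroup.mk_mul, (QuotientGroup.eq_one_iff _).2 (inv_mem hk), one_mul]
    · rintro ⟨z, hz⟩
      change _ = ((s.ψ (1, z) : s.A) : s.A ⧸ KA) at hz
      refine ⟨_, QuotientGroup.eq.1 hz.symm, ?_⟩
      rw [map_mul, map_inv, s.φψ]; simp
  inj z hz := s.inj z (hi _ ((QuotientGroup.eq_one_iff _).1 hz) (s.φψ z))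
  ab γ := s.ab γ

theorem quot_done (KA : Subgroup s.A) [KA.Normal] (KG : Subgroup s.G) [KG.Normal]
    (hK : ∀ g, g ∈ KG ↔ ∃ k ∈ KA, s.φ k = g) (hβ : ∀ k ∈ KA, s.β (s.φ k) = 1)
    (hi : ∀ k ∈ KA, s.φ k = 1 → k = 1) {j : ι} {a b : s.A} (h : s.dn j a b ∈ KA) :
    (s.quot KA KG hK hβ hi).Done j (s.φ a : s.G ⧸ KG) (s.φ b : s.G ⧸ KG) := by
  refine ⟨(a : s.A ⧸ KA), (b : s.A ⧸ KA), rfl, rfl, ?_⟩
  have h1 := (QuotientGroup.eq_one_iff _).2 h
  rw [dn, QuotientGroup.mk_mul, show ((rW (p.L j) a b : s.A) : s.A ⧸ KA) =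
    rW (p.L j) (a : s.A ⧸ KA) b from map_rW (QuotientGroup.mk' KA) _ a b] at h1
  exact h1

end Alg

/-- one stage of the tower -/
structure St (p : Par ι B C) where
  a : Alg p
  X : Nm a.G
  K : ι → a.G → a.G → Prop
  geo : Geo X p.L a.Done K
  nc : ¬ Commute (a.γ x0) (a.γ x1)
  d0 : X.d 1 (a.γ x0 * 1) ≤ 1
  d1 : X.d 1 (a.γ x1 * 1) ≤ 1

namespace St

variable {p : Par ι B C} (s : St p)

noncomputable def sc : SC s.X p.L s.K := (exists_SC p.hF s.geo).some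

noncomputable def ρ (v : s.a.G) : s.a.A := Classical.epsilon fun r => ∃ j a b,
  s.K j (s.a.φ a) (s.a.φ b) ∧ v = rW (p.L j) (s.a.φ a) (s.a.φ b) ∧ r = s.a.dn j a b

theorem ρ_eq {j : ι} {a b : s.a.A} (h : s.K j (s.a.φ a) (s.a.φ b)) :
    s.ρ (rW (p.L j) (s.a.φ a) (s.a.φ b)) = s.a.dn j a b := by
  obtain ⟨j', a', b', h1, h2, h3⟩ : ∃ j' a' b', s.K j' (s.a.φ a') (s.a.φ b') ∧
      rW (p.L j) (s.a.φ a) (s.a.φ b) = rW (p.L j') (s.a.φ a') (s.a.φ b') ∧
      s.ρ (rW (p.L j) (s.a.φ a) (s.a.φ b)) = s.a.dn j' a' b' :=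
    Classical.epsilon_spec (p := fun r => ∃ j' a' b', s.K j' (s.a.φ a') (s.a.φ b') ∧
      rW (p.L j) (s.a.φ a) (s.a.φ b) = rW (p.L j') (s.a.φ a') (s.a.φ b') ∧ r = s.a.dn j' a' b')
      ⟨_, j, a, b, h, rfl, rfl⟩
  obtain ⟨rfl, _, ⟨i, rfl⟩, h4, h5⟩ := s.geo.uniq h h1 (fun z z' => by
    rw [← h2]; exact ov_self (s.geo.pos h) _ z 1 z' (Commute.one_left _))
  simp only [← s.a.φ_dn, ← map_zpow, ← map_inv, ← map_mul] at h4 h5
  rw [h3, s.a.dn_congr _ h4 h5, s.a.dn_conj]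
  group

theorem In_iff {v : s.a.G} : s.sc.c.In v ↔ ∃ j a b, s.K j (s.a.φ a) (s.a.φ b) ∧
    v = rW (p.L j) (s.a.φ a) (s.a.φ b) := by
  rw [s.sc.hI]
  constructor
  · rintro ⟨j, g, h, h1, rfl⟩
    obtain ⟨a, rfl⟩ := s.a.sφ g
    obtain ⟨b, rfl⟩ := s.a.sφ h
    exact ⟨j, a, b, h1, rfl⟩
  · rintro ⟨j, a, b, h1, rfl⟩
    exact ⟨j, _, _, h1, rfl⟩

noncomputable def rot : Rot s.sc.c s.a.A where
  φ := s.a.φ
  ρ := s.ρ
  hρ v hv := by
    obtain ⟨j, a, b, h1, rfl⟩ := s.In_iff.1 hv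
    rw [s.ρ_eq h1, s.a.φ_dn]
  hconj v y hv := by
    obtain ⟨j, a, b, h1, rfl⟩ := s.In_iff.1 hv
    have h2 := s.geo.kc _ _ _ (s.a.φ y) h1
    rw [s.ρ_eq h1, ← conj_rW, ← s.a.dn_conj]
    simp only [← map_inv, ← map_mul] at h2 ⊢
    exact s.ρ_eq h2

noncomputable def KA : Subgroup s.a.A := s.rot.K {v | s.sc.c.In v}

instance : s.KA.Normal := by
  constructor
  intro k hk a
  induction hk using Subgroup.closure_induction with
  | mem _ h =>
    obtain ⟨v, hv, rfl⟩ := h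
    exact Subgroup.subset_closure ⟨_, Fam.In.conj hv (s.a.φ a), s.rot.hconj v a hv⟩
  | one => simp
  | mul x y _ _ h1 h2 => simpa [mul_assoc] using mul_mem h1 h2
  | inv x _ h1 => simpa [mul_assoc] using inv_mem h1

noncomputable def kill : Kill s.sc.c where
  K := s.KA.map s.a.φ
  normal := Subgroup.Normal.map inferInstance _ s.a.sφ
  hK v hv := ⟨_, Subgroup.subset_closure ⟨v, hv, rfl⟩, s.rot.hρ v hv⟩
  green := by
    rintro _ ⟨k, hk, rfl⟩ h1 x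
    exact s.rot.green x hk (by rintro rfl; exact h1 (map_one _))

theorem KA_ker (k : s.a.A) (hk : k ∈ s.KA) (h : s.a.φ k = 1) : k = 1 := by
  by_contra h1
  obtain ⟨v, hv, h2⟩ := s.rot.green 1 hk h1
  have h3 : s.rot.φ k = 1 := h
  rw [h3, mul_one, hv.s_self] at h2
  have := s.sc.c.hN v hv
  have := hv.E_pos
  omega

theorem KA_β (k : s.a.A) (hk : k ∈ s.KA) : s.a.β (s.a.φ k) = 1 := by
  induction hk using Subgroup.closure_induction with
  | mem _ h =>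
    obtain ⟨v, hv, rfl⟩ := h
    have := s.rot.hρ v hv
    change s.a.φ _ = _ at this
    obtain ⟨j, a, b, -, rfl⟩ := s.In_iff.1 hv
    rw [this, map_rW]
    exact rW_comm (p.hA.ok j).hv' _ _
  | one => simp
  | mul x y _ _ h1 h2 => rw [map_mul, map_mul, h1, h2, mul_one]
  | inv x _ h1 => rw [map_inv, map_inv, h1, inv_one]

noncomputable def alg' : Alg p := s.a.quot s.KA s.kill.K (fun _ => Iff.rfl) s.KA_β s.KA_ker

theorem done' (j : ι) (g h : s.a.G) (hd : s.a.Done j g h ∨ s.K j g h) :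
    s.alg'.Done j (g : s.a.G ⧸ s.kill.K) (h : s.a.G ⧸ s.kill.K) := by
  rcases hd with ⟨a, b, rfl, rfl, h1⟩ | h1
  · exact s.a.quot_done _ _ _ _ _ (h1 ▸ one_mem _)
  · obtain ⟨a, rfl⟩ := s.a.sφ g
    obtain ⟨b, rfl⟩ := s.a.sφ h
    exact s.a.quot_done _ _ _ _ _
      (Subgroup.subset_closure ⟨_, s.In_iff.2 ⟨j, a, b, h1, rfl⟩, s.ρ_eq h1⟩)

noncomputable def next : St p where
  a := s.alg'
  X := s.sc.X' s.kill
  K := s.sc.K' s.kill s.a.Done
  geo := s.sc.next s.kill p.hF s.geo p.hA s.done' s.alg'.dc s.alg'.dr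
  nc := s.sc.nc4 s.kill s.geo.tf.choose_spec.2 s.nc s.d0 s.d1
  d0 := s.sc.d_one s.kill s.d0
  d1 := s.sc.d_one s.kill s.d1

theorem next_ψ {w : F × C} (h : s.a.ψ w = 1) : s.next.a.ψ w = 1 := by
  change ((s.a.ψ w : s.a.A) : s.a.A ⧸ s.KA) = 1
  rw [h]; rfl

theorem next_tau (u : F) : 2 * s.next.X.τ (s.next.a.γ u) ≤ s.X.τ (s.a.γ u) := by
  refine le_trans (mul_le_mul_of_nonneg_right ?_ (Nm.tau_nonneg _ _)) (s.sc.tau_le s.kill (s.a.γ u))
  norm_num [cP, cR]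

theorem done_comm (j : ι) {g h : s.a.G} (hc : Commute g h) : s.a.Done j g h := by
  obtain ⟨E, -, hX⟩ := s.geo.tf
  by_cases h1 : h = 1
  · simpa [h1] using s.a.done_zpow j g 1 0
  obtain ⟨w, -, h2⟩ := hX.root h1
  obtain ⟨i, rfl⟩ := h2 g hc
  obtain ⟨i', h3⟩ := h2 h (Commute.refl h)
  rw [← h3]
  exact s.a.done_zpow j w i i'

theorem next_done {j : ι} {f f' : F} (h : (p.L j).n * s.X.τ (s.a.γ (VW (p.L j) f f')) ≤ cB1) :
    s.next.a.Done j (s.next.a.γ f) (s.next.a.γ f') := by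
  refine s.done' j (s.a.γ f) (s.a.γ f') ?_
  by_cases hc : Commute (s.a.γ f) (s.a.γ f')
  · exact Or.inl (s.done_comm j hc)
  rw [map_VW] at h
  rcases s.geo.w j _ _ hc with h1 | h1 | h1
  · exact Or.inl h1
  · exact Or.inr h1
  · exact absurd h (not_le.2 h1)

end St

noncomputable def base (p : Par ι B C) : St p where
  a :=
    { A := F × C
      G := F
      ψ := MonoidHom.id _
      φ := MonoidHom.fst _ _
      β := p.α
      sψ := Function.surjective_id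
      sφ := Prod.fst_surjective
      ker := fun a => ⟨fun h => ⟨a.2, Prod.ext h rfl⟩, by rintro ⟨z, rfl⟩; rfl⟩
      inj := fun _ h => congrArg Prod.snd h
      ab := fun _ => rfl }
  X := freeNm
  K _ _ _ := False
  geo := by
    have key : ∀ g h : F, ¬ Commute g h → 1 ≤ cE0 * mu freeNm g h := fun g h hc => by
      have h1 := freeNm_tau (g := g) (by rintro rfl; exact hc (Commute.one_left _))
      have h2 : freeNm.τ g ≤ mu freeNm g h := le_max_left _ _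
      have h3 : (1 : ℝ) ≤ cE0 := by norm_num [cE0]
      nlinarith
    exact ⟨⟨1, one_pos, freeNm_TF⟩, Alg.dc _, Alg.dr _, fun _ _ _ _ h => h, fun _ _ _ h => h.elim,
      fun _ _ _ _ _ _ h => h.elim, fun j g h hc => Or.inr (Or.inr (lt_of_le_of_lt
        (SC.cB1_le.trans cB2_le) (pi_big' (p.hA.ok j)
          (young p.hF freeNm_TF (p.hA.ok j) (p.hA.v_ne j) hc (key g h hc))))),
      fun g h hc => Or.inl (key g h hc)⟩
  nc := by
    change ¬ (x0 * x1 = x1 * x0)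
    decide
  d0 := by rw [mul_one, Nm.d_one]; exact (FreeGroup.norm_of 0).le
  d1 := by rw [mul_one, Nm.d_one]; exact (FreeGroup.norm_of 1).le

noncomputable def tw (p : Par ι B C) : ℕ → St p
  | 0 => base p
  | i + 1 => (tw p i).next

theorem tw_mono (p : Par ι B C) {w : F × C} {i i' : ℕ} (hi : i ≤ i') (h : (tw p i).a.ψ w = 1) :
    (tw p i').a.ψ w = 1 := by
  induction i', hi using Nat.le_induction with
  | base => exact h
  | succ k _ ih => exact (tw p k).next_ψ ih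

theorem tw_tau (p : Par ι B C) (u : F) (i : ℕ) :
    2 ^ i * (tw p i).X.τ ((tw p i).a.γ u) ≤ (tw p 0).X.τ ((tw p 0).a.γ u) := by
  induction i with
  | zero => simp
  | succ i ih =>
    refine le_trans ?_ ih
    rw [pow_succ, mul_assoc]
    exact mul_le_mul_of_nonneg_left ((tw p i).next_tau u) (by positivity)

theorem tw_kill (p : Par ι B C) {w : F × C} (hw : w ∈ Subgroup.closure
    {w : F × C | ∃ j g h, w = (rW (p.L j) g h, (p.kap j (p.α g) (p.α h))⁻¹)}) :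
    ∃ i, (tw p i).a.ψ w = 1 := by
  induction hw using Subgroup.closure_induction with
  | mem _ h =>
    obtain ⟨j, f, f', rfl⟩ := h
    obtain ⟨i, hi⟩ := pow_unbounded_of_one_lt
      ((p.L j).n * (tw p 0).X.τ ((tw p 0).a.γ (VW (p.L j) f f'))) (one_lt_two (α := ℝ))
    refine ⟨i + 1, Alg.kill1 _ ((tw p i).next_done ?_)⟩
    have h1 := tw_tau p (VW (p.L j) f f') i
    have h2 : (1 : ℝ) ≤ cB1 := by norm_num [cB1]
    have h3 : (0 : ℝ) ≤ (p.L j).n := by positivity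
    have h4 : (0 : ℝ) < 2 ^ i := by positivity
    refine le_trans (le_of_mul_le_mul_left ?_ h4) h2
    nlinarith
  | one => exact ⟨0, map_one _⟩
  | mul x y _ _ h1 h2 =>
    obtain ⟨i, h1⟩ := h1
    obtain ⟨i', h2⟩ := h2
    exact ⟨max i i', by
      rw [map_mul, tw_mono p (le_max_left _ _) h1, tw_mono p (le_max_right _ _) h2, mul_one]⟩
  | inv x _ h1 =>
    obtain ⟨i, h1⟩ := h1
    exact ⟨i, by rw [map_inv, h1, inv_one]⟩

theorem tower (hF : Facts) : TowerStmt := by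
  intro ι L hA B C _ _ α kap alt
  let p : Par ι B C := ⟨L, hF, hA, α, kap, alt⟩
  refine ⟨fun c hc => ?_, fun n hn hu => ?_⟩
  · obtain ⟨i, hi⟩ := tw_kill p hc
    exact (tw p i).a.inj c hi
  · obtain ⟨w, h1, h2⟩ : x0 ^ n * x1 * (x0 ^ n)⁻¹ * x1⁻¹ ∈ (Subgroup.closure
        {w : F × C | ∃ j g h, w = (rW (p.L j) g h, (p.kap j (p.α g) (p.α h))⁻¹)}).map
        (MonoidHom.fst _ _) := by
      refine (Subgroup.closure_le _).2 ?_ hu
      rintro _ ⟨j, -, g, h, rfl⟩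
      exact ⟨_, Subgroup.subset_closure ⟨j, g, h, rfl⟩, rfl⟩
    obtain ⟨i, hi⟩ := tw_kill p h1
    obtain ⟨E, -, hX⟩ := (tw p i).geo.tf
    have h3 : (tw p i).a.γ w.1 = 1 := by
      have := (tw p i).a.φψ w.2⁻¹
      rw [← one_mul ((tw p i).a.ψ _), ← hi, ← map_mul] at this
      rw [← this]
      change (tw p i).a.φ ((tw p i).a.ψ (w.1, 1)) = _
      congr 2
      exact Prod.ext (by simp) (by simp)
    change w.1 = _ at h2
    rw [h2] at h3
    simp only [map_mul, map_inv, map_pow] at h3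
    exact (tw p i).nc (hX.comm_of_pow hn.ne' (SC.comm_iff.1 h3).symm).symm

end Pool.Agent.MP_5c28a4_al.H89
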