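import Mathlib

set_option autoImplicit false

namespace Pool.Agent.MP_5c28a4_al.H89

/-- a class of groups is soluble if its groups are soluble of bounded derived length -/
def Soluble (V : Set GrpCat.{0}) : Prop := ∃ d : ℕ, ∀ G ∈ V, derivedSeries G d = ⊥

end Pool.Agent.MP_5c28a4_al.H89
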