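import Pool.Agent.MP_5c28a4_al.H89.Base

set_option autoImplicit false

namespace Pool.Agent.MP_5c28a4_al.H89

open Pool.Agent.Burnside6

variable {G G' : Type} [Group G] [Group G']

theorem h0_aux (x : ℕ) : 1000 ≤ cE * (1000000000000000000000000000000 * cP * (x + 1)) := by
  unfold cE cP; omega

theorem h0_ge : 1000 ≤ h0 := by
  rw [h0_eq, cN_eq]; exact h0_aux Le

@[simp] theorem prd_zero (u : ℕ → G) : prd u 0 = 1 := rfl

theorem prd_succ (u : ℕ → G) (n : ℕ) : prd u (n + 1) = prd u n * u n := rfl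

theorem prd_congr {u u' : ℕ → G} {n : ℕ} (h : ∀ i, i < n → u i = u' i) : prd u n = prd u' n := by
  induction n with
  | zero => rfl
  | succ n ih => rw [prd_succ, prd_succ, ih (fun i hi => h i (by omega)), h n (by omega)]

theorem prd_add (u : ℕ → G) (n k : ℕ) : prd u (n + k) = prd u n * prd (fun i => u (n + i)) k := by
  induction k with
  | zero => simp
  | succ k ih => rw [← add_assoc, prd_succ, prd_succ, ih, mul_assoc]

theorem prd_rev (u : ℕ → G) (n : ℕ) : prd (fun i => (u (n - 1 - i))⁻¹) n = (prd u n)⁻¹ := by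
  induction n with
  | zero => simp
  | succ n ih =>
    rw [prd_succ u, mul_inv_rev, ← ih, add_comm n 1, prd_add, prd_succ]
    simp only [prd_zero, one_mul]
    congr 1
    · congr 2; omega
    · apply prd_congr; intro i _; congr 2; omega

theorem prd_mem {S : Subgroup G} {u : ℕ → G} {n : ℕ} (h : ∀ i, i < n → u i ∈ S) : prd u n ∈ S := by
  induction n with
  | zero => exact one_mem _
  | succ n ih => exact mul_mem (ih fun i hi => h i (by omega)) (h n (by omega))

theorem map_prd (f : G →* G') (u : ℕ → G) (n : ℕ) : f (prd u n) = prd (fun i => f (u i)) n := by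
  induction n with
  | zero => simp
  | succ n ih => rw [prd_succ, prd_succ, map_mul, ih]

theorem bval_binv (U : G) (b : G × ℤ × G) : bval U (binv b) = (bval U b)⁻¹ := by
  simp [bval, binv, mul_assoc]

theorem map_eW (f : G →* G') (g h : G) : f (eW g h) = eW (f g) (f h) := by simp [eW]

theorem map_bW (f : G →* G') (m : ℕ) (g h : G) (l : ℕ) : f (bW m g h l) = bW m (f g) (f h) l := by
  unfold bW
  rw [map_prd]
  apply prd_congr
  intro s _
  simp only [bval, bBlk, map_mul, map_zpow, map_eW]
  split_ifs <;> simp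

theorem map_θW (f : G →* G') (m : ℕ) (g h : G) (u : F) : f (θW m g h u) = θW m (f g) (f h) u := by
  have : f.comp (θW m g h) = θW m (f g) (f h) := by
    ext l; simp [θW, map_bW]
  exact DFunLike.congr_fun this u

theorem map_VW (f : G →* G') (l : Law) (g h : G) : f (VW l g h) = VW l (f g) (f h) := by
  unfold VW; exact map_θW _ _ _ _ _

theorem map_pat (f : G →* G') (g h : G) (i : ℕ) : f (pat g h i) = pat (f g) (f h) i := by
  unfold pat; split_ifs <;> simp

theorem map_tW (f : G →* G') (g h : G) (i : ℕ) : f (tW g h i) = tW (f g) (f h) i := by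
  unfold tW; split_ifs <;> simp [map_pat]

theorem map_rW (f : G →* G') (l : Law) (g h : G) : f (rW l g h) = rW l (f g) (f h) := by
  unfold rW
  rw [map_prd]
  apply prd_congr
  intro s _
  simp [bval, rBlk, map_VW, map_tW]

theorem map_Hs (f : G →* G') (k m : ℕ) (g h : G) : (Hs k m g h).map f = Hs k m (f g) (f h) := by
  unfold Hs
  rw [Subgroup.map_map]
  congr 1
  ext l; simp [θW, map_bW]

theorem conj_eW (y g h : G) : eW (y * g * y⁻¹) (y * h * y⁻¹) = y * eW g h * y⁻¹ :=
  (map_eW (MulAut.conj y).toMonoidHom g h).symm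

theorem conj_VW (l : Law) (y g h : G) : VW l (y * g * y⁻¹) (y * h * y⁻¹) = y * VW l g h * y⁻¹ :=
  (map_VW (MulAut.conj y).toMonoidHom l g h).symm

theorem conj_rW (l : Law) (y g h : G) : rW l (y * g * y⁻¹) (y * h * y⁻¹) = y * rW l g h * y⁻¹ :=
  (map_rW (MulAut.conj y).toMonoidHom l g h).symm

@[simp] theorem ev_x0 (g h : G) : ev g h x0 = g := by simp [ev, x0]

@[simp] theorem ev_x1 (g h : G) : ev g h x1 = h := by simp [ev, x1]

theorem map_ev (f : G →* G') (g h : G) (u : F) : f (ev g h u) = ev (f g) (f h) u := by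
  have : f.comp (ev g h) = ev (f g) (f h) := by
    ext l; simp only [ev, MonoidHom.comp_apply, FreeGroup.lift_apply_of]; split_ifs <;> rfl
  exact DFunLike.congr_fun this u

theorem ev_eW (g h : G) : ev g h (eW x0 x1) = eW g h := by simp [map_eW]

theorem ev_VW (l : Law) (g h : G) : ev g h (VW l x0 x1) = VW l g h := by simp [map_VW]

theorem ev_rW (l : Law) (g h : G) : ev g h (rW l x0 x1) = rW l g h := by simp [map_rW]

theorem ev_mem {S : Subgroup G} {g h : G} (hg : g ∈ S) (hh' : h ∈ S) (u : F) : ev g h u ∈ S := by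
  induction u using FreeGroup.induction_on with
  | C1 => simp
  | of i => simp only [ev, FreeGroup.lift_apply_of]; split_ifs <;> assumption
  | inv_of i h => simpa using h
  | mul a b ha hb => rw [map_mul]; exact mul_mem ha hb

theorem ev_disp (X : Nm G) {g h z : G} {L : ℕ} (hg : X.d z (g * z) ≤ L) (hh' : X.d z (h * z) ≤ L)
    (u : F) : X.d z (ev g h u * z) ≤ L * FreeGroup.norm u := by
  have key : ∀ w : List (ℕ × Bool), X.d z (ev g h (FreeGroup.mk w) * z) ≤ L * w.length := by
    intro w
    induction w with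
    | nil => simp [show (FreeGroup.mk [] : F) = 1 from rfl]
    | cons a w ih =>
      have e : (FreeGroup.mk (a :: w) : F) = FreeGroup.mk [a] * FreeGroup.mk w := rfl
      have h1 : X.d z (ev g h (FreeGroup.mk [a]) * z) ≤ L := by
        obtain ⟨i, b⟩ := a
        have h2 : X.d z (ev g h (FreeGroup.of i) * z) ≤ L := by
          simp only [ev, FreeGroup.lift_apply_of]; split_ifs <;> assumption
        cases b
        · have : (FreeGroup.mk [(i, false)] : F) = (FreeGroup.of i)⁻¹ := rfl
          rw [this, map_inv, Nm.d_inv_self]; exact h2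
        · exact h2
      have t := X.tri z (ev g h (FreeGroup.mk [a]) * z) (ev g h (FreeGroup.mk (a :: w)) * z)
      rw [e, map_mul, mul_assoc, Nm.d_mul] at t
      rw [e, map_mul, mul_assoc, List.length_cons, Nat.mul_succ]
      omega
  have := key u.toWord
  rwa [FreeGroup.mk_toWord] at this

theorem prd_pat (g h : G) (n : ℕ) : prd (pat g h) (8 * n) = 1 := by
  induction n with
  | zero => rfl
  | succ n ih =>
    rw [Nat.mul_succ, prd_add, ih, one_mul]
    have : ∀ i, pat g h (8 * n + i) = pat g h i := fun i => by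
      unfold pat; rw [Nat.mul_add_mod]
    simp only [this]
    simp [prd, pat]

theorem prd_tW (g h : G) : prd (tW g h) hh = g * h * g⁻¹ * h⁻¹ := by
  rw [hh_eq, prd_add, prd_congr (u' := pat g h) (fun i hi => by simp [tW, hi]), prd_pat]
  simp [prd, tW]

theorem rW_of_V {l : Law} {g h : G} (hV : VW l g h = 1) : rW l g h = g * h * g⁻¹ * h⁻¹ := by
  rw [← prd_tW]
  unfold rW
  apply prd_congr
  intro i _
  simp [bval, rBlk, hV]

theorem rW_comm {M : Type} [CommGroup M] {l : Law} (hl : l.v ∈ commutator F) (g h : M) :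
    rW l g h = 1 := by
  rw [rW_of_V]
  · rw [mul_inv_cancel_comm]; simp
  · unfold VW; exact Abelianization.commutator_subset_ker _ hl

theorem rW_mem_commutator {l : Law} (hl : l.v ∈ commutator F) (g h : G) :
    rW l g h ∈ commutator G := by
  rw [← Abelianization.ker_of, MonoidHom.mem_ker, map_rW]
  exact rW_comm hl _ _

theorem rW_central {l : Law} (hl : l.v ∈ commutator F) (g h : G) {c c' : G}
    (hc : c ∈ Subgroup.center G) (hc' : c' ∈ Subgroup.center G) :
    rW l (g * c) (h * c') = rW l g h := by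
  let f : G × Subgroup.center G →* G :=
    MonoidHom.noncommCoprod (MonoidHom.id G) (Subgroup.center G).subtype
      (fun a b => Subgroup.mem_center_iff.1 b.2 a)
  have h1 := map_rW f l (g, ⟨c, hc⟩) (h, ⟨c', hc'⟩)
  have h3 : rW l (⟨c, hc⟩ : Subgroup.center G) ⟨c', hc'⟩ = 1 := by
    let _ : CommGroup (Subgroup.center G) :=
      { (inferInstance : Group (Subgroup.center G)) with
        mul_comm := fun a b => Subtype.ext (Subgroup.mem_center_iff.1 b.2 a) }
    exact rW_comm hl _ _
  have h2 : rW l (g, (⟨c, hc⟩ : Subgroup.center G)) (h, ⟨c', hc'⟩) = (rW l g h, 1) :=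
    Prod.ext (map_rW (MonoidHom.fst G (Subgroup.center G)) l _ _)
      ((map_rW (MonoidHom.snd G (Subgroup.center G)) l _ _).trans h3)
  rw [h2] at h1
  simpa [f] using h1.symm

theorem rW_zpow {l : Law} (hl : l.v ∈ commutator F) (w : G) (a b : ℤ) : rW l (w ^ a) (w ^ b) = 1 := by
  have h1 := map_rW (zpowersHom G w) l (Multiplicative.ofAdd a) (Multiplicative.ofAdd b)
  rw [rW_comm hl] at h1
  simpa using h1.symm

theorem Verb_mono {ι : Type} (L : ι → Law) {S S' : Set ι} (h : S ⊆ S') : Verb L S ≤ Verb L S' :=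
  Subgroup.closure_mono (by rintro _ ⟨j, hj, g, h', rfl⟩; exact ⟨j, h hj, g, h', rfl⟩)

theorem Verb_FI {ι : Type} (L : ι → Law) (S : Set ι) : FI (Verb L S) := by
  intro σ w hw
  induction hw using Subgroup.closure_induction with
  | mem _ h =>
    obtain ⟨j, hj, g, h', rfl⟩ := h
    exact Subgroup.subset_closure ⟨j, hj, _, _, map_rW _ _ _ _⟩
  | one => simp
  | mul a b _ _ ha hb => rw [map_mul]; exact mul_mem ha hb
  | inv a _ ha => rw [map_inv]; exact inv_mem ha

theorem FI.normal {V : Subgroup F} (h : FI V) : V.Normal :=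
  ⟨fun w hw g => h (MulAut.conj g).toMonoidHom w hw⟩

theorem exists_Fk (u : F) : ∃ k, u ∈ Fk k := by
  have mono : ∀ {k k'}, k ≤ k' → Fk k ≤ Fk k' := fun h =>
    Subgroup.closure_mono (Set.image_mono fun l (hl : l < _) => lt_of_lt_of_le hl h)
  induction u using FreeGroup.induction_on with
  | C1 => exact ⟨0, one_mem _⟩
  | of i => exact ⟨i + 1, Subgroup.subset_closure ⟨i, Nat.lt_succ_self i, rfl⟩⟩
  | inv_of i h => obtain ⟨k, hk⟩ := h; exact ⟨k, inv_mem hk⟩
  | mul a b ha hb =>
    obtain ⟨k, hk⟩ := ha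
    obtain ⟨k', hk'⟩ := hb
    exact ⟨max k k', mul_mem (mono (le_max_left _ _) hk) (mono (le_max_right _ _) hk')⟩

section free

open FreeGroup

def freeNm : Nm F where
  ν := FreeGroup.norm
  one := norm_one
  eq_one _ h := norm_eq_zero.1 h
  inv _ := norm_inv_eq
  mul := norm_mul_le
  split g s t h := by
    refine ⟨mk (g.toWord.take s), mk (g.toWord.drop s), by simp [mk_toWord], ?_, ?_⟩
    · exact norm_mk_le.trans (by simp)
    · refine norm_mk_le.trans ?_
      unfold FreeGroup.norm at h
      simp; omega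

def cp : List (ℕ × Bool) → List (ℕ × Bool) → ℕ
  | a :: l, b :: m => if a = b then cp l m + 1 else 0
  | _, _ => 0

theorem cp_ultra : ∀ x y z : List (ℕ × Bool), min (cp x z) (cp y z) ≤ cp x y
  | [], _, _ => by simp [cp]
  | _ :: _, [], _ => by simp [cp]
  | _ :: _, _ :: _, [] => by simp [cp]
  | a :: x, b :: y, c :: z => by
    have := cp_ultra x y z
    simp only [cp]
    by_cases h1 : a = c
    · by_cases h2 : b = c
      · simp only [h1, h2, if_true]; omega
      · simp [h2]
    · simp [h1]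

theorem reduced_invRev {L : List (ℕ × Bool)} (h : IsReduced L) : IsReduced (invRev L) := by
  rw [isReduced_iff_reduce_eq] at *
  rw [reduce_invRev, h]

theorem norm_mk_red {L : List (ℕ × Bool)} (h : IsReduced L) : FreeGroup.norm (mk L) = L.length := by
  unfold FreeGroup.norm
  rw [toWord_mk, h.reduce_eq]

theorem norm_cp : ∀ x y : List (ℕ × Bool), IsReduced x → IsReduced y →
    FreeGroup.norm ((mk x)⁻¹ * mk y) + 2 * cp x y = x.length + y.length
  | [], y, _, hy => by simp [cp, invRev, norm_mk_red hy, inv_mk]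
  | a :: x, [], hx, _ => by
    have : (mk [] : FreeGroup ℕ) = 1 := rfl
    rw [this, mul_one, norm_inv_eq, norm_mk_red hx]; simp [cp]
  | a :: x, b :: y, hx, hy => by
    by_cases h : a = b
    · subst h
      have := norm_cp x y (List.IsChain.tail hx) (List.IsChain.tail hy)
      have e : (mk (a :: x))⁻¹ * mk (a :: y) = (mk x)⁻¹ * mk y := by
        have e1 : mk (a :: x) = mk [a] * mk x := rfl
        have e2 : mk (a :: y) = mk [a] * mk y := rfl
        rw [e1, e2]; group
      rw [e]
      simp only [cp, if_true, List.length_cons]; omega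
    · have h1 := reduced_invRev hx
      have : IsReduced (invRev (a :: x) ++ b :: y) := by
        rw [invRev_cons] at h1 ⊢
        have e : invRev [a] = [(a.1, !a.2)] := rfl
        rw [e] at h1 ⊢
        rw [List.append_assoc, List.singleton_append]
        refine List.isChain_append_cons_cons.2 ⟨h1, fun h2 => ?_, hy⟩
        by_contra h3
        apply h
        ext
        · exact h2
        · simp only at h3
          revert h3
          cases a.2 <;> cases b.2 <;> simp
      rw [inv_mk, mul_mk, norm_mk_red this]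
      simp [cp, h]

theorem freeNm_fp : freeNm.FP 0 := by
  have key : ∀ x y : FreeGroup ℕ, freeNm.d x y + 2 * cp x.toWord y.toWord =
      freeNm.d x 1 + freeNm.d y 1 := by
    intro x y
    have := norm_cp _ _ (isReduced_toWord (x := x)) (isReduced_toWord (x := y))
    rw [mk_toWord, mk_toWord] at this
    rw [freeNm.comm x 1, freeNm.comm y 1, Nm.d_one, Nm.d_one]
    exact this
  intro x y z w
  rw [← freeNm.d_mul w⁻¹ x y, ← freeNm.d_mul w⁻¹ z w, ← freeNm.d_mul w⁻¹ x z,
    ← freeNm.d_mul w⁻¹ y w, ← freeNm.d_mul w⁻¹ x w, ← freeNm.d_mul w⁻¹ y z, inv_mul_cancel]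
  have := key (w⁻¹ * x) (w⁻¹ * y)
  have := key (w⁻¹ * x) (w⁻¹ * z)
  have := key (w⁻¹ * y) (w⁻¹ * z)
  have := cp_ultra (w⁻¹ * x).toWord (w⁻¹ * y).toWord (w⁻¹ * z).toWord
  omega

theorem freeNm_tau {g : FreeGroup ℕ} (hg : g ≠ 1) : 1 ≤ freeNm.τ g := by
  obtain ⟨x, hx⟩ := freeNm.exists_min g
  by_cases h : 1 < freeNm.d x (g * x)
  · simpa using freeNm_fp.orbit_tau (l := 1) (freeNm_fp.min_disp hx h) (by omega)
  have h1 : freeNm.d x (g * x) ≠ 0 := fun h0 => hg (by simpa using (freeNm.eq_of_d h0).symm)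
  have h2 : (x⁻¹ * g * x).toWord.length = 1 := by
    have : freeNm.d x (g * x) = 1 := by omega
    rwa [Nm.d, ← mul_assoc] at this
  obtain ⟨⟨a, b⟩, h3⟩ := List.length_eq_one_iff.1 h2
  have h4 : 1 ≤ freeNm.τ (of a) := freeNm.le_tau_nu (c := 0) (fun k => by simp [freeNm])
  rw [← freeNm.tau_conj' x g, ← mk_toWord (x := x⁻¹ * g * x), h3]
  cases b
  · rw [← freeNm.tau_inv]; exact h4
  · exact h4

theorem freeNm_TF : TF freeNm 1 := by
  have h2 : ∀ g : F, g ^ 1 = 1 ∨ 0 < freeNm.τ g := fun g => by
    by_cases h : g = 1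
    · simp [h]
    · right; linarith [freeNm_tau h]
  have he : ∀ e g : F, e ≠ 1 → e ^ 1 = 1 → Commute e g → g ^ 1 = 1 := fun e _ h1 h =>
    absurd (by simpa using h) h1
  refine ⟨freeNm_fp.mono (by norm_num), fun g h => by simpa using freeNm_tau h, ?_, ?_,
    (freeNm_fp.h4_zero 30).mono le_rfl (by norm_num)⟩
  · intro g a b h1 ha hb
    exact freeNm_fp.csa_lox_a odd_one h2 he (freeNm_fp.h4_zero 0) le_rfl
      (by linarith [freeNm_tau h1]) ha hb
  · intro g x hx
    by_cases h1 : g = 1
    · simp [h1]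
    have : 0 < freeNm.τ g := by linarith [freeNm_tau h1]
    exact freeNm_fp.csa_lox_b odd_one h2 he this this (Commute.refl g) hx hx

theorem le_norm_pow {v : F} (hv : v ≠ 1) (n : ℕ) : n ≤ FreeGroup.norm (v ^ n) := by
  have h1 := freeNm.tau_le_nu v n
  have h2 := freeNm_tau hv
  have : (n : ℝ) ≤ freeNm.ν (v ^ n) := by nlinarith [Nat.cast_nonneg (α := ℝ) n]
  exact_mod_cast this

end free

end Pool.Agent.MP_5c28a4_al.H89
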